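import Pool.Agent.Helper17.SPL.TDefs
import Pool.Agent.Helper74.TB.KA
import Pool.Agent.Helper74.TB.KB
import Pool.Agent.Helper74.TB.KC
import Pool.Agent.Helper74.TB.KD
import Pool.Agent.Helper74.TB.KE
import Pool.Agent.Helper74.TB.KF
import Pool.Agent.Helper74.TB.KW
import Pool.Agent.Helper74.TB.KAl

/-!
MP_7246d9_al: alignment of pairs with equal word relators, from the pieces of Part K.
-/

set_option autoImplicit false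

namespace Pool.Agent.Helper17.SPL

open Pool.Agent.Helper74.TB Pool.Agent.Helper74.MH

namespace Al

section

variable {G G' : Type} [Group G] [Group G'] {d : G → G → ℕ} {d' : G' → G' → ℕ}
    {C Δ R n q A L Ax L1 L2 km h M0 lam Θ M1 : ℕ} {F : Set G}
    {H : Hubs d (Lx d (100 * C)) C} {H' : Hubs d' (Lx d' (100 * C)) C} {Tm : ℝ} {π : G →* G'}

open KF in
theorem frame (K : KHyp d d' C Δ R n q A L Ax L1 L2 km h M0 lam Θ M1 F H H' Tm π)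
    {S1 r1 : G} {a1 : ℤ} {g1 : ℤ → G} {b1 : ℤ → ℤ} {u1 v1 : G} {θ1 : ℤ → ℝ}
    {S2 r2 : G} {a2 : ℤ} {g2 : ℤ → G} {b2 : ℤ → ℤ} {u2 v2 : G} {θ2 : ℤ → ℝ}
    (P1 : Pair H n L1 L2 km S1 r1 a1)
    (W1 : WCh H F π n q L2 h M0 lam Θ S1 r1 a1 g1 b1 u1 v1 θ1)
    (W2 : WCh H F π n q L2 h M0 lam Θ S2 r2 a2 g2 b2 u2 v2 θ2)
    {t1 t2 : G} {k l ε : ℤ} (hkl : (h : ℤ) ∣ k - l) (hε : ε = 1 ∨ ε = -1) (ha : a1 = ε * a2)
    (H6 : ∀ i, 0 ≤ i → i ≤ 2 → t1 * g1 (k + i) * r1 ^ n * (t1 * g1 (k + i))⁻¹ =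
          (t2 * g2 (l + i) * r2 ^ n * (t2 * g2 (l + i))⁻¹) ^ ε) :
    ∃ x : G, x * r2 * x⁻¹ = r1 ^ ε ∧ π (x * S2 * x⁻¹) = π S1 := by
  have hn := npos K
  have hh := hpos K
  have hεε : ε * ε = 1 := by rcases hε with rfl | rfl <;> norm_num
  obtain ⟨x, hx⟩ : ∃ x, x = (t1 * g1 k)⁻¹ * (t2 * g2 l) := ⟨_, rfl⟩
  have hx' : t2 * g2 l = t1 * g1 k * x := by rw [hx]; group
  -- the hubs
  have hub1 : ∀ (S r : G) (g : ℤ → G) (b : ℤ → ℤ) (j : ℤ) (t : G),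
      (∀ k, g (k + 1) = g k * (S * r ^ b k)) →
      t * g (j + 1) * r ^ n * (t * g (j + 1))⁻¹ =
        (t * g j) * (S * r ^ n * S⁻¹) * (t * g j)⁻¹ := by
    intro S r g b j t hg
    rw [hg]
    have h1 : r ^ b j * r ^ n * (r ^ b j)⁻¹ = r ^ n := by
      rw [← zpow_natCast, ← zpow_neg, ← zpow_add, ← zpow_add]
      congr 1
      ring
    calc t * (g j * (S * r ^ b j)) * r ^ n * (t * (g j * (S * r ^ b j)))⁻¹
        = (t * g j) * (S * (r ^ b j * r ^ n * (r ^ b j)⁻¹) * S⁻¹) * (t * g j)⁻¹ := by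
          simp only [mul_inv_rev, mul_assoc]
      _ = _ := by rw [h1]
  have hub2 : ∀ (S r : G) (g : ℤ → G) (b : ℤ → ℤ) (j : ℤ) (t : G),
      (∀ k, g (k + 1) = g k * (S * r ^ b k)) →
      t * g (j + 2) * r ^ n * (t * g (j + 2))⁻¹ =
        (t * g j) * ((S * r ^ b j * S) * r ^ n * (S * r ^ b j * S)⁻¹) * (t * g j)⁻¹ := by
    intro S r g b j t hg
    have e : j + 2 = (j + 1) + 1 := by ring
    rw [e, hub1 S r g b (j + 1) t hg, hg j]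
    simp only [mul_inv_rev, mul_assoc]
  have T0 : r1 ^ n = x * (r2 ^ n) ^ ε * x⁻¹ := by
    have h1 := H6 0 le_rfl (by norm_num)
    rw [add_zero, add_zero, hx', conj_zpow] at h1
    have h2 : t1 * g1 k * r1 ^ n * (t1 * g1 k)⁻¹ =
        t1 * g1 k * (x * (r2 ^ n) ^ ε * x⁻¹) * (t1 * g1 k)⁻¹ := by
      rw [h1]
      simp only [mul_inv_rev, mul_assoc]
    exact mul_left_cancel (mul_right_cancel h2)
  have T0' : (r2 ^ n) ^ ε = x⁻¹ * r1 ^ n * x := by rw [T0]; group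
  have hxr : x * r2 * x⁻¹ = r1 ^ ε := by
    have h1 : Commute (x * r2 * x⁻¹) (r1 ^ n) := by
      rw [T0]
      exact ((Commute.refl r2).pow_right n |>.zpow_right ε).conj x
    obtain ⟨c, hc⟩ := Subgroup.mem_zpowers_iff.1 ((P1.cen _).1 h1)
    have h2 : r1 ^ (c * (n * ε)) = r1 ^ (n : ℤ) := by
      rw [zpow_mul, hc, conj_zpow, zpow_mul, zpow_natCast, ← T0, zpow_natCast]
    have h3 := r_inj K P1 h2
    have h4 : (n : ℤ) * (c * ε) = n * 1 := by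
      calc (n : ℤ) * (c * ε) = c * (n * ε) := by ring
        _ = n * 1 := by rw [h3, mul_one]
    have h5 : c * ε = 1 := mul_left_cancel₀ (by omega) h4
    have h6 : c = ε := by
      calc c = c * (ε * ε) := by rw [hεε, mul_one]
        _ = (c * ε) * ε := by ring
        _ = ε := by rw [h5, one_mul]
    rw [← hc, h6]
  obtain ⟨b', hb'⟩ : ∃ b' : ℤ, x * S2 * x⁻¹ = S1 * r1 ^ b' := by
    have h1 := H6 1 (by norm_num) (by norm_num)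
    rw [hub1 S1 r1 g1 b1 k t1 W1.gs, hub1 S2 r2 g2 b2 l t2 W2.gs, hx', conj_zpow, conj_zpow,
      T0'] at h1
    have h2 : t1 * g1 k * (S1 * r1 ^ n * S1⁻¹) * (t1 * g1 k)⁻¹ =
        t1 * g1 k * ((x * S2 * x⁻¹) * r1 ^ n * (x * S2 * x⁻¹)⁻¹) * (t1 * g1 k)⁻¹ := by
      rw [h1]
      simp only [mul_inv_rev, mul_assoc, inv_inv]
    have h3 := mul_left_cancel (mul_right_cancel h2)
    have h4 : Commute (S1⁻¹ * (x * S2 * x⁻¹)) (r1 ^ n) := by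
      change S1⁻¹ * (x * S2 * x⁻¹) * r1 ^ n = r1 ^ n * (S1⁻¹ * (x * S2 * x⁻¹))
      have h5 : (x * S2 * x⁻¹) * r1 ^ n = (S1 * r1 ^ n * S1⁻¹) * (x * S2 * x⁻¹) := by
        rw [h3]; group
      rw [mul_assoc, h5]
      group
    obtain ⟨b', hb'⟩ := Subgroup.mem_zpowers_iff.1 ((P1.cen _).1 h4)
    exact ⟨b', by rw [hb']; group⟩
  have hm : b' + ε * b2 l - b1 k = 0 := by
    have h1 := H6 2 (by norm_num) (by norm_num)
    rw [hub2 S1 r1 g1 b1 k t1 W1.gs, hub2 S2 r2 g2 b2 l t2 W2.gs, hx', conj_zpow, conj_zpow,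
      T0'] at h1
    have h2 : t1 * g1 k * ((S1 * r1 ^ b1 k * S1) * r1 ^ n * (S1 * r1 ^ b1 k * S1)⁻¹) *
        (t1 * g1 k)⁻¹ =
        t1 * g1 k * ((x * (S2 * r2 ^ b2 l * S2) * x⁻¹) * r1 ^ n *
          (x * (S2 * r2 ^ b2 l * S2) * x⁻¹)⁻¹) * (t1 * g1 k)⁻¹ := by
      rw [h1]
      simp only [mul_inv_rev, mul_assoc, inv_inv]
    have h3 := mul_left_cancel (mul_right_cancel h2)
    have h4 : x * (S2 * r2 ^ b2 l * S2) * x⁻¹ = S1 * r1 ^ (b' + ε * b2 l) * S1 * r1 ^ b' := by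
      calc x * (S2 * r2 ^ b2 l * S2) * x⁻¹
          = (x * S2 * x⁻¹) * (x * r2 ^ b2 l * x⁻¹) * (x * S2 * x⁻¹) := by group
        _ = (x * S2 * x⁻¹) * (x * r2 * x⁻¹) ^ b2 l * (x * S2 * x⁻¹) := by rw [conj_zpow]
        _ = (S1 * r1 ^ b') * (r1 ^ ε) ^ b2 l * (S1 * r1 ^ b') := by rw [hb', hxr]
        _ = _ := by rw [← zpow_mul, zpow_add]; simp only [mul_assoc]
    rw [h4] at h3
    obtain ⟨y, hy⟩ : ∃ y, y = (S1 * r1 ^ b1 k * S1)⁻¹ * (S1 * r1 ^ (b' + ε * b2 l) * S1 * r1 ^ b') :=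
      ⟨_, rfl⟩
    have hy' : S1 * r1 ^ (b' + ε * b2 l) * S1 * r1 ^ b' = (S1 * r1 ^ b1 k * S1) * y := by
      rw [hy]; group
    rw [hy'] at h3
    have h5 : Commute y (r1 ^ n) := by
      have h6 : (S1 * r1 ^ b1 k * S1) * (r1 ^ n) * (S1 * r1 ^ b1 k * S1)⁻¹ =
          (S1 * r1 ^ b1 k * S1) * (y * r1 ^ n * y⁻¹) * (S1 * r1 ^ b1 k * S1)⁻¹ := by
        refine h3.trans ?_
        simp only [mul_inv_rev, mul_assoc]
      have h7 := mul_left_cancel (mul_right_cancel h6)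
      exact mul_inv_eq_iff_eq_mul.1 h7.symm
    obtain ⟨j, hj⟩ := Subgroup.mem_zpowers_iff.1 ((P1.cen _).1 h5)
    apply m_zero K P1 (m' := j - b')
    rw [zpow_sub r1 j b', hj, hy, zpow_sub]
    group
  have hcong : ∀ i : ℤ, (n : ℤ) ∣ b1 (k + i) - ε * b2 (l + i) := by
    intro i
    have hh' : (0 : ℤ) < h := by exact_mod_cast hh
    have h1 : (l + i) % (h : ℤ) = (k + i) % (h : ℤ) := by
      apply (Int.modEq_iff_dvd).2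
      have e : k + i - (l + i) = k - l := by ring
      rwa [e]
    obtain ⟨j, hj⟩ : ∃ j : ℕ, (j : ℤ) = (k + i) % (h : ℤ) :=
      ⟨((k + i) % (h : ℤ)).toNat, Int.toNat_of_nonneg (Int.emod_nonneg _ hh'.ne')⟩
    have hjh : j < h := by
      have := Int.emod_lt_of_pos (k + i) hh'
      omega
    rw [b_mod W1.bp (k + i), b_mod W2.bp (l + i), h1, ← hj]
    obtain ⟨c1, h2⟩ := W1.be j hjh
    obtain ⟨c2, h3⟩ := W2.be j hjh
    refine ⟨c1 - ε * c2, ?_⟩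
    have h4 : b1 j = n * c1 + a1 * ((M0 : ℤ) * (lam : ℤ) ^ j) := by linarith
    have h5 : b2 j = n * c2 + a2 * ((M0 : ℤ) * (lam : ℤ) ^ j) := by linarith
    rw [h4, h5, ha]
    ring
  have hb'n : (n : ℤ) ∣ b' := by
    have h1 := hcong 0
    rw [add_zero, add_zero] at h1
    have h2 : b' = b1 k - ε * b2 l := by linarith
    rwa [h2]
  refine ⟨x, hxr, ?_⟩
  rw [hb', map_mul, pi_r K P1 hb'n, mul_one]

/-- The alignment lemma for two words whose axes run together. -/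
theorem align (hB : StKB) (hW : StKW) (hD : StKD) (hE : StKE) (hF : StKF)
    (K : KHyp d d' C Δ R n q A L Ax L1 L2 km h M0 lam Θ M1 F H H' Tm π)
    {S1 r1 : G} {a1 : ℤ} {g1 : ℤ → G} {b1 : ℤ → ℤ} {u1 v1 : G} {θ1 : ℤ → ℝ}
    {S2 r2 : G} {a2 : ℤ} {g2 : ℤ → G} {b2 : ℤ → ℤ} {u2 v2 : G} {θ2 : ℤ → ℝ}
    (hp1 : Pair H n L1 L2 km S1 r1 a1)
    (hw1 : WCh H F π n q L2 h M0 lam Θ S1 r1 a1 g1 b1 u1 v1 θ1) (hx1 : WAx H' π L1 h Tm g1 u1)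
    (hp2 : Pair H n L1 L2 km S2 r2 a2)
    (hw2 : WCh H F π n q L2 h M0 lam Θ S2 r2 a2 g2 b2 u2 v2 θ2) (hx2 : WAx H' π L1 h Tm g2 u2)
    (t1 t2 : G) (a b : G') (hab : 60 * L1 ≤ d' a b)
    (ha1 : Nh d' (3 * L1) (H'.Z (π t1 * π (g1 h) * (π t1)⁻¹)) a)
    (hb1 : Nh d' (3 * L1) (H'.Z (π t1 * π (g1 h) * (π t1)⁻¹)) b)
    (ha2 : Nh d' (3 * L1) (H'.Z (π t2 * π (g2 h) * (π t2)⁻¹)) a)
    (hb2 : Nh d' (3 * L1) (H'.Z (π t2 * π (g2 h) * (π t2)⁻¹)) b) :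
    π t1 * π (g1 h) * (π t1)⁻¹ = π t2 * π (g2 h) * (π t2)⁻¹ ∧
    ∃ (x : G) (ε : ℤ), (ε = 1 ∨ ε = -1) ∧ a1 = ε * a2 ∧ x * r2 * x⁻¹ = r1 ^ ε ∧
      π (x * S2 * x⁻¹) = π S1 := by
  obtain ⟨nC, nL, nL1, -, -, nΔ, nR, nΘ, -, nΘ'⟩ := K.nums
  have hG : HypG d 2000 := K.hS.toHypG
  have hFam : Fam H F Δ Tm := K.hR.toFam
  obtain ⟨ka, kb, la, lb, s, hka, hkb, h1, h2, h3, h4⟩ := hW G G' d d' C Δ R n q A L Ax L1 L2 km h
    M0 lam Θ M1 F H H' Tm π K S1 r1 a1 g1 b1 u1 v1 θ1 S2 r2 a2 g2 b2 u2 v2 θ2 hw1 hx1 hw2 hx2 t1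
    t2 a b hab ha1 hb1 ha2 hb2
  have o1 := hB G d 2000 C Δ (2 * L2 + C) Θ _ F H Tm hG K.hC hFam nΘ' _ _ _ _ (hw1.tr t1)
  have o2 := hB G d 2000 C Δ (2 * L2 + C) Θ _ F H Tm hG K.hC hFam nΘ' _ _ _ _ (hw2.tr t2)
  have hTm : 4000 * ((Δ : ℝ) + (2 * L2 + C : ℕ)) ≤ Tm := by
    have e1 := K.hc3.hT
    have e2 : 1000 * (C : ℝ) ≤ Δ := by exact_mod_cast hFam.hC
    push_cast
    have e3 : (0 : ℝ) ≤ L2 := Nat.cast_nonneg _
    have e4 : (0 : ℝ) ≤ C := Nat.cast_nonneg _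
    linarith
  obtain ⟨κ, hκ, h5⟩ := hD G G' d d' 2000 C Δ R (2 * L2 + C) Θ (9 * L1) _ F H Tm π hG hFam
    K.hc.cst K.hQ nΘ' hTm _ _ _ θ1 _ _ _ θ2 (hw1.tr t1) o1 (hw2.tr t2) o2 ka kb la lb s (s + 100)
    hka hkb h1 (by omega) h2 h4
  have o3 := hB G d 2000 C Δ (2 * L2 + C) Θ _ F H Tm hG K.hC hFam nΘ' _ _ _ _ (hw2.tr (κ * t2))
  obtain ⟨k, l, ε, hkl, hε, ha, h6⟩ := hE G G' d d' C Δ R n q A L Ax L1 L2 km h
    M0 lam Θ M1 F H H' Tm π K S1 r1 a1 g1 b1 u1 v1 θ1 S2 r2 a2 g2 b2 u2 v2 θ2 hp1 hw1 hp2 hw2 t1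
    (κ * t2) o1 o3 s (min la lb) (by
      intro k hk1 hk2
      obtain ⟨l, hl1, hl2, hl3, hl4⟩ := h5 k hk1 hk2
      refine ⟨l, hl1, by omega, hl3, ?_⟩
      have e : κ * t2 * g2 l * r2 ^ n * (κ * t2 * g2 l)⁻¹ =
        κ * (t2 * g2 l * r2 ^ n * (t2 * g2 l)⁻¹) * κ⁻¹ := by group
      rw [e]
      exact hl4)
  have h7 := hF G G' d d' C Δ R n q A L Ax L1 L2 km h
    M0 lam Θ M1 F H H' Tm π K S1 r1 a1 g1 b1 u1 v1 θ1 S2 r2 a2 g2 b2 u2 v2 θ2 hp1 hw1 hp2 hw2 t1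
    (κ * t2) k l ε hkl hε ha h6
  have e : π (κ * t2) = π t2 := by rw [map_mul, (K.hQ.ker κ).2 hκ, one_mul]
  rw [e] at h7
  obtain ⟨x, hx1, hx2⟩ := frame K hp1 hw1 hw2 hkl hε ha h6
  exact ⟨h7.1, x, ε, hε, ha, hx1, hx2⟩

end

end Al

/-- Alignment for equal word relators. -/
theorem stAl (hCHB : StCHB) (hE : StE) (hLen : StLen) (hCo : StCount) (hTR : StTR)
    (hDig : StDig) : StAl := by
  have kB : StKB := stKB hCHB
  obtain ⟨M1, hM1, kC⟩ := stKC hE hLen hCo kB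
  refine ⟨M1, hM1, ?_⟩
  intro G G' _ _ d d' C Δ R n q A L Ax L1 L2 km h M0 lam Θ F H H' Tm π hS hA hAx hR hc hRL hQ hFp
    hS' hA' hR' hc3
  have K : KHyp d d' C Δ R n q A L Ax L1 L2 km h M0 lam Θ M1 F H H' Tm π :=
    ⟨hS, hA, hAx, hR, hc, hRL, hQ, hFp, hS', hA', hR', hc3, hM1⟩
  intro S1 r1 S2 r2 a1 a2 t1 t2 hp1 hp2
  obtain ⟨g1, b1, u1, v1, θ1, hw1⟩ := stKA G G' d d' C Δ R n q A L Ax L1 L2 km h M0 lam Θ M1 F H
    H' Tm π K S1 r1 a1 hp1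
  obtain ⟨g2, b2, u2, v2, θ2, hw2⟩ := stKA G G' d d' C Δ R n q A L Ax L1 L2 km h M0 lam Θ M1 F H
    H' Tm π K S2 r2 a2 hp2
  have hx1 := kC G G' d d' C Δ R n q A L Ax L1 L2 km h M0 lam Θ F H H' Tm π K S1 r1 a1 g1 b1 u1
    v1 θ1 hp1 hw1
  have hx2 := kC G G' d d' C Δ R n q A L Ax L1 L2 km h M0 lam Θ F H H' Tm π K S2 r2 a2 g2 b2 u2
    v2 θ2 hp2 hw2
  obtain ⟨s1, rfl⟩ := hQ.surj t1
  obtain ⟨s2, rfl⟩ := hQ.surj t2
  rw [← hw1.word, ← hw2.word]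
  obtain ⟨w1, hw1'⟩ : ∃ w, w = π s1 * π (g1 h) * (π s1)⁻¹ := ⟨_, rfl⟩
  obtain ⟨w2, hw2'⟩ : ∃ w, w = π s2 * π (g2 h) * (π s2)⁻¹ := ⟨_, rfl⟩
  have m1 : w1 ∈ Lx d' (100 * C) := by
    rw [hw1']
    exact H'.Xconj _ hx1.mem _
  have m2 : w2 ∈ Lx d' (100 * C) := by
    rw [hw2']
    exact H'.Xconj _ hx2.mem _
  have key : H'.Z w1 = H'.Z w2 → w1 = w2 ∧
      ∃ (x : G) (ε : ℤ), (ε = 1 ∨ ε = -1) ∧ a1 = ε * a2 ∧ x * r2 * x⁻¹ = r1 ^ ε ∧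
        π (x * S2 * x⁻¹) = π S1 := by
    intro hZ
    have hx0 : H'.pr w1 1 ∈ H'.Z w1 := H'.pr_mem w1 m1 1
    obtain ⟨y, hy, hy2⟩ := H'.dense w1 m1 _ hx0 ((60 * L1 : ℕ) + (C : ℝ))
    have hd : 60 * L1 ≤ d' (H'.pr w1 1) y := by
      have e1 := H'.lip w1 m1 (H'.pr w1 1) y
      have e2 : ((60 * L1 : ℕ) : ℝ) ≤ (d' (H'.pr w1 1) y : ℝ) := by
        have e3 := abs_le.1 hy2
        have e4 := le_abs_self (H'.Φ w1 (H'.pr w1 1) y)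
        linarith [e3.1]
      exact_mod_cast e2
    have nz : ∀ z ∈ H'.Z w1, Nh d' (3 * L1) (H'.Z w1) z := fun z hz => ⟨z, hz, by
      rw [(hS'.path.zero_iff z z).2 rfl]
      exact Nat.zero_le _⟩
    have q1 := nz _ hx0
    have q2 := nz _ hy
    have q3 := q1
    have q4 := q2
    rw [hZ] at q3 q4
    rw [hw1'] at q1 q2
    rw [hw2'] at q3 q4
    have := Al.align kB stKW (stKD hTR hDig) stKE stKF K hp1 hw1 hx1 hp2 hw2 hx2 s1 s2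
      (H'.pr w1 1) y hd (by rw [← hw1'] at q1 ⊢; exact q1) (by rw [← hw1'] at q2 ⊢; exact q2)
      (by rw [← hw2'] at q3 ⊢; exact q3) (by rw [← hw2'] at q4 ⊢; exact q4)
    rw [← hw1', ← hw2'] at this
    exact this
  rw [← hw1', ← hw2']
  refine ⟨?_, ?_⟩
  · intro he
    obtain ⟨-, x, ε, hε, ha, hx, hx'⟩ := key (by rw [he])
    refine ⟨x, ?_, hx'⟩
    rcases hε with rfl | rfl
    · left
      rw [zpow_one] at hx
      exact ⟨hx.symm, by rw [ha, one_mul]⟩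
    · right
      rw [zpow_neg, zpow_one] at hx
      refine ⟨?_, by rw [ha]; ring⟩
      rw [← conj_inv, hx, inv_inv]
  · intro he
    obtain ⟨h1, -⟩ := key (by rw [he, H'.Zinv w2 m2])
    rw [← h1] at he
    have e1 := H'.shift w1 m1 1
    have e2 := H'.shift w1 m1 (w1 * 1)
    have e3 := H'.coc w1 m1 1 (w1 * 1) (w1 * (w1 * 1))
    have e4 : w1 * (w1 * 1) = 1 := by
      have : w1 * w1⁻¹ = 1 := mul_inv_cancel w1
      rw [← he] at this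
      rw [mul_one, this]
    rw [e4] at e3 e2
    have e5 := H'.coc w1 m1 1 1 1
    have e6 := H'.Tbig w1 m1
    have e7 : (0 : ℝ) < C := by
      have := K.hC
      exact_mod_cast (by omega : 0 < C)
    linarith

end Pool.Agent.Helper17.SPL
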