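import Pool.Agent.Helper17.SPL.TDefs
import Pool.Agent.Helper74.TB.LimA
import Pool.Agent.Helper74.TB.P
import Pool.Agent.Helper74.TB.HL2

/-!
MP_7246d9_al: general facts on towers (G1 - G6 of the plan).
-/

set_option autoImplicit false

namespace Pool.Agent.Helper17.SPL

open Pool.Agent.Helper74.TB Pool.Agent.Helper74.MH

/-- Numerical consequences of the inequalities. -/
theorem Par2.Ok.num {P : Par2} {M1 T0 : ℕ} (hP : P.Ok M1 T0) :
    200000 ≤ P.C ∧ 1000 * P.C ≤ P.L ∧ 10 ^ 6 * P.L ≤ P.Ax ∧ 10 ^ 4 * P.Ax ≤ P.L1 ∧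
      300 * P.L1 ≤ P.Δ ∧ 1000 * P.Δ ≤ P.R ∧ 1 ≤ P.L1 ∧ 1 ≤ P.Δ ∧ 1 ≤ P.R := by
  have h1 := hP.hC
  have h2 := hP.hL
  have h3 := hP.hAx
  have h4 := hP.hL1
  have h5 := hP.cst2.hΔ
  have h6 := hP.cst2.cst.hR
  have h7 : 10 ^ 6 * P.L ≤ P.Ax := le_trans (Nat.le_add_right _ _) h3
  refine ⟨by omega, h2, h7, h4, h5, h6, ?_, ?_, ?_⟩ <;> omega

theorem Par2.Ok.tm {P : Par2} {M1 T0 : ℕ} (hP : P.Ok M1 T0) :
    10 ^ 4 * ((P.Δ : ℝ) + P.L2) ≤ P.Tm ∧ 10 * (P.R : ℝ) ≤ P.Tm :=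
  ⟨hP.cst3.hT, hP.cst2.cst.hT⟩

section quo

variable {G G' : Type*} [Group G] [Group G'] {d : G → G → ℕ} {δ C R : ℕ} {X F : Set G}
  {H : Hubs d X C} {π : G →* G'} {d' : G' → G' → ℕ}

/-- (G1) distances at most `R` become at most `1`. -/
theorem quo_one (hG : HypG d δ) (hQ : Quo H F R π d') {x y : G} (h : d x y ≤ R) :
    d' (π x) (π y) ≤ 1 := quo_lip hG hQ 1 x y (by rw [mul_one]; exact h)

/-- (G1) the quotient map is contracting. -/
theorem quo_le (hG : HypG d δ) (hQ : Quo H F R π d') (hR : 1 ≤ R) (x y : G) :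
    d' (π x) (π y) ≤ d x y :=
  quo_lip hG hQ (d x y) x y (by
    calc d x y = 1 * d x y := (one_mul _).symm
      _ ≤ R * d x y := Nat.mul_le_mul_right _ hR)

/-- (G1) precise contraction. -/
theorem quo_div (hG : HypG d δ) (hQ : Quo H F R π d') (hR : 1 ≤ R) (x y : G) :
    d' (π x) (π y) ≤ d x y / R + 1 :=
  quo_lip hG hQ (d x y / R + 1) x y (by
    have h1 := Nat.lt_mul_div_succ (d x y) (Nat.lt_of_lt_of_le Nat.zero_lt_one hR)
    exact h1.le)

end quo

section tower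

variable {B : Type} [Group B] {P : Par2} {M1 T0 : ℕ} {T : ℕ → Bst B P.C}
  {Q : ∀ i, (T i).G → (T i).G → ℤ → Prop} {π : ∀ i, (T i).G →* (T (i + 1)).G}
  {D : Type} [Group D] {ω : B →* D}

/-- (G6) -/
theorem tw_up (hT : TGood P T Q π) {i j : ℕ} (hij : i ≤ j) {b : B} (h : (T i).p b = 1) :
    (T j).p b = 1 := by
  induction hij with
  | refl => exact h
  | step _ ih =>
    rw [← (hT.nx _).comp, ih, map_one]

theorem tw_up_eq (hT : TGood P T Q π) {i j : ℕ} (hij : i ≤ j) {b b' : B}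
    (h : (T i).p b = (T i).p b') : (T j).p b = (T j).p b' := by
  have h1 : (T i).p (b⁻¹ * b') = 1 := by rw [map_mul, map_inv, h, inv_mul_cancel]
  have h2 := tw_up hT hij h1
  rw [map_mul, map_inv] at h2
  exact inv_mul_eq_one.1 h2

theorem tw_one (hL : LimB T ω) {i : ℕ} {b : B} (h : (T i).p b = 1) : ω b = 1 :=
  (hL.ker b).2 ⟨i, h⟩

theorem tw_eq (hL : LimB T ω) {i : ℕ} {b b' : B} (h : (T i).p b = (T i).p b') :
    ω b = ω b' := by
  have h1 : (T i).p (b⁻¹ * b') = 1 := by rw [map_mul, map_inv, h, inv_mul_cancel]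
  have h2 := tw_one hL h1
  rw [map_mul, map_inv] at h2
  exact inv_mul_eq_one.1 h2

theorem tw_tor (hT : TGood P T Q π) {i j : ℕ} (hij : i ≤ j) {b : B}
    (h : (T i).p b ^ P.n = 1) : (T j).p b ^ P.n = 1 := by
  rw [← map_pow] at h ⊢
  exact tw_up hT hij h

/-- distances do not increase along the tower -/
theorem tw_d (hP : P.Ok M1 T0) (hT : TGood P T Q π) {i j : ℕ} (hij : i ≤ j) (b b' : B) :
    (T j).d ((T j).p b) ((T j).p b') ≤ (T i).d ((T i).p b) ((T i).p b') := by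
  induction hij with
  | refl => exact le_rfl
  | step _ ih =>
    refine le_trans ?_ ih
    rw [← (hT.nx _).comp, ← (hT.nx _).comp]
    exact quo_le (hT.gd _).stage.toHypG (hT.nx _).quo hP.num.2.2.2.2.2.2.2.2 _ _

/-- distances at most `R` become at most `1` along the tower -/
theorem tw_d1 (hP : P.Ok M1 T0) (hT : TGood P T Q π) {i j : ℕ} (hij : i + 1 ≤ j) (b b' : B)
    (h : (T i).d ((T i).p b) ((T i).p b') ≤ P.R) :
    (T j).d ((T j).p b) ((T j).p b') ≤ 1 := by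
  refine le_trans (tw_d hP hT hij b b') ?_
  rw [← (hT.nx _).comp, ← (hT.nx _).comp]
  exact quo_one (hT.gd _).stage.toHypG (hT.nx _).quo h

/-- (G2) a relator has length at least `Tm` and is large compared to all constants -/
theorem F_big (x : Bst B P.C) (hx : Gd P x) {f : x.G} (hf : f ∈ x.F P) : P.Tm ≤ x.H.T f :=
  hx.rels.big f hf

theorem F_sub (x : Bst B P.C) (hx : Gd P x) {f : x.G} (hf : f ∈ x.F P) :
    f ∈ Lx x.d (100 * P.C) := hx.rels.sub hf

/-- every power of a relator moves every point a lot -/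
theorem F_pow (x : Bst B P.C) (hx : Gd P x) {f : x.G} (hf : f ∈ x.F P) (m : ℤ) (z : x.G) :
    |(m : ℝ)| * x.H.T f ≤ x.d z (f ^ m * z) := by
  have h1 := x.H.lip f (F_sub x hx hf) z (f ^ m * z)
  have h2 : x.H.Φ f z (f ^ m * z) = m * x.H.T f := hl_zpow x.H (F_sub x hx hf) z m
  rw [h2, abs_mul, abs_of_nonneg (hl_Tpos x.H (F_sub x hx hf))] at h1
  exact h1

/-- (G4) centres of a torsion element are close -/
theorem ctr_close (x : Bst B P.C) (hx : Gd P x) (hCL : P.C ≤ P.L) {c z z' : x.G}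
    (h : c ^ P.n = 1) (h1 : c ≠ 1) (hz : x.d z (c * z) ≤ P.C) (hz' : x.d z' (c * z') ≤ P.C) :
    x.d z z' < 10 ^ 6 * P.L := by
  by_contra hcon
  push Not at hcon
  exact h1 (hx.stage.acylt c z z' h hcon (hz.trans hCL) (hz'.trans hCL))

/-- (G2) length of a power relator -/
theorem Fp_len (x : Bst B P.C) (hx : Gd P x) {r : x.G} (hr : r ^ P.n ∈ x.F P) :
    (P.n : ℝ) ≤ P.q * x.H.T (r ^ P.n) := by
  have hX := F_sub x hx hr
  have hG := hx.stage.toHypG
  have hrn : r ^ P.n ≠ 1 := by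
    intro h
    have h1 := hX 1
    rw [h, one_mul, (hG.path.zero_iff 1 1).2 rfl] at h1
    have h2 : 90 * (P.C : ℝ) ≤ x.H.T (r ^ P.n) := x.H.Tbig _ hX
    have h3 : x.H.T (r ^ P.n) = 0 := by
      have h4 := x.H.shift _ hX 1
      rw [h, one_mul] at h4
      rw [h, ← h4]
      have h5 := x.H.coc _ (h ▸ hX) 1 1 1
      linarith
    have h6 := hx.rels.hC1
    have h7 : (1 : ℝ) ≤ P.C := by exact_mod_cast h6
    linarith
  have htor := (hx.stage.tor r).resolve_left hrn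
  obtain ⟨E, hE⟩ := hl_len hG x.H hX 1
  refine p_lim (c := P.q * E) fun m => ?_
  have h1 := htor 1 (P.n * m)
  have h2 := (abs_le.1 (hE m)).2
  rw [← pow_mul] at h2
  have h3 : ((P.n * m : ℕ) : ℝ) ≤ P.q * (x.d 1 (r ^ (P.n * m) * 1) : ℝ) := by exact_mod_cast h1
  push_cast at h3
  have h4 : (0 : ℝ) ≤ P.q := Nat.cast_nonneg _
  nlinarith [mul_le_mul_of_nonneg_left h2 h4]

/-- (G3) an element commuting with a relator and moving a point little is a power of the root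
of a power relator. -/
theorem F_root (x : Bst B P.C) (hx : Gd P x) {f U z : x.G} (hf : f ∈ x.F P)
    (hU : Commute U f) (h1 : U ≠ 1) (hz : (x.d z (U * z) : ℝ) < P.Tm) :
    f ∈ Fp x.d P.n P.L1 ∧ ∃ r : x.G, ∃ a : ℤ, f = r ^ P.n ∧
      (∀ y, Commute y f ↔ y ∈ Subgroup.zpowers r) ∧ a ≠ 0 ∧ U = r ^ a := by
  by_cases hp : f ∈ Fp x.d P.n P.L1
  · refine ⟨hp, ?_⟩
    obtain ⟨r, hr1, hr2, -⟩ := hx.fpr f hp
    obtain ⟨a, ha⟩ := Subgroup.mem_zpowers_iff.1 ((hr2 U).1 hU)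
    refine ⟨r, a, hr1, hr2, ?_, ha.symm⟩
    rintro rfl
    exact h1 (by rw [← ha, zpow_zero])
  · exfalso
    have hw : f ∈ x.W := by
      rcases hf with h | h
      · exact absurd h hp
      · exact h
    obtain ⟨m, hm⟩ := Subgroup.mem_zpowers_iff.1 ((hx.wc f hw U).1 hU)
    have hm0 : m ≠ 0 := by
      rintro rfl
      exact h1 (by rw [← hm, zpow_zero])
    have h2 := F_pow x hx hf m z
    rw [hm] at h2
    have h3 := F_big x hx hf
    have h4 : (1 : ℝ) ≤ |(m : ℝ)| := by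
      have : (1 : ℤ) ≤ |m| := Int.one_le_abs hm0
      exact_mod_cast this
    have h5 : 0 ≤ x.H.T f := hl_Tpos x.H (F_sub x hx hf)
    nlinarith

/-- (G5) a torsion element moves points far from its centre a lot. -/
theorem tor_far (x : Bst B P.C) (hx : Gd P x) (hC : 200000 ≤ P.C) (hCL : 1000 * P.C ≤ P.L)
    {c w z : x.G} (h : c ^ P.n = 1) (h1 : c ≠ 1) (hw : x.d w (c * w) ≤ P.C)
    (_hz : 10 ^ 6 * P.L + 10 * P.C ≤ x.d w z) :
    2 * x.d w z ≤ x.d z (c * z) + 2 * (10 ^ 6 * P.L) + 10 * P.C := by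
  have hG := hx.stage.toHypG
  by_contra hcon
  push Not at hcon
  obtain ⟨p, hp1, hp2⟩ := hG.path.geod w z (10 ^ 6 * P.L + 4 * P.C) (by omega)
  unfold Pool.Agent.Helper74.MH.Btw at hp1
  -- `p` and `c p` are close
  have e1 := hG.inv c w z
  have e2 := hG.inv c w p
  have e3 := hG.inv c p z
  have e4 := hG.path.symm z (c * z)
  have t1 := hG.path.tri w (c * w) (c * p)
  have t2 := hG.path.tri (c * w) w (c * z)
  have t3 := hG.path.symm w (c * w)
  have t4 := hG.path.tri w (c * w) p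
  have key : x.d p (c * p) ≤ P.L := by
    have f1 := hG.four p z (c * z) w
    have f2 := hG.four p (c * z) (c * p) w
    have s1 := hG.path.symm z w
    have s4 := hG.path.symm (c * p) w
    have s5 := hG.path.symm (c * z) w
    have s6 := hG.path.symm p w
    have s8 := hG.path.symm (c * p) (c * z)
    have t8 := hG.path.tri w (c * w) (c * z)
    omega
  exact h1 (hx.stage.acylt c w p h (by omega) (by omega) key)

end tower

end Pool.Agent.Helper17.SPL
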