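import Pool.Agent.Helper17.SPL.TDefs2
import Pool.Agent.Helper17.SPL.Cm

/-! MP_7246d9_al, Part A4: the normal subgroup attached to a pair. -/

set_option autoImplicit false

namespace Pool.Agent.Helper17.SPL

open Pool.Agent.Helper74.TB Pool.Agent.Helper74.MH

theorem mix_map_vv {A B : Type*} [Group A] [Group B] (f : A →* B) (N2 : ℕ) (S g : A) :
    f (vv N2 S g) = vv N2 (f S) (f g) := by
  unfold vv
  simp only [map_mul, map_inv, map_pow]

theorem map_bb {A B : Type*} [Group A] [Group B] (f : A →* B) (h : ℕ) (e : ℕ → ℤ) (S V : A) :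
    f (bb h e S V) = bb h e (f S) (f V) := by
  unfold bb
  rw [map_list_prod, List.map_map]
  congr 1
  refine List.map_congr_left fun k _ => ?_
  simp only [Function.comp_apply, map_mul, map_zpow]

theorem map_ww {A B : Type*} [Group A] [Group B] (f : A →* B) (S r : A) (a : ℤ) (h : ℕ)
    (e : ℕ → ℤ) : f (ww S r a h e) = ww (f S) (f r) a h e := by
  unfold ww
  rw [map_list_prod, List.map_map]
  congr 1
  refine List.map_congr_left fun k _ => ?_
  simp only [Function.comp_apply, map_mul, map_zpow]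

theorem bb_ww {A : Type*} [Group A] (S V r : A) (a c : ℤ) (h : ℕ) (e : ℕ → ℤ)
    (hV : V = r ^ a) : bb h (fun k => c * e k) S V = ww S r (c * a) h e := by
  unfold bb ww
  congr 1
  refine List.map_congr_left fun k _ => ?_
  rw [hV, ← zpow_mul]
  congr 2
  ring

theorem BD.pair {B : Type} [Group B] {P : Par2} {x : Bst B P.C} {S g r z : x.G} {a : ℤ}
    (h : BD P x S g r a z) {c : ℤ} (hc : c ≠ 0) (hc1 : |c| ≤ (P.k1 : ℤ) + 1) :
    Pair x.H P.n P.L1 P.L2 P.km S r (c * a) where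
  tor := h.tor
  ne := h.ne
  a0 := mul_ne_zero hc h.a0
  ak := by
    rw [abs_mul]
    unfold Par2.km
    push_cast
    exact mul_le_mul hc1 h.ak (abs_nonneg _) (by positivity)
  fp := h.fp
  cen := h.cen
  near := ⟨z, h.ctr, h.near⟩

/-- displacement of the commutator at the centre -/
theorem BD.comm {B : Type} [Group B] {P : Par2} {x : Bst B P.C} (hx : Gd P x)
    {S g r z : x.G} {a : ℤ} (h : BD P x S g r a z) :
    x.d z ((g * S * g⁻¹ * S⁻¹) * z) ≤ 4 * P.Δ + 2 * P.C := by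
  have hG := hx.stage.toHypG
  have e1 : (g * S * g⁻¹ * S⁻¹) * z = (g * S * g⁻¹) * (S⁻¹ * z) := by group
  rw [e1]
  have t1 := hG.path.tri z ((g * S * g⁻¹) * z) ((g * S * g⁻¹) * (S⁻¹ * z))
  have i1 := hG.inv (g * S * g⁻¹) z (S⁻¹ * z)
  have c1 := h.ctr (-1)
  rw [zpow_neg_one] at c1
  have t2 := hG.path.tri z (g * z) ((g * S * g⁻¹) * z)
  have t3 := hG.path.tri (g * z) (g * (S * z)) ((g * S * g⁻¹) * z)
  have i2 := hG.inv g z (S * z)
  have c2 := h.ctr 1
  rw [zpow_one] at c2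
  have i3 := hG.inv (g * S) z (g⁻¹ * z)
  have e2 : (g * S) * (g⁻¹ * z) = (g * S * g⁻¹) * z := by group
  have e3 : (g * S) * z = g * (S * z) := mul_assoc _ _ _
  rw [e2, e3] at i3
  have i4 := hG.inv g (g⁻¹ * z) z
  rw [mul_inv_cancel_left] at i4
  have s1 := hG.path.symm z (g⁻¹ * z)
  have dd := h.dist
  omega

theorem stMix (hDB : StDB) (hSI : StSI) (hTC : StTC) (hNK : StNK) (hWK : StWK) (hUB : StUB)
    (hSim : StSim) (hSht : StSht) (hKer : StKer) (hGen : StGen) (hLE : StLimEx) : StMix := by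
  intro ι P M1 T0 T Q π i1 i2 s u0 v0 w0 a0 z0 h12 hP hT hinj hdist hBD hQ0 hQ1 hord hncm
  obtain ⟨D, _, ω, hL⟩ := hLE (FreeGroup ι) P T Q π hT
  obtain ⟨tc1, tc2, tc3, tc4⟩ := hTC (FreeGroup ι) P M1 T0 T Q π D ω hP hT hL
  obtain ⟨gen1, gen2⟩ := hGen ι P M1 T0 T Q π i1 i2 h12 hP hT hinj hdist
  have hnum := hP.num
  have htm := hP.tm
  have hn3 : 3 ≤ P.n := hP.cst2.hn
  -- kernels
  have kerS : ∀ j ≤ s + 1, ∀ b, (T j).p b = 1 → b ∈ Vn ι P.n := by
    intro j hj b hb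
    exact hKer ι P M1 T0 T Q π s hP hT hinj hQ0 b (tw_up hT hj hb)
  have hVn : Vn ι P.n ≤ ω.ker := by
    refine Subgroup.normalClosure_le_normal ?_
    rintro _ ⟨x, rfl⟩
    change ω (x ^ P.n) = 1
    rw [map_pow]
    exact tc3 _
  have clker : ∀ b b' : FreeGroup ι, cl ι P.n b = cl ι P.n b' ↔ b⁻¹ * b' ∈ Vn ι P.n := by
    intro b b'
    exact QuotientGroup.eq
  have cl1 : ∀ b : FreeGroup ι, b ∈ Vn ι P.n → cl ι P.n b = 1 := by
    intro b hb
    exact (QuotientGroup.eq_one_iff b).2 hb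
  have clsurj : Function.Surjective (cl ι P.n) := QuotientGroup.mk'_surjective _
  set N : Subgroup (FB ι P.n) := (ω.ker).map (cl ι P.n) with hN
  have memN : ∀ b : FreeGroup ι, cl ι P.n b ∈ N ↔ ω b = 1 := by
    intro b
    constructor
    · rintro ⟨b', hb', he⟩
      have h1 : b'⁻¹ * b ∈ Vn ι P.n := (clker b' b).1 he
      have h2 : ω (b'⁻¹ * b) = 1 := hVn h1
      rw [map_mul, map_inv] at h2
      have h3 : ω b' = 1 := hb'
      rw [h3] at h2
      simpa using h2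
    · intro h
      exact ⟨b, h, rfl⟩
  -- unbounded stages
  have hub : ∀ j, ∃ g : (T j).G, g ^ P.n ≠ 1 := by
    refine hUB ι P M1 T0 T Q π i1 i2 h12 hP hT hinj hdist ?_ gen2
    intro j hj
    have h1 : (T 1).p (FreeGroup.of i1) ^ P.n = 1 := (gen1 P.n).2 (dvd_refl _)
    refine ⟨(T j).p (FreeGroup.of i1), tw_tor hT hj h1, ?_⟩
    intro h2
    have h3 : ω (FreeGroup.of i1) = ω 1 * ω 1 * (ω 1)⁻¹ := by
      rw [tw_one hL h2]
      simp
    obtain ⟨bt, -, h4⟩ := tc1 1 (FreeGroup.of i1) 1 1 h1 (by simp) h3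
    have h5 : (T 1).p (FreeGroup.of i1) ^ 1 = 1 := by
      rw [h4, map_one]
      simp
    have h6 := (gen1 1).1 h5
    have h7 := Nat.le_of_dvd one_pos h6
    omega
  have hsim := hSim (FreeGroup ι) P M1 T0 T Q π D ω s hP hT hL hub
    (fun i hi S r a ha => (hQ1 i hi S r a).2 (Or.inl ha))
  have hsi := hSI (FreeGroup ι) P M1 T0 T Q π D ω hP hT hL
  have hΔR : (1 : ℝ) ≤ P.Δ := by exact_mod_cast hnum.2.2.2.2.2.2.2.1
  have hL2 : (0 : ℝ) ≤ P.L2 := Nat.cast_nonneg _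
  have hCΔ : P.C ≤ P.Δ := by omega
  have hk1 : (0 : ℤ) ≤ (P.k1 : ℤ) := Int.natCast_nonneg _
  refine ⟨N, ⟨?_, ?_, ?_, ?_, ?_, ?_⟩, ?_⟩
  · -- normal
    exact (MonoidHom.normal_ker ω).map _ clsurj
  · -- maximal
    intro M hM hNM
    have hM' : ((M.comap (cl ι P.n)).map ω).Normal := (hM.comap _).map _ hL.surj
    by_cases hbot : (M.comap (cl ι P.n)).map ω = ⊥
    · left
      refine le_antisymm ?_ hNM
      intro x hx
      obtain ⟨b, rfl⟩ := clsurj x
      refine (memN b).2 ?_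
      have h1 : ω b ∈ (M.comap (cl ι P.n)).map ω := ⟨b, hx, rfl⟩
      rw [hbot] at h1
      exact Subgroup.mem_bot.1 h1
    · right
      have htop := hsim _ hM' hbot
      rw [eq_top_iff]
      intro x _
      obtain ⟨b, rfl⟩ := clsurj x
      have h1 : ω b ∈ (M.comap (cl ι P.n)).map ω := by
        rw [htop]
        exact Subgroup.mem_top _
      obtain ⟨b', hb', he⟩ := h1
      have h2 : cl ι P.n (b'⁻¹ * b) ∈ N := by
        rw [memN, map_mul, map_inv, he, inv_mul_cancel]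
      have h3 := M.mul_mem hb' (hNM h2)
      rw [← map_mul, mul_inv_cancel_left] at h3
      exact h3
  · -- non-commuting
    intro h
    have e : cl ι P.n v0 * cl ι P.n u0 * (cl ι P.n v0)⁻¹ * (cl ι P.n u0)⁻¹ =
        cl ι P.n (v0 * u0 * v0⁻¹ * u0⁻¹) := by
      simp only [map_mul, map_inv]
    rw [e, memN] at h
    have h1 := hBD.comm (hT.gd s)
    have h2 : (T s).p (v0 * u0 * v0⁻¹ * u0⁻¹) = 1 := by
      refine hsi s _ z0 ?_ h
      simp only [map_mul, map_inv]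
      have h3 : ((T s).d z0 (((T s).p v0 * (T s).p u0 * ((T s).p v0)⁻¹ * ((T s).p u0)⁻¹) *
          z0) : ℝ) ≤ 6 * P.Δ := by
        have : (T s).d z0 (((T s).p v0 * (T s).p u0 * ((T s).p v0)⁻¹ * ((T s).p u0)⁻¹) *
          z0) ≤ 6 * P.Δ := by omega
        exact_mod_cast this
      linarith [htm.1]
    have h3 := cl1 _ (kerS s (Nat.le_succ s) _ h2)
    rw [← e] at h3
    exact hncm (by
      have h4 := mul_inv_eq_one.1 h3
      have h5 := mul_inv_eq_iff_eq_mul.1 h4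
      exact h5)
  · -- order
    intro j hj
    rw [← map_pow, memN] at hj
    have h2 : (T s).p (u0 ^ j) = 1 := by
      refine hsi s _ z0 ?_ hj
      have h3 := hBD.ctr j
      rw [zpow_natCast] at h3
      rw [map_pow]
      have h4 : ((T s).d z0 ((T s).p u0 ^ j * z0) : ℝ) ≤ P.Δ := by
        exact_mod_cast h3.trans hCΔ
      linarith [htm.1]
    have h3 := cl1 _ (kerS s (Nat.le_succ s) _ h2)
    rw [map_pow] at h3
    exact hord j h3
  · -- the word dies
    rw [← mix_map_vv, ← map_bb, memN]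
    have hp : Pair (T s).H P.n P.L1 P.L2 P.km ((T s).p u0) ((T s).p w0)
        (((P.k1 : ℤ) + 1) * a0) := hBD.pair (by omega) (by rw [abs_of_nonneg (by omega)])
    have h1 := hWK (FreeGroup ι) P M1 T0 T Q π D ω hP hT hL s u0 w0 _ hp
      ((hQ1 s le_rfl _ _ _).2 (Or.inr ⟨rfl, rfl, rfl, rfl⟩))
    have h2 : ω (vv P.N2 u0 v0) = (ω w0) ^ a0 := by
      rw [← map_zpow]
      refine tw_eq hL (i := s) ?_
      rw [mix_map_vv, map_zpow]
      exact hBD.val
    rw [map_bb, bb_ww _ _ (ω w0) a0 _ _ _ h2, ← map_ww]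
    exact h1
  · -- only conjugates
    intro S g hc hb
    obtain ⟨u', rfl⟩ := clsurj S
    obtain ⟨v', rfl⟩ := clsurj g
    have e : cl ι P.n v' * cl ι P.n u' * (cl ι P.n v')⁻¹ * (cl ι P.n u')⁻¹ =
        cl ι P.n (v' * u' * v'⁻¹ * u'⁻¹) := by
      simp only [map_mul, map_inv]
    rw [e, memN] at hc
    have hne : ω u' ≠ 1 := by
      intro h
      apply hc
      simp only [map_mul, map_inv, h]
      simp
    have hnc : ¬ Commute (ω v') (ω u') := by
      intro h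
      apply hc
      simp only [map_mul, map_inv]
      rw [h.eq, mul_inv_cancel_right, mul_inv_cancel]
    obtain ⟨i, u, v, r, a, z, hu, hv, bd⟩ := hDB (FreeGroup ι) P M1 T0 T Q π D ω hP hT hL
      (ω u') (ω v') hne hnc
    obtain ⟨w, rfl⟩ := (hT.gd i).surj r
    have hV : ω (vv P.N2 u v) = (ω w) ^ a := by
      rw [← map_zpow]
      refine tw_eq hL (i := i) ?_
      rw [mix_map_vv, map_zpow]
      exact bd.val
    have hV' : vv P.N2 (ω u') (ω v') = (ω w) ^ a := by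
      rw [← hV, mix_map_vv, hu, hv]
    have hword : ω (ww u w (((P.k1 : ℤ) + 1) * a) P.h P.ex) = 1 := by
      rw [← mix_map_vv, ← map_bb, memN, map_bb, mix_map_vv, bb_ww _ _ (ω w) a _ _ _ hV', ← hu,
        ← map_ww] at hb
      exact hb
    have hp : Pair (T i).H P.n P.L1 P.L2 P.km ((T i).p u) ((T i).p w)
        (((P.k1 : ℤ) + 1) * a) := bd.pair (by omega) (by rw [abs_of_nonneg (by omega)])
    obtain ⟨S', r', z', a', hp', hq', halt, hpi⟩ := hNK (FreeGroup ι) P M1 T0 T Q π D ω hP hT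
      hL i u w _ hp hword
    have his : s ≤ i := by
      by_contra hcon
      exact hQ0 i (by omega) _ _ _ hq'
    have habs : (P.k1 : ℤ) + 1 ≤ |a'| := by
      have h1 : |a'| = ((P.k1 : ℤ) + 1) * |a| := by
        rcases halt with ⟨-, h⟩ | ⟨-, h⟩
        · rw [← h, abs_mul, abs_of_nonneg (by omega : (0 : ℤ) ≤ (P.k1 : ℤ) + 1)]
        · have h' : a' = -(((P.k1 : ℤ) + 1) * a) := by omega
          rw [h', abs_neg, abs_mul, abs_of_nonneg (by omega : (0 : ℤ) ≤ (P.k1 : ℤ) + 1)]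
      have h2 : (1 : ℤ) ≤ |a| := Int.one_le_abs bd.a0
      rw [h1]
      nlinarith
    rcases (hQ1 i his _ _ _).1 hq' with h | ⟨his', hS', hr', ha'⟩
    · omega
    subst his'
    obtain ⟨bz, rfl⟩ := (hT.gd i).surj z'
    have hk0 : ((P.k1 : ℤ) + 1) ≠ 0 := by omega
    -- the powers
    have hpow : (T i).p (vv P.N2 u v) = (T i).p (bz * vv P.N2 u0 v0 * bz⁻¹) := by
      rw [mix_map_vv, bd.val]
      have h0 : (T i).p (bz * vv P.N2 u0 v0 * bz⁻¹) =
          (T i).p bz * (T i).p w0 ^ a0 * ((T i).p bz)⁻¹ := by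
        rw [map_mul, map_mul, map_inv, mix_map_vv, hBD.val]
      rw [h0]
      rcases halt with ⟨h1, h2⟩ | ⟨h1, h2⟩
      · have h3 : a = a0 := mul_left_cancel₀ hk0 (h2.trans ha')
        rw [h1, hr', h3, conj_zpow]
      · have h3 : a = -a0 := by
          apply mul_left_cancel₀ hk0
          rw [h2, ha']
          ring
        rw [h1, hr', h3, conj_zpow, inv_zpow', neg_neg]
    have hS2 : (T (i + 1)).p (bz * u0 * bz⁻¹) = (T (i + 1)).p u := by
      rw [← (hT.nx i).comp, ← (hT.nx i).comp, ← hpi, hS']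
      simp only [map_mul, map_inv]
    have g1 : ω u' = ω bz * ω u0 * (ω bz)⁻¹ := by
      rw [← hu, ← tw_eq hL hS2, map_mul, map_mul, map_inv]
    have g2 : vv P.N2 (ω u') (ω v') = ω bz * ω (vv P.N2 u0 v0) * (ω bz)⁻¹ := by
      rw [hV', ← hV, tw_eq hL hpow, map_mul, map_mul, map_inv]
    refine ⟨cl ι P.n bz⁻¹, ?_, ?_⟩
    · have e1 : cl ι P.n bz⁻¹ * cl ι P.n u' * (cl ι P.n bz⁻¹)⁻¹ * (cl ι P.n u0)⁻¹ =
          cl ι P.n (bz⁻¹ * u' * (bz⁻¹)⁻¹ * u0⁻¹) := by
        simp only [map_mul, map_inv]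
      rw [e1, memN]
      simp only [map_mul, map_inv, g1]
      group
    · have e1 : cl ι P.n bz⁻¹ * vv P.N2 (cl ι P.n u') (cl ι P.n v') * (cl ι P.n bz⁻¹)⁻¹ *
          (vv P.N2 (cl ι P.n u0) (cl ι P.n v0))⁻¹ =
          cl ι P.n (bz⁻¹ * vv P.N2 u' v' * (bz⁻¹)⁻¹ * (vv P.N2 u0 v0)⁻¹) := by
        simp only [map_mul, map_inv, mix_map_vv]
      rw [e1, memN]
      simp only [map_mul, map_inv]
      rw [mix_map_vv ω P.N2 u' v', g2]
      group
  · -- short conjugate pairs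
    intro i his u v r z a bd hcj
    obtain ⟨x, hx1, hx2⟩ := hcj
    obtain ⟨bx, rfl⟩ := clsurj x
    have e1 : cl ι P.n bx * cl ι P.n u * (cl ι P.n bx)⁻¹ * (cl ι P.n u0)⁻¹ =
        cl ι P.n (bx * u * bx⁻¹ * u0⁻¹) := by
      simp only [map_mul, map_inv]
    have e2 : cl ι P.n bx * vv P.N2 (cl ι P.n u) (cl ι P.n v) * (cl ι P.n bx)⁻¹ *
        (vv P.N2 (cl ι P.n u0) (cl ι P.n v0))⁻¹ =
        cl ι P.n (bx * vv P.N2 u v * bx⁻¹ * (vv P.N2 u0 v0)⁻¹) := by
      simp only [map_mul, map_inv, mix_map_vv]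
    rw [e1, memN] at hx1
    rw [e2, memN] at hx2
    have f1 : ω bx * ω u * (ω bx)⁻¹ = ω u0 := by
      rw [map_mul, map_mul, map_mul, map_inv, map_inv] at hx1
      exact mul_inv_eq_one.1 hx1
    have f2 : ω bx * ω (vv P.N2 u v) * (ω bx)⁻¹ = ω (vv P.N2 u0 v0) := by
      rw [map_mul, map_mul, map_mul, map_inv, map_inv] at hx2
      exact mul_inv_eq_one.1 hx2
    obtain ⟨t, ht1, ht2⟩ := hSht (FreeGroup ι) P M1 T0 T Q π D ω s i hP hT hL his u0 v0 u v _ z0
      a0 r z a hBD bd ⟨ω bx, f1, f2⟩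
    obtain ⟨bt, rfl⟩ := (hT.gd (s + 1)).surj t
    refine ⟨cl ι P.n bt, ?_, ?_⟩
    · have h1 : (T (s + 1)).p (bt * u * bt⁻¹ * u0⁻¹) = 1 := by
        rw [map_mul, map_mul, map_mul, map_inv, map_inv, ht1, mul_inv_cancel]
      have h2 := cl1 _ (kerS (s + 1) le_rfl _ h1)
      simp only [map_mul, map_inv] at h2
      exact mul_inv_eq_one.1 h2
    · have h1 : (T (s + 1)).p (bt * vv P.N2 u v * bt⁻¹ * (vv P.N2 u0 v0)⁻¹) = 1 := by
        rw [map_mul, map_mul, map_mul, map_inv, map_inv, ht2, mul_inv_cancel]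
      have h2 := cl1 _ (kerS (s + 1) le_rfl _ h1)
      simp only [map_mul, map_inv, mix_map_vv] at h2
      exact mul_inv_eq_one.1 h2

end Pool.Agent.Helper17.SPL
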