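import Pool.Agent.Helper17.SPL.TDefs2
import Pool.Agent.Helper17.SPL.Mix

/-! MP_7246d9_al, Part A5: assembly of the tower part. -/

set_option autoImplicit false

namespace Pool.Agent.Helper17.SPL

open Pool.Agent.Helper74.TB Pool.Agent.Helper74.MH

/-- The pair `(S, g)` of the free Burnside group has data at the stage `i` of the tower. -/
def Bth (ι : Type) (P : Par2) (T : ℕ → Bst (FreeGroup ι) P.C) (i : ℕ)
    (S g : FB ι P.n) : Prop :=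
  ∃ (u v w : FreeGroup ι) (a : ℤ) (z : (T i).G), cl ι P.n u = S ∧ cl ι P.n v = g ∧
    BD P (T i) ((T i).p u) ((T i).p v) ((T i).p w) a z

theorem hyp_mono {G : Type*} [Group G] {d : G → G → ℕ} {δ δ' : ℕ} (h : δ ≤ δ')
    (hG : HypG d δ) : HypG d δ' where
  path := hG.path
  inv := hG.inv
  four := fun x y z w => (hG.four x y z w).trans (by omega)
  one := hG.one.trans h

open Classical in
theorem stAsm (hA : StA) (hPar : StPar2) (hEX : StEX) (hPure : StPure) (hMix : StMix)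
    (hDB : StDB) : StTower := by
  obtain ⟨M1, hM1⟩ := hEX
  obtain ⟨C, hC, hHub⟩ := hA (max 2000 M1) (le_trans (by norm_num) (le_max_left _ _))
  have hC1 : 100 * 2000 ≤ C := le_trans (Nat.mul_le_mul_left _ (le_max_left 2000 M1)) hC
  have hC2 : M1 ≤ C := by
    have h1 := le_max_right 2000 M1
    omega
  obtain ⟨T0, hT0⟩ := hM1 C hC1 hC2
    (fun G _ d hG => hHub G d (hyp_mono (le_max_left _ _) hG))
  obtain ⟨n0, hn0⟩ := hPar C M1 T0 hC1 hC2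
  refine ⟨n0, fun n hn hodd => ?_⟩
  obtain ⟨P, rfl, hPL, rfl, hP⟩ := hn0 n hn hodd
  refine ⟨P.N2, hP.hN2, fun ι i1 i2 h12 => ?_⟩
  obtain ⟨tw, htw, hdet⟩ := hT0 P rfl hPL hP ι
  -- the pure tower
  set Q0 : Pol (FreeGroup ι) P.C := fun _ _ _ _ _ => False with hQ0
  obtain ⟨⟨π0, hg0⟩, hinj0, hd0⟩ := htw Q0
  obtain ⟨pL, pe, pinf, pcen, pord⟩ := hPure ι P M1 T0 (tw Q0) _ π0 i1 i2 h12 hP hg0 hinj0 hd0
    (fun i S r a h => h)
  -- the births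
  have hbirth : ∀ S g : FB ι P.n, ¬ Commute g S → ∃ i, Bth ι P (tw Q0) i S g := by
    intro S g hc
    have hS : S ≠ 1 := by
      rintro rfl
      exact hc (Commute.one_right g)
    obtain ⟨i, u, v, r, a, z, hu, hv, bd⟩ := hDB (FreeGroup ι) P M1 T0 (tw Q0) _ π0
      (FB ι P.n) (cl ι P.n) hP hg0 pL S g hS hc
    obtain ⟨w, rfl⟩ := (hg0.gd i).surj r
    exact ⟨i, u, v, w, a, z, hu, hv, bd⟩
  let s : FB ι P.n → FB ι P.n → ℕ := fun S g =>
    if h : ∃ i, Bth ι P (tw Q0) i S g then Nat.find h else 0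
  have hs : ∀ S g : FB ι P.n, ¬ Commute g S → Bth ι P (tw Q0) (s S g) S g := by
    intro S g hc
    have h := hbirth S g hc
    have e : s S g = Nat.find h := dif_pos h
    rw [e]
    exact Nat.find_spec h
  refine ⟨pe, pinf, pcen, pord, s, P.h, fun k => ((P.k1 : ℤ) + 1) * P.ex k, ?_⟩
  intro S0 g0 hord hnc
  have h0 := hs S0 g0 hnc
  obtain ⟨k, hk⟩ : ∃ k, s S0 g0 = k := ⟨_, rfl⟩
  rw [hk] at h0
  obtain ⟨u0, v0, w0, a0, z0, hu0, hv0, bd0⟩ := h0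
  -- the policy
  set Q1 : Pol (FreeGroup ι) P.C := fun i x S r a => k ≤ i ∧ (|a| ≤ (P.k1 : ℤ) ∨
    (i = k ∧ S = x.p u0 ∧ r = x.p w0 ∧ a = ((P.k1 : ℤ) + 1) * a0)) with hQ1
  obtain ⟨⟨π1, hg1⟩, hinj1, hd1⟩ := htw Q1
  have hagree : ∀ i ≤ k, tw Q1 i = tw Q0 i := by
    refine hdet Q1 Q0 k fun i hi => ?_
    funext x S r a
    refine propext ⟨fun h => ?_, fun h => h.elim⟩
    exact absurd h.1 (by omega)
  have tr : ∀ x y : Bst (FreeGroup ι) P.C, x = y → ∀ (u v w : FreeGroup ι) (a : ℤ),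
      (∃ z : y.G, BD P y (y.p u) (y.p v) (y.p w) a z) →
      ∃ z : x.G, BD P x (x.p u) (x.p v) (x.p w) a z := by
    rintro x y rfl u v w a h
    exact h
  obtain ⟨z1, bd1⟩ := tr (tw Q1 k) (tw Q0 k) (hagree k le_rfl) u0 v0 w0 a0 ⟨z0, bd0⟩
  obtain ⟨N, hN, hN2⟩ := hMix ι P M1 T0 (tw Q1) (fun i => Q1 i (tw Q1 i)) π1 i1 i2 k u0 v0 w0
    a0 z1 h12 hP hg1 hinj1 hd1 bd1 (fun i hi S r a h => absurd h.1 (by omega))
    (fun i hi S r a => ⟨fun h => h.2, fun h => ⟨hi, h⟩⟩) (by rw [hu0]; exact hord)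
    (by rw [hu0, hv0]; exact hnc)
  rw [hu0, hv0] at hN hN2
  refine ⟨N, hN, ?_⟩
  intro S g hc hle hcj
  rw [hk] at hle
  obtain ⟨u, v, w, a, z, hu, hv, bd⟩ := hs S g hc
  obtain ⟨z', bd'⟩ := tr (tw Q1 (s S g)) (tw Q0 (s S g)) (hagree _ hle) u v w a ⟨z, bd⟩
  have h := hN2 (s S g) hle u v _ z' a bd'
  rw [hu, hv] at h
  exact h hcj

end Pool.Agent.Helper17.SPL
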