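import Pool.Agent.Helper17.SPL.TDefs2

/-! MP_7246d9_al: every non-commuting pair of the limit has data at some stage (Part A2). -/

set_option autoImplicit false

namespace Pool.Agent.Helper17.SPL

open Pool.Agent.Helper74.TB Pool.Agent.Helper74.MH

theorem stDB : StLP → StTC → StDB := by
  intro hLP hTC B _ P M1 T0 T Q π D _ ω hP hT hL S g hS hc
  obtain ⟨-, htor, -, -⟩ := hTC B P M1 T0 T Q π D ω hP hT hL
  obtain ⟨u', hu'⟩ := hL.surj S
  obtain ⟨v', hv'⟩ := hL.surj g
  obtain ⟨i1, hi1⟩ := htor u'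
  obtain ⟨i2, hi2⟩ := htor (vv P.N2 u' v')
  set j : ℕ := max i1 i2 with hj
  have e1 := (hi1 j (le_max_left _ _)).1
  have e2 := (hi2 j (le_max_right _ _)).1
  have heq : ∀ b b' : B, (T j).p b = (T j).p b' → ω b = ω b' := by
    intro b b' h
    have h1 : (T j).p (b⁻¹ * b') = 1 := by
      rw [map_mul, map_inv, h, inv_mul_cancel]
    have h2 := (hL.ker _).2 ⟨j, h1⟩
    rw [map_mul, map_inv] at h2
    exact inv_mul_eq_one.1 h2
  have hne : (T j).p u' ≠ 1 := by
    intro h
    apply hS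
    rw [← hu']
    exact (hL.ker _).2 ⟨j, h⟩
  have hnc : ¬ Commute ((T j).p v') ((T j).p u') := by
    intro h
    apply hc
    have h1 : (T j).p (v' * u') = (T j).p (u' * v') := by
      rw [map_mul, map_mul]
      exact h.eq
    have h2 := heq _ _ h1
    rw [map_mul, map_mul, hu', hv'] at h2
    exact h2
  rcases hLP B P M1 T0 T Q π hP hT j _ _ e1 hne hnc with h | ⟨i, -, u, v, h1, h2, r, a, z, h3⟩
  · exfalso
    apply h
    have h1 : (T j).p (vv P.N2 u' v') = vv P.N2 ((T j).p u') ((T j).p v') := by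
      unfold vv
      simp only [map_mul, map_pow, map_inv]
    rw [← h1]
    exact e2
  · refine ⟨i, u, v, r, a, z, ?_, ?_, h3⟩
    · rw [heq _ _ h1, hu']
    · rw [heq _ _ h2, hv']

end Pool.Agent.Helper17.SPL
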