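import Mathlib

/-!
MP_7246d9_al: splitting automorphisms of free Burnside groups.
Interface between the tower (Part L) and the endgame (Part E).
-/

set_option autoImplicit false

namespace Pool.Agent.Helper17.SPL

/-- The element `S · g S^N2 g⁻¹`. -/
def vv {B : Type*} [Group B] (N2 : ℕ) (S g : B) : B := S * (g * S ^ N2 * g⁻¹)

/-- The word `∏_{k<h} S V^(e k)`. -/
def bb {B : Type*} [Group B] (h : ℕ) (e : ℕ → ℤ) (S V : B) : B :=
  ((List.range h).map (fun k => S * V ^ e k)).prod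

/-- `(S, V)` and `(S', V')` are conjugate modulo the normal subgroup `N`. -/
def CjN {B : Type*} [Group B] (N : Subgroup B) (S V S' V' : B) : Prop :=
  ∃ x, x * S * x⁻¹ * S'⁻¹ ∈ N ∧ x * V * x⁻¹ * V'⁻¹ ∈ N

/-- The normal subgroup attached to the pair `(S0, g0)`: the quotient is simple and
non-commutative, `S0` keeps its order `n`, the word `bb S0 V0` is killed, and it is killed only
for pairs conjugate to `(S0, V0)` modulo `N`. -/
structure Sub (B : Type*) [Group B] (n N2 h : ℕ) (e : ℕ → ℤ) (S0 g0 : B)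
    (N : Subgroup B) : Prop where
  nrm : N.Normal
  max : ∀ M : Subgroup B, M.Normal → N ≤ M → M = N ∨ M = ⊤
  nc : g0 * S0 * g0⁻¹ * S0⁻¹ ∉ N
  ord : ∀ j : ℕ, S0 ^ j ∈ N → n ∣ j
  kill : bb h e S0 (vv N2 S0 g0) ∈ N
  only : ∀ S g : B, g * S * g⁻¹ * S⁻¹ ∉ N → bb h e S (vv N2 S g) ∈ N →
    CjN N S (vv N2 S g) S0 (vv N2 S0 g0)

/-- What the tower delivers for the free Burnside group `B` of exponent `n` (`x1` is one of the
free generators). -/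
structure Rig (B : Type*) [Group B] (n N2 : ℕ) (x1 : B) : Prop where
  exp : ∀ x : B, x ^ n = 1
  inf : Infinite B
  cen : ∀ x : B, x ≠ 1 → {y : B | Commute y x}.Finite
  ord : ∀ j : ℕ, x1 ^ j = 1 → n ∣ j
  main : ∃ (s : B → B → ℕ) (h : ℕ) (e : ℕ → ℤ), ∀ S0 g0 : B, (∀ j : ℕ, S0 ^ j = 1 → n ∣ j) →
    ¬ Commute g0 S0 → ∃ N : Subgroup B, Sub B n N2 h e S0 g0 N ∧
      ∀ S g : B, ¬ Commute g S → s S g ≤ s S0 g0 → CjN N S (vv N2 S g) S0 (vv N2 S0 g0) →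
        ∃ x, x * S * x⁻¹ = S0 ∧ x * vv N2 S g * x⁻¹ = vv N2 S0 g0

/-- Part E1: Chinese remainder theorem for the orbit of a maximal normal subgroup. -/
def StE1 : Prop :=
  ∀ (B : Type) [Group B] (N : Subgroup B), N.Normal →
    (∀ M : Subgroup B, M.Normal → N ≤ M → M = N ∨ M = ⊤) →
    (∃ a b : B, a * b * a⁻¹ * b⁻¹ ∉ N) → ∀ (φ : MulAut B) (k : ℕ), 1 ≤ k →
    (∀ i, 1 ≤ i → i < k → N.map (φ ^ i).toMonoidHom ≠ N) → N.map (φ ^ k).toMonoidHom = N →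
    ∀ q : B, ∃ b : B, b * q⁻¹ ∈ N ∧ ∀ i, 1 ≤ i → i < k → (φ ^ i) b ∈ N

/-- Part E2: the norm condition modulo `N`. -/
def StE2 : Prop :=
  ∀ (B : Type) [Group B] (N : Subgroup B), N.Normal → ∀ (φ : MulAut B) (k r : ℕ), 1 ≤ k →
    N.map (φ ^ k).toMonoidHom = N →
    (∀ q : B, ∃ b : B, b * q⁻¹ ∈ N ∧ ∀ i, 1 ≤ i → i < k → (φ ^ i) b ∈ N) →
    (∀ b : B, ((List.range (k * r)).map (fun i => (φ ^ i) b)).prod ∈ N) →
    ∀ q : B, ((List.range r).map (fun l => (φ ^ (k * l)) q)).prod ∈ N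

/-- Part E3: if `ψ` fixes the class of `S` modulo `N` then `S ^ r ∈ N`. -/
def StE3 : Prop :=
  ∀ (B : Type) [Group B] (N : Subgroup B), N.Normal → ∀ (ψ : MulAut B) (r : ℕ),
    N.map ψ.toMonoidHom = N → (∀ q : B, ((List.range r).map (fun l => (ψ ^ l) q)).prod ∈ N) →
    ∀ S x : B, x * ψ S * x⁻¹ * S⁻¹ ∈ N → S ^ r ∈ N

/-- Part E4: the covering argument. -/
def StE4 : Prop :=
  ∀ (B : Type) [Group B] (n N2 : ℕ) (x1 : B), Odd n → Nat.Coprime N2 n → (∀ x : B, x ^ n = 1) →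
    Infinite B → (∀ x : B, x ≠ 1 → {y : B | Commute y x}.Finite) → x1 ≠ 1 → ∀ φ : MulAut B,
    (∀ g : B, ∃ x, x * φ x1 * x⁻¹ = x1 ∧ x * φ (vv N2 x1 g) * x⁻¹ = vv N2 x1 g) →
    ∃ g : B, ∀ b, φ b = g⁻¹ * b * g

/-- Part E: the endgame. -/
def StEnd : Prop :=
  ∀ (B : Type) [Group B] (n N2 : ℕ) (x1 : B), Odd n → 3 ≤ n → Nat.Coprime N2 n →
    Rig B n N2 x1 → ∀ φ : MulAut B, (∀ b, (φ ^ n) b = b) →
    (∀ b, ((List.range n).map (fun i => (φ ^ (i + 1)) b)).prod = 1) →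
    ∃ g : B, ∀ b, φ b = g⁻¹ * b * g

end Pool.Agent.Helper17.SPL
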