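import Pool.Agent.Helper17.SPL.Defs

set_option autoImplicit false

namespace Pool.Agent.Helper17.SPL

private theorem sup_top {B : Type} [Group B] {N A : Subgroup B} (hN : N.Normal) (hA : A.Normal)
    (mx : ∀ M : Subgroup B, M.Normal → N ≤ M → M = N ∨ M = ⊤) (h : ¬ A ≤ N) : N ⊔ A = ⊤ := by
  haveI := hN
  haveI := hA
  rcases mx (N ⊔ A) inferInstance le_sup_left with h1 | h1
  · exact absurd (h1 ▸ le_sup_right) h
  · exact h1

private theorem dec {B : Type} [Group B] {N A : Subgroup B} (hN : N.Normal) (h : N ⊔ A = ⊤)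
    (q : B) : ∃ n ∈ N, ∃ a ∈ A, n * a = q := by
  haveI := hN
  have : q ∈ N ⊔ A := by rw [h]; exact Subgroup.mem_top q
  rw [← SetLike.mem_coe, Subgroup.normal_mul] at this
  obtain ⟨n, hn, a, ha, e⟩ := this
  exact ⟨n, hn, a, ha, e⟩

private theorem comm_mem {B : Type} [Group B] {N : Subgroup B} (hN : N.Normal) {n1 a1 n2 b1 : B}
    (h1 : n1 ∈ N) (h2 : n2 ∈ N) (h : a1 * b1 * a1⁻¹ * b1⁻¹ ∈ N) :
    (n1 * a1) * (n2 * b1) * (n1 * a1)⁻¹ * (n2 * b1)⁻¹ ∈ N := by
  haveI := hN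
  rw [← QuotientGroup.eq_one_iff] at h1 h2 h ⊢
  simp only [QuotientGroup.mk_mul, QuotientGroup.mk_inv] at h ⊢
  rw [h1, h2, one_mul, one_mul]
  exact h

private theorem inf_not {B : Type} [Group B] {N A A' : Subgroup B} (hN : N.Normal)
    (hA : A.Normal) (hA' : A'.Normal)
    (mx : ∀ M : Subgroup B, M.Normal → N ≤ M → M = N ∨ M = ⊤)
    (nc : ∃ a b : B, a * b * a⁻¹ * b⁻¹ ∉ N) (h : ¬ A ≤ N) (h' : ¬ A' ≤ N) :
    ¬ A ⊓ A' ≤ N := by
  intro hle
  obtain ⟨a, b, hab⟩ := nc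
  obtain ⟨n1, hn1, a1, ha1, e1⟩ := dec hN (sup_top hN hA mx h) a
  obtain ⟨n2, hn2, b1, hb1, e2⟩ := dec hN (sup_top hN hA' mx h') b
  apply hab
  rw [← e1, ← e2]
  apply comm_mem hN hn1 hn2
  apply hle
  refine ⟨?_, ?_⟩
  · have : a1 * b1 * a1⁻¹ * b1⁻¹ = a1 * (b1 * a1⁻¹ * b1⁻¹) := by group
    rw [this]
    exact A.mul_mem ha1 (hA.conj_mem _ (A.inv_mem ha1) b1)
  · exact A'.mul_mem (hA'.conj_mem _ hb1 a1) (A'.inv_mem hb1)

theorem stE1 : StE1 := by
  intro B _ N hN mx nc φ k hk hne _ q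
  have ntop : N ≠ ⊤ := by
    rintro rfl
    obtain ⟨a, b, hab⟩ := nc
    exact hab (Subgroup.mem_top _)
  have hi : ∀ i, 1 ≤ i → i < k → ¬ N.comap (φ ^ i).toMonoidHom ≤ N := by
    intro i h1 h2 hle
    have hsurj : Function.Surjective (φ ^ i).toMonoidHom := (φ ^ i).surjective
    have hinj : Function.Injective (φ ^ i).toMonoidHom := (φ ^ i).injective
    have hmc : (N.comap (φ ^ i).toMonoidHom).map (φ ^ i).toMonoidHom = N :=
      Subgroup.map_comap_eq_self_of_surjective hsurj N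
    have hNm : (N.map (φ ^ i).toMonoidHom).Normal := hN.map _ hsurj
    have hle2 : N ≤ N.map (φ ^ i).toMonoidHom := by
      calc N = (N.comap (φ ^ i).toMonoidHom).map (φ ^ i).toMonoidHom := hmc.symm
        _ ≤ N.map (φ ^ i).toMonoidHom := Subgroup.map_mono hle
    rcases mx _ hNm hle2 with h | h
    · exact hne i h1 h2 h
    · apply ntop
      have : (N.map (φ ^ i).toMonoidHom).comap (φ ^ i).toMonoidHom = N :=
        Subgroup.comap_map_eq_self_of_injective hinj N
      rw [h] at this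
      rw [← this]
      exact Subgroup.comap_top _
  have main : ∀ m, m ≤ k → ∃ I : Subgroup B, I.Normal ∧ ¬ I ≤ N ∧
      ∀ i, 1 ≤ i → i < m → I ≤ N.comap (φ ^ i).toMonoidHom := by
    intro m
    induction m with
    | zero =>
      intro _
      refine ⟨⊤, inferInstance, fun h => ntop (top_le_iff.mp h), ?_⟩
      intro i h1 h2
      omega
    | succ m ih =>
      intro hm
      obtain ⟨I, I1, I2, I3⟩ := ih (by omega)
      rcases Nat.eq_zero_or_pos m with h0 | h0
      · refine ⟨I, I1, I2, ?_⟩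
        intro i h1 h2
        omega
      · have hc : (N.comap (φ ^ m).toMonoidHom).Normal := hN.comap _
        refine ⟨I ⊓ N.comap (φ ^ m).toMonoidHom, ?_, ?_, ?_⟩
        · haveI := I1
          haveI := hc
          exact inferInstance
        · exact inf_not hN I1 hc mx nc I2 (hi m h0 (by omega))
        · intro i h1 h2
          rcases Nat.lt_succ_iff_lt_or_eq.mp h2 with h3 | h3
          · exact le_trans inf_le_left (I3 i h1 h3)
          · subst h3
            exact inf_le_right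
  obtain ⟨I, I1, I2, I3⟩ := main k le_rfl
  obtain ⟨n, hn, b, hb, e⟩ := dec hN (sup_top hN I1 mx I2) q
  refine ⟨b, ?_, ?_⟩
  · rw [← e]
    have : b * (n * b)⁻¹ = n⁻¹ := by group
    rw [this]
    exact N.inv_mem hn
  · intro i h1 h2
    exact I3 i h1 h2 hb

end Pool.Agent.Helper17.SPL
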