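import Pool.Agent.Helper17.SPL.Defs

/-! MP_7246d9_al: Part E2, the norm condition modulo `N`. -/

set_option autoImplicit false

namespace Pool.Agent.Helper17.SPL

theorem e2_pow_mem {B : Type} [Group B] {N : Subgroup B} {ψ : MulAut B}
    (h : N.map ψ.toMonoidHom = N) (l : ℕ) : ∀ x ∈ N, (ψ ^ l) x ∈ N := by
  induction l with
  | zero => intro x hx; exact hx
  | succ l ih =>
    intro x hx
    rw [pow_succ, MulAut.mul_apply]
    refine ih _ ?_
    have h1 : ψ.toMonoidHom x ∈ N.map ψ.toMonoidHom := Subgroup.mem_map_of_mem _ hx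
    rw [h] at h1
    exact h1

theorem stE2 : StE2 := by
  intro B _ N hN φ k r hk hmap hq hb q
  obtain ⟨b, hb1, hb2⟩ := hq q
  have hmem : ∀ l : ℕ, ∀ x ∈ N, (φ ^ (k * l)) x ∈ N := by
    intro l x hx
    rw [pow_mul]
    exact e2_pow_mem hmap l x hx
  have h0 : ∀ x : B, (QuotientGroup.mk' N) x = 1 ↔ x ∈ N := fun x =>
    QuotientGroup.eq_one_iff x
  have hblock : ∀ l : ℕ, ((List.range k).map
      (fun j => (QuotientGroup.mk' N) ((φ ^ (k * l + j)) b))).prod =
      (QuotientGroup.mk' N) ((φ ^ (k * l)) q) := by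
    intro l
    obtain ⟨k', rfl⟩ := Nat.exists_eq_add_one_of_ne_zero (by omega : k ≠ 0)
    rw [List.range_succ_eq_map, List.map_cons, List.prod_cons, List.map_map]
    have h1 : ((List.range k').map ((fun j => (QuotientGroup.mk' N)
        ((φ ^ ((k' + 1) * l + j)) b)) ∘ Nat.succ)).prod = 1 := by
      refine List.prod_eq_one ?_
      intro y hy
      obtain ⟨j, hj, rfl⟩ := List.mem_map.1 hy
      rw [List.mem_range] at hj
      refine (h0 _).2 ?_
      rw [pow_add, MulAut.mul_apply]
      exact hmem l _ (hb2 (j + 1) (by omega) (by omega))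
    rw [h1, mul_one, add_zero]
    have h2 : (QuotientGroup.mk' N) ((φ ^ ((k' + 1) * l)) (b * q⁻¹)) = 1 :=
      (h0 _).2 (hmem l _ hb1)
    rw [map_mul, map_mul, map_inv, map_inv] at h2
    exact mul_inv_eq_one.1 h2
  have key : ∀ s : ℕ, ((List.range (k * s)).map
      (fun i => (QuotientGroup.mk' N) ((φ ^ i) b))).prod =
      ((List.range s).map (fun l => (QuotientGroup.mk' N) ((φ ^ (k * l)) q))).prod := by
    intro s
    induction s with
    | zero => rfl
    | succ s ih =>
      rw [Nat.mul_succ, List.range_add, List.map_append, List.prod_append, ih, List.map_map,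
        List.range_succ, List.map_append, List.prod_append, List.map_singleton,
        List.prod_singleton]
      congr 1
      exact hblock s
  have h3 := (h0 _).2 (hb b)
  rw [map_list_prod, List.map_map] at h3
  refine (h0 _).1 ?_
  rw [map_list_prod, List.map_map]
  exact (key r).symm.trans h3

end Pool.Agent.Helper17.SPL
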