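import Pool.Agent.Helper17.SPL.Defs

/-! MP_7246d9_al: Part E3. -/

set_option autoImplicit false

namespace Pool.Agent.Helper17.SPL

theorem e3_pow_mem {B : Type} [Group B] {N : Subgroup B} {ψ : MulAut B}
    (h : N.map ψ.toMonoidHom = N) (l : ℕ) : ∀ x ∈ N, (ψ ^ l) x ∈ N := by
  induction l with
  | zero => intro x hx; exact hx
  | succ l ih =>
    intro x hx
    rw [pow_succ, MulAut.mul_apply]
    refine ih _ ?_
    have h1 : ψ.toMonoidHom x ∈ N.map ψ.toMonoidHom := Subgroup.mem_map_of_mem _ hx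
    rw [h] at h1
    exact h1

theorem stE3 : StE3 := by
  intro B _ N hN ψ r hmap hq S x hS
  let ρ : B →* B ⧸ N := QuotientGroup.mk' N
  have h0 : ∀ y : B, ρ y = 1 ↔ y ∈ N := fun y => QuotientGroup.eq_one_iff y
  let P : ℕ → B → B := fun l y => ((List.range l).map (fun i => (ψ ^ i) y)).prod
  have hP : ∀ l y, P (l + 1) y = P l y * (ψ ^ l) y := by
    intro l y
    show ((List.range (l + 1)).map (fun i => (ψ ^ i) y)).prod = _
    rw [List.range_succ, List.map_append, List.prod_append, List.map_singleton,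
      List.prod_singleton]
  have hS' : ∀ l : ℕ, ρ ((ψ ^ l) x) * ρ ((ψ ^ (l + 1)) S) * (ρ ((ψ ^ l) x))⁻¹ =
      ρ ((ψ ^ l) S) := by
    intro l
    have h1 := (h0 _).2 (e3_pow_mem hmap l _ hS)
    rw [map_mul, map_mul, map_mul, map_mul, map_mul, map_mul, map_inv, map_inv, map_inv,
      map_inv] at h1
    have h2 := mul_inv_eq_one.1 h1
    rw [pow_succ, MulAut.mul_apply]
    exact h2
  have h1 : ∀ l : ℕ, ρ (P l x) * ρ ((ψ ^ l) S) * (ρ (P l x))⁻¹ = ρ S := by
    intro l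
    induction l with
    | zero =>
      show ρ (1 : B) * ρ S * (ρ (1 : B))⁻¹ = ρ S
      rw [map_one, one_mul, inv_one, mul_one]
    | succ l ih =>
      rw [hP, map_mul, mul_inv_rev]
      have := hS' l
      calc ρ (P l x) * ρ ((ψ ^ l) x) * ρ ((ψ ^ (l + 1)) S) *
            ((ρ ((ψ ^ l) x))⁻¹ * (ρ (P l x))⁻¹)
          = ρ (P l x) * (ρ ((ψ ^ l) x) * ρ ((ψ ^ (l + 1)) S) * (ρ ((ψ ^ l) x))⁻¹) *
            (ρ (P l x))⁻¹ := by group
        _ = ρ S := by rw [this, ih]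
  have h2 : ∀ l : ℕ, ρ (P l (S * x)) = ρ S ^ l * ρ (P l x) := by
    intro l
    induction l with
    | zero =>
      show ρ (1 : B) = ρ S ^ 0 * ρ (1 : B)
      rw [map_one, pow_zero, mul_one]
    | succ l ih =>
      have e := h1 l
      rw [hP, hP, map_mul, ih, map_mul, map_mul, map_mul, pow_succ]
      calc ρ S ^ l * ρ (P l x) * (ρ ((ψ ^ l) S) * ρ ((ψ ^ l) x))
          = ρ S ^ l * (ρ (P l x) * ρ ((ψ ^ l) S) * (ρ (P l x))⁻¹) *
            (ρ (P l x) * ρ ((ψ ^ l) x)) := by group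
        _ = ρ S ^ l * ρ S * (ρ (P l x) * ρ ((ψ ^ l) x)) := by rw [e]
  have h3 : ρ (P r x) = 1 := (h0 _).2 (hq x)
  have h4 : ρ (P r (S * x)) = 1 := (h0 _).2 (hq (S * x))
  rw [h2, h3, mul_one, ← map_pow] at h4
  exact (h0 _).1 h4

end Pool.Agent.Helper17.SPL
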