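import Pool.Agent.Helper17.SPL.Defs

/-! MP_7246d9_al: Part E4, the covering argument. -/

set_option autoImplicit false

open scoped Pointwise

namespace Pool.Agent.Helper17.SPL

/-- The fixed subgroup of an automorphism. -/
def fixs {B : Type} [Group B] (ψ : MulAut B) : Subgroup B where
  carrier := {g | ψ g = g}
  one_mem' := map_one ψ
  mul_mem' := by
    intro a b ha hb
    show ψ (a * b) = a * b
    rw [map_mul, ha, hb]
  inv_mem' := by
    intro a ha
    show ψ a⁻¹ = a⁻¹
    rw [map_inv, ha]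

theorem stE4 : StE4 := by
  intro B _ n N2 x1 hodd hcop hexp hinf hcen hx1 φ hφ
  classical
  -- the automorphisms `ψ_x`
  let ps : B → MulAut B := fun x => MulAut.conj x * φ
  have hps : ∀ x y, ps x y = x * φ y * x⁻¹ := fun x y => rfl
  -- the finite sets
  have hCf : {c : B | Commute c x1}.Finite := hcen x1 hx1
  have hXf : {x : B | x * φ x1 * x⁻¹ = x1}.Finite := by
    obtain ⟨x', hx', -⟩ := hφ 1
    refine (hCf.image (fun c => c * x')).subset ?_
    intro x hx
    refine ⟨x * x'⁻¹, ?_, inv_mul_cancel_right x x'⟩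
    show x * x'⁻¹ * x1 = x1 * (x * x'⁻¹)
    have h1 : x * φ x1 * x⁻¹ = x1 := hx
    have h2 : x * x'⁻¹ * x1 = x * φ x1 * x'⁻¹ := by
      nth_rewrite 1 [← hx']
      group
    rw [h2]
    nth_rewrite 2 [← h1]
    group
  -- `c` commutes with `x1`
  obtain ⟨m, hm⟩ : ∃ m : ℤ, (x1 ^ N2) ^ m = x1 := by
    have hb := Nat.gcd_eq_gcd_ab N2 n
    rw [hcop.gcd_eq_one] at hb
    refine ⟨Nat.gcdA N2 n, ?_⟩
    rw [← zpow_natCast, ← zpow_mul]
    have e : (N2 : ℤ) * Nat.gcdA N2 n = 1 - (n : ℤ) * Nat.gcdB N2 n := by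
      push_cast at hb
      linarith
    rw [e, zpow_sub, zpow_one, zpow_mul, zpow_natCast, hexp, one_zpow, inv_one, mul_one]
  have hcomm : ∀ c : B, Commute c (x1 ^ N2) → Commute c x1 := by
    intro c hc
    have := hc.zpow_right m
    rwa [hm] at this
  have hcov : ∀ g : B, ∃ x ∈ {x : B | x * φ x1 * x⁻¹ = x1}, ∃ c ∈ {c : B | Commute c x1},
      ps x g = g * c := by
    intro g
    obtain ⟨x, h1, h2⟩ := hφ g
    refine ⟨x, h1, g⁻¹ * ps x g, ?_, (mul_inv_cancel_left g _).symm⟩
    refine hcomm _ ?_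
    have h3 : ps x x1 = x1 := h1
    have h4 : ps x (vv N2 x1 g) = vv N2 x1 g := h2
    unfold vv at h4
    rw [map_mul, map_mul, map_mul, map_pow, map_inv, h3] at h4
    have h5 := mul_left_cancel h4
    show g⁻¹ * ps x g * x1 ^ N2 = x1 ^ N2 * (g⁻¹ * ps x g)
    calc g⁻¹ * ps x g * x1 ^ N2 = g⁻¹ * (ps x g * x1 ^ N2 * (ps x g)⁻¹) * ps x g := by group
      _ = x1 ^ N2 * (g⁻¹ * ps x g) := by rw [h5]; group
  -- the cover
  let T : Finset (B × B) := hXf.toFinset ×ˢ hCf.toFinset
  let g0 : B × B → B := fun p => if h : ∃ g : B, ps p.1 g = g * p.2 then (h.choose)⁻¹ else 1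
  have hT : ⋃ p ∈ T, g0 p • ((fixs (ps p.1) : Subgroup B) : Set B) = Set.univ := by
    rw [Set.eq_univ_iff_forall]
    intro y
    obtain ⟨x, hx, c, hc, h⟩ := hcov y⁻¹
    refine Set.mem_iUnion₂.2 ⟨(x, c), ?_, ?_⟩
    · exact Finset.mem_product.2 ⟨hXf.mem_toFinset.2 hx, hCf.mem_toFinset.2 hc⟩
    · have hex : ∃ g : B, ps x g = g * c := ⟨y⁻¹, h⟩
      have hg0 : g0 (x, c) = (hex.choose)⁻¹ := dif_pos hex
      rw [hg0, mem_leftCoset_iff, inv_inv]
      show ps x (hex.choose * y) = hex.choose * y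
      have h6 := hex.choose_spec
      have h7 : ps x y = c⁻¹ * y := by
        have h8 := congrArg (·⁻¹) h
        simp only [map_inv, mul_inv_rev, inv_inv] at h8
        exact h8
      rw [map_mul, h6, h7]
      group
  obtain ⟨p, hp, hfin⟩ := Subgroup.exists_finiteIndex_of_leftCoset_cover hT
  refine ⟨p.1, fun b => ?_⟩
  have hK : (fixs (ps p.1)).normalCore.FiniteIndex := inferInstance
  have hid : ∀ z : B, ps p.1 z = z := by
    intro z
    by_contra hz
    have hne : z⁻¹ * ps p.1 z ≠ 1 := fun h => hz (inv_mul_eq_one.1 h).symm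
    have hf := hcen _ hne
    have hsub : ((fixs (ps p.1)).normalCore : Set B) ⊆ {y : B | Commute y (z⁻¹ * ps p.1 z)} := by
      intro y hy
      have hy' : y ∈ (fixs (ps p.1)).normalCore := hy
      have h1 : z * y * z⁻¹ ∈ (fixs (ps p.1)).normalCore :=
        (Subgroup.normalCore_normal _).conj_mem y hy' z
      have h2 : ps p.1 (z * y * z⁻¹) = z * y * z⁻¹ := Subgroup.normalCore_le _ h1
      have h3 : ps p.1 y = y := Subgroup.normalCore_le _ hy'
      rw [map_mul, map_mul, map_inv, h3] at h2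
      show y * (z⁻¹ * ps p.1 z) = z⁻¹ * ps p.1 z * y
      have h4 : ps p.1 z * y = z * y * z⁻¹ * ps p.1 z := by
        rw [← h2]; group
      rw [mul_assoc, h4]
      group
    have hKf : Finite (fixs (ps p.1)).normalCore := (hf.subset hsub).to_subtype
    have : Finite B := by
      have e := (Subgroup.groupEquivQuotientProdSubgroup
        (s := (fixs (ps p.1)).normalCore))
      have : Finite (B ⧸ (fixs (ps p.1)).normalCore) := inferInstance
      exact Finite.of_equiv _ e.symm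
    exact not_finite B
  have h1 := hid b
  rw [hps] at h1
  nth_rewrite 2 [← h1]
  group

end Pool.Agent.Helper17.SPL
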