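import Pool.Agent.Helper17.SPL.TDefs
import Pool.Agent.Helper74.TB.Tow

/-!
MP_7246d9_al, Part T2: towers exist for every policy, deterministically.
See /team-store/MP_7246d9-SPL-plan.md; compare Pool/Agent/Helper74/TB/Tow.lean.
-/

set_option autoImplicit false

namespace Pool.Agent.Helper17.SPL

open Pool.Agent.Helper74.TB Pool.Agent.Helper74.MH

section

variable {B : Type} [Group B] {P : Par2} {M1 T0 : ℕ}

/-- the Greendlinger property -/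
theorem ex_green (hCC : StC) (hP : P.Ok M1 T0) {G : Type} [Group G] {d : G → G → ℕ}
    (H : Hubs d (Lx d (100 * P.C)) P.C) (F : Set G)
    (hst : Stage d 2000 P.n P.q (10 ^ 6 * P.L) P.L) (hr : Rels H F P.n P.L1 P.Δ P.Tm) :
    ∀ k ∈ Subgroup.closure F, k ≠ 1 → ∀ z, ∃ f ∈ F, H.T f - 20 * P.Δ ≤ |H.Φ f z (k * z)| := by
  have hcst := hP.cst2
  have hδC : 100 * 2000 ≤ P.C := hP.hC
  have hT : 100 * (P.Δ : ℝ) ≤ P.Tm := by
    have h1 := hcst.cst.hcT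
    have h2 : (0 : ℝ) ≤ P.Δ := Nat.cast_nonneg _
    linarith
  exact hCC G d 2000 P.C P.Δ _ F H P.Tm hst.toHypG hδC hr.toFam hT

theorem ex_hAC (hP : P.Ok M1 T0) : 10 ^ 6 * P.L + P.C ≤ P.Ax := by
  have hcst := hP.cst2
  refine le_trans ?_ hP.hAx
  apply Nat.add_le_add_left
  have h1 : 1 ≤ 10 ^ 5 * P.q * P.L := by
    have h2 := hP.hq
    have h3 : 1 ≤ P.L := by
      have := hcst.hL
      have := hP.hC
      omega
    calc 1 ≤ 10 ^ 5 * 1 * 1 := by norm_num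
      _ ≤ 10 ^ 5 * P.q * P.L :=
        Nat.mul_le_mul (Nat.mul_le_mul_left _ h2) h3
  calc P.C = 1 * P.C := (one_mul _).symm
    _ ≤ 10 ^ 5 * P.q * P.L * P.C := Nat.mul_le_mul_right _ h1

/-- The quotient of a stage and its geometry, before the choice of the word relators. -/
theorem ex_quo (hX : StX) (hPP : StP) (hQ : StQuo) (hP : P.Ok M1 T0) {M1s : ℕ}
    (hM1s : M1s ≤ M1)
    (hStep : ∀ (G G' : Type) [Group G] [Group G'] (d : G → G → ℕ) (d' : G' → G' → ℕ)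
      (Δ R n q Ax L1 : ℕ) (F : Set G) (H : Hubs d (Lx d (100 * P.C)) P.C) (Tm : ℝ)
      (π : G →* G'), Stage d 2000 n q (10 ^ 6 * P.L) P.L → Alg H n q P.L Ax →
      Rels H F n L1 Δ Tm → Cst2 2000 P.C Δ R n q P.L Ax L1 M1s Tm → Quo H F R π d' →
      (T0 : ℝ) * R ≤ Tm → Stage d' 2000 n q (10 ^ 6 * P.L) P.L)
    (hHub : ∀ (G : Type) [Group G] (d : G → G → ℕ), HypG d 2000 →
      Nonempty (Hubs d (Lx d (100 * P.C)) P.C))
    (x : Bst B P.C) (hx : Gd P x) :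
    ∃ (G' : Type) (_ : Group G') (π : x.G →* G') (d' : G' → G' → ℕ)
      (H' : Hubs d' (Lx d' (100 * P.C)) P.C), Quo x.H (x.F P) P.R π d' ∧
      Stage d' 2000 P.n P.q (10 ^ 6 * P.L) P.L ∧ Alg H' P.n P.q P.L P.Ax ∧
      Rels H' (Fp d' P.n P.L1) P.n P.L1 P.Δ P.Tm ∧
      ∀ f ∈ Fp d' P.n P.L1, ∃ r : G', f = r ^ P.n ∧
        (∀ y, Commute y f ↔ y ∈ Subgroup.zpowers r) ∧
        ∀ z ∈ H'.Z f, d' z (r * z) ≤ P.L1 + 10 * P.C := by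
  have hcst := hP.cst2
  have hC := hP.hC
  have hR1 : 1 ≤ P.R := by
    have h1 := hcst.cst.hR
    have h2 := hcst.cst.hΔ
    omega
  obtain ⟨G', grp', π, d', hquo⟩ := hQ x.G x.d 2000 P.C P.Δ P.R _ (x.F P) x.H P.Tm
    hx.stage.toHypG hx.rels.toFam hR1
  have hst' : Stage d' 2000 P.n P.q (10 ^ 6 * P.L) P.L :=
    hStep x.G G' x.d d' P.Δ P.R P.n P.q P.Ax P.L1 (x.F P) x.H P.Tm π hx.stage hx.alg hx.rels
      (hcst.anti hM1s) hquo hP.hT0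
  obtain ⟨H'⟩ := hHub G' d' hst'.toHypG
  have hδC : 100 * 2000 ≤ P.C := hC
  have halg' : Alg H' P.n P.q P.L P.Ax :=
    hX G' d' 2000 P.C P.n P.q (10 ^ 6 * P.L) P.L P.Ax H' hst' hcst.odd hδC hcst.hL hP.hq hP.hAx
  obtain ⟨hrp', hfp'⟩ :=
    hPP G' d' 2000 P.C P.n P.q (10 ^ 6 * P.L) P.L P.Ax P.L1 P.Δ P.Tm H' hst' hcst.odd hδC
      (by omega) hcst.hL hP.hq halg' hcst.hL1 hcst.hAx hcst.hΔ hP.hqT hP.hqn
  exact ⟨G', grp', π, d', H', hquo, hst', halg', hrp', hfp'⟩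

/-- the next stage -/
theorem ex_step (hX : StX) (hPP : StP) (hQ : StQuo) (hCC : StC) (hH : StH) (hP : P.Ok M1 T0)
    {M1s : ℕ} (hM1s : M1s ≤ M1)
    (hStep : ∀ (G G' : Type) [Group G] [Group G'] (d : G → G → ℕ) (d' : G' → G' → ℕ)
      (Δ R n q Ax L1 : ℕ) (F : Set G) (H : Hubs d (Lx d (100 * P.C)) P.C) (Tm : ℝ)
      (π : G →* G'), Stage d 2000 n q (10 ^ 6 * P.L) P.L → Alg H n q P.L Ax →
      Rels H F n L1 Δ Tm → Cst2 2000 P.C Δ R n q P.L Ax L1 M1s Tm → Quo H F R π d' →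
      (T0 : ℝ) * R ≤ Tm → Stage d' 2000 n q (10 ^ 6 * P.L) P.L)
    {Mf : ℕ} (mF : Mf ≤ M1)
    (hF : ∀ (G G' : Type) [Group G] [Group G'] (d : G → G → ℕ) (d' : G' → G' → ℕ)
      (δ C Δ R n q A L Ax L1 : ℕ) (F : Set G) (H : Hubs d (Lx d (100 * C)) C) (Tm : ℝ)
      (π : G →* G'), Stage d δ n q A L → Alg H n q L Ax → Rels H F n L1 Δ Tm →
      Cst2 δ C Δ R n q L Ax L1 Mf Tm → Quo H F R π d' →
      ∀ a : G', (∃ g, g ^ n = 1 ∧ π g = a) ∨ (∃ f ∈ F, ∃ y, Commute y f ∧ π y = a) ∨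
        ∀ (x : G') (m : ℕ), m ≤ q * d' x (a ^ m * x))
    {Mj1 : ℕ} (mJ1 : Mj1 ≤ M1)
    (hJ1 : ∀ (G G' : Type) [Group G] [Group G'] (d : G → G → ℕ) (d' : G' → G' → ℕ)
      (δ C Δ R n q A L Ax L1 : ℕ) (F : Set G) (H : Hubs d (Lx d (100 * C)) C) (Tm : ℝ)
      (π : G →* G'), Stage d δ n q A L → Alg H n q L Ax → A + C ≤ Ax → Rels H F n L1 Δ Tm →
      Cst2 δ C Δ R n q L Ax L1 Mj1 Tm → Quo H F R π d' →
      ∀ P Q x y : G, P ^ n = 1 → P ≠ 1 → Q ^ n = 1 → Q ≠ 1 → (∀ j : ℤ, d x (P ^ j * x) ≤ C) →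
        (∀ j : ℤ, d y (Q ^ j * y) ≤ C) → (∀ k ∈ Subgroup.closure F, d x y ≤ d x (k * y)) →
        100 * Ax ≤ d x y → ∀ U, U = P * Q ∨ U = P * Q * P⁻¹ * Q⁻¹ →
        U ^ n ≠ 1 ∧ (((∃ f ∈ F, Commute U f ∧ Nh d (4 * Ax) (H.Z f) x) ∧ d x y ≤ 2 * Δ) ∨
          π U ^ n ≠ 1))
    {Mj2 : ℕ} (mJ2 : Mj2 ≤ M1)
    (hJ2 : ∀ (G G' : Type) [Group G] [Group G'] (d : G → G → ℕ) (d' : G' → G' → ℕ)
      (δ C Δ R n q A L Ax L1 : ℕ) (F : Set G) (H : Hubs d (Lx d (100 * C)) C) (Tm : ℝ)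
      (π : G →* G'), Stage d δ n q A L → Alg H n q L Ax → Rels H F n L1 Δ Tm →
      Cst2 δ C Δ R n q L Ax L1 Mj2 Tm → Quo H F R π d' →
      ∀ f ∈ F, ∀ r t : G, (∀ y, Commute y f ↔ y ∈ Subgroup.zpowers r) → f = r ^ n →
        t * f * t⁻¹ ≠ f → t * f * t⁻¹ ≠ f⁻¹ → ∀ x ∈ H.Z f, ∀ y ∈ H.Z (t * f * t⁻¹),
        (∀ x' ∈ H.Z f, ∀ y' ∈ H.Z (t * f * t⁻¹), ∀ k ∈ Subgroup.closure F,
          d x y ≤ d x' (k * y')) →
        ∀ k1 k2 : ℤ, k1 ≠ 0 → k2 ≠ 0 → 2 * |k1| ≤ n → 2 * |k2| ≤ n →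
        (100 * (Δ : ℝ) * n ≤ |(k1 : ℝ)| * H.T f ∨ 100 * (Δ : ℝ) * n ≤ |(k2 : ℝ)| * H.T f) →
        ∀ U, U = r ^ k1 * (t * r ^ k2 * t⁻¹) ∨
          U = r ^ k1 * (t * r ^ k2 * t⁻¹) * (r ^ k1)⁻¹ * (t * r ^ k2 * t⁻¹)⁻¹ →
        U ^ n ≠ 1 ∧ π U ^ n ≠ 1)
    {M1k : ℕ} (hM1k : M1k ≤ M1)
    (hK : ∀ (G G' : Type) [Group G] [Group G'] (d : G → G → ℕ) (d' : G' → G' → ℕ)
      (C Δ R n q A L Ax L1 L2 km h M0 lam Θ : ℕ) (F : Set G) (H : Hubs d (Lx d (100 * C)) C)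
      (H' : Hubs d' (Lx d' (100 * C)) C) (Tm : ℝ) (π : G →* G') (P : G → G → ℤ → Prop),
      Stage d 2000 n q A L → Alg H n q L Ax → 10 ^ 5 * q * L * C ≤ Ax →
      Rels H F n L1 Δ Tm → Cst2 2000 C Δ R n q L Ax L1 M1k Tm → R ≤ 10 ^ 6 * L1 →
      Quo H F R π d' → Fp d n L1 ⊆ F →
      Stage d' 2000 n q A L → Alg H' n q L Ax → Rels H' (Fp d' n L1) n L1 Δ Tm →
      Cst3 C Δ R n q L1 L2 km h M0 lam Θ M1k Tm →
      Rels H' (Fp d' n L1 ∪ Fw H π n L1 L2 km h (fun k => M0 * lam ^ k) P) n L1 Δ Tm ∧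
      ∀ w ∈ Fw H π n L1 L2 km h (fun k => M0 * lam ^ k) P, ∀ y,
        Commute y w ↔ y ∈ Subgroup.zpowers w)
    {M1a : ℕ} (hM1a : M1a ≤ M1)
    (hAl : ∀ (G G' : Type) [Group G] [Group G'] (d : G → G → ℕ) (d' : G' → G' → ℕ)
      (C Δ R n q A L Ax L1 L2 km h M0 lam Θ : ℕ) (F : Set G) (H : Hubs d (Lx d (100 * C)) C)
      (H' : Hubs d' (Lx d' (100 * C)) C) (Tm : ℝ) (π : G →* G'),
      Stage d 2000 n q A L → Alg H n q L Ax → 10 ^ 5 * q * L * C ≤ Ax →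
      Rels H F n L1 Δ Tm → Cst2 2000 C Δ R n q L Ax L1 M1a Tm → R ≤ 10 ^ 6 * L1 →
      Quo H F R π d' → Fp d n L1 ⊆ F →
      Stage d' 2000 n q A L → Alg H' n q L Ax → Rels H' (Fp d' n L1) n L1 Δ Tm →
      Cst3 C Δ R n q L1 L2 km h M0 lam Θ M1a Tm →
      ∀ (S1 r1 S2 r2 : G) (a1 a2 : ℤ) (t1 t2 : G'), Pair H n L1 L2 km S1 r1 a1 →
        Pair H n L1 L2 km S2 r2 a2 →
        (t1 * π (ww S1 r1 a1 h (fun k => M0 * lam ^ k)) * t1⁻¹ =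
            t2 * π (ww S2 r2 a2 h (fun k => M0 * lam ^ k)) * t2⁻¹ →
          ∃ z : G, (r1 = z * r2 * z⁻¹ ∧ a1 = a2 ∨ r1 = z * r2⁻¹ * z⁻¹ ∧ a1 = -a2) ∧
            π (z * S2 * z⁻¹) = π S1) ∧
        t1 * π (ww S1 r1 a1 h (fun k => M0 * lam ^ k)) * t1⁻¹ ≠
          (t2 * π (ww S2 r2 a2 h (fun k => M0 * lam ^ k)) * t2⁻¹)⁻¹)
    (hHub : ∀ (G : Type) [Group G] (d : G → G → ℕ), HypG d 2000 →
      Nonempty (Hubs d (Lx d (100 * P.C)) P.C))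
    (x : Bst B P.C) (hx : Gd P x) (Q : x.G → x.G → ℤ → Prop) :
    ∃ (y : Bst B P.C) (π : x.G →* y.G), Gd P y ∧ Nx P x y Q π := by
  have hcst := hP.cst2
  obtain ⟨G', grp', π, d', H', hquo, hst', halg', hrp', hfp'⟩ :=
    ex_quo hX hPP hQ hP hM1s hStep hHub x hx
  have hAx5 : 10 ^ 5 * P.q * P.L * P.C ≤ P.Ax := le_trans (Nat.le_add_left _ _) hP.hAx
  have hsub : Fp x.d P.n P.L1 ⊆ x.F P := Set.subset_union_left
  have hk := fun Q' : x.G → x.G → ℤ → Prop =>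
    hK x.G G' x.d d' P.C P.Δ P.R P.n P.q (10 ^ 6 * P.L) P.L P.Ax P.L1 P.L2 P.km P.h
      P.M0 P.lam P.Θ (x.F P) x.H H' P.Tm π Q'
      hx.stage hx.alg hAx5 hx.rels (hcst.anti hM1k) hP.hR hquo hsub hst' halg' hrp'
      (hP.cst3.anti hM1k)
  have hal := hAl x.G G' x.d d' P.C P.Δ P.R P.n P.q (10 ^ 6 * P.L) P.L P.Ax P.L1 P.L2 P.km P.h
      P.M0 P.lam P.Θ (x.F P) x.H H' P.Tm π
      hx.stage hx.alg hAx5 hx.rels (hcst.anti hM1a) hP.hR hquo hsub hst' halg' hrp'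
      (hP.cst3.anti hM1a)
  obtain ⟨hrels', hcen'⟩ := hk Q
  obtain ⟨hrelsT, hcenT⟩ := hk (fun _ _ _ => True)
  have hsurj : Function.Surjective (π.comp x.p) := by
    intro a
    obtain ⟨b, rfl⟩ := hquo.surj a
    obtain ⟨c, rfl⟩ := hx.surj b
    exact ⟨c, rfl⟩
  let y : Bst B P.C :=
    { G := G'
      grp := grp'
      d := d'
      H := H'
      W := Fw x.H π P.n P.L1 P.L2 P.km P.h P.ex Q
      p := π.comp x.p }
  refine ⟨y, π, ?_, ?_⟩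
  · exact
      { surj := hsurj
        stage := hst'
        alg := halg'
        rels := hrels'
        fpr := hfp'
        wc := hcen'
        green := ex_green hCC hP H' _ hst' hrels' }
  · exact
      { comp := fun b => rfl
        quo := hquo
        wd := rfl
        tors := hH x.G G' x.d d' 2000 P.C P.Δ P.R P.n P.q (10 ^ 6 * P.L) P.L P.Ax P.L1 M1
          (x.F P) x.H P.Tm π hx.stage hx.alg hx.rels hP.cst2 hquo
        cls := hF x.G G' x.d d' 2000 P.C P.Δ P.R P.n P.q (10 ^ 6 * P.L) P.L P.Ax P.L1 (x.F P)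
          x.H P.Tm π hx.stage hx.alg hx.rels (hP.cst2.anti mF) hquo
        j1 := hJ1 x.G G' x.d d' 2000 P.C P.Δ P.R P.n P.q (10 ^ 6 * P.L) P.L P.Ax P.L1 (x.F P)
          x.H P.Tm π hx.stage hx.alg (ex_hAC hP) hx.rels (hP.cst2.anti mJ1) hquo
        j2 := hJ2 x.G G' x.d d' 2000 P.C P.Δ P.R P.n P.q (10 ^ 6 * P.L) P.L P.Ax P.L1 (x.F P)
          x.H P.Tm π hx.stage hx.alg hx.rels (hP.cst2.anti mJ2) hquo
        fam := hrelsT.toFam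
        wct := hcenT
        al := hal }

/-- the first stage -/
theorem ex_zero (hX : StX) (hPP : StP) (hCC : StC) (hP : P.Ok M1 T0)
    (hHub : ∀ (G : Type) [Group G] (d : G → G → ℕ), HypG d 2000 →
      Nonempty (Hubs d (Lx d (100 * P.C)) P.C)) {ι : Type}
    {d : FreeGroup ι → FreeGroup ι → ℕ}
    (hd : ∀ n q A L : ℕ, 1 ≤ n → 1 ≤ q → 1 ≤ L → 10 * L ≤ A → Stage d 2000 n q A L) :
    ∃ H : Hubs d (Lx d (100 * P.C)) P.C,
      Gd P (⟨FreeGroup ι, inferInstance, d, H, ∅, MonoidHom.id _⟩ : Bst (FreeGroup ι) P.C) := by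
  have hcst := hP.cst2
  have hC := hP.hC
  have hδC : 100 * 2000 ≤ P.C := hC
  have hL := hcst.hL
  have hn := hcst.hn
  have hst : Stage d 2000 P.n P.q (10 ^ 6 * P.L) P.L :=
    hd _ _ _ _ (by omega) hP.hq (by omega) (by omega)
  obtain ⟨H⟩ := hHub _ d hst.toHypG
  have halg : Alg H P.n P.q P.L P.Ax :=
    hX _ d 2000 P.C P.n P.q (10 ^ 6 * P.L) P.L P.Ax H hst hcst.odd hδC hcst.hL hP.hq hP.hAx
  obtain ⟨hr, hfp⟩ :=
    hPP _ d 2000 P.C P.n P.q (10 ^ 6 * P.L) P.L P.Ax P.L1 P.Δ P.Tm H hst hcst.odd hδC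
      (by omega) hcst.hL hP.hq halg hcst.hL1 hcst.hAx hcst.hΔ hP.hqT hP.hqn
  have hr' : Rels H (Fp d P.n P.L1 ∪ ∅) P.n P.L1 P.Δ P.Tm := by rwa [Set.union_empty]
  refine ⟨H, ?_⟩
  exact
    { surj := fun x => ⟨x, rfl⟩
      stage := hst
      alg := halg
      rels := hr'
      fpr := hfp
      wc := fun f hf => absurd hf (Set.notMem_empty f)
      green := ex_green hCC hP H _ hst hr' }

end

theorem stEX : StZero2 → StX → StP → StQuo → StStep → StF → StH → StC → StJ1 → StJ2 → StK →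
    StAl → StEX := by
  intro hZero hX hPP hQ hStep hF hH hCC hJ1 hJ2 hK hAl
  obtain ⟨Ms, hStep⟩ := hStep
  obtain ⟨Mf, hF⟩ := hF
  obtain ⟨Mj1, hJ1⟩ := hJ1
  obtain ⟨Mj2, hJ2⟩ := hJ2
  obtain ⟨Mk, -, hK⟩ := hK
  obtain ⟨Ma, -, hAl⟩ := hAl
  refine ⟨max Ms (max Mf (max Mj1 (max Mj2 (max Mk Ma)))), ?_⟩
  set M1 := max Ms (max Mf (max Mj1 (max Mj2 (max Mk Ma)))) with hM1
  have mS : Ms ≤ M1 := by omega
  have mF : Mf ≤ M1 := by omega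
  have mJ1 : Mj1 ≤ M1 := by omega
  have mJ2 : Mj2 ≤ M1 := by omega
  have mK : Mk ≤ M1 := by omega
  have mA : Ma ≤ M1 := by omega
  clear_value M1
  intro C hC _ hHub
  obtain ⟨T0, hStep⟩ := hStep C (1000 * C) hC le_rfl
  refine ⟨T0, ?_⟩
  intro P hPC hPL hP ι
  subst hPC
  rw [← hPL] at hStep
  obtain ⟨d0, hd0, hd0g, hfree⟩ := hZero ι
  have hcst := hP.cst2
  have hn1 : 1 ≤ P.n := le_trans (by norm_num) hcst.hn
  obtain ⟨H0, hg0⟩ := ex_zero hX hPP hCC hP hHub hd0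
  let x0 : {x : Bst (FreeGroup ι) P.C // Gd P x} := ⟨_, hg0⟩
  have hnext : ∀ (x : {x : Bst (FreeGroup ι) P.C // Gd P x}) (Q : x.1.G → x.1.G → ℤ → Prop),
      ∃ (y : {x : Bst (FreeGroup ι) P.C // Gd P x}) (π : x.1.G →* y.1.G),
        Nx P x.1 y.1 Q π := by
    intro x Q
    obtain ⟨y, π, hy, hn⟩ := ex_step hX hPP hQ hCC hH hP mS hStep mF hF mJ1 hJ1 mJ2 hJ2 mK hK
      mA hAl hHub x.1 x.2 Q
    exact ⟨⟨y, hy⟩, π, hn⟩
  choose nx pi hnx using hnext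
  let f : Pol (FreeGroup ι) P.C → ℕ → {x : Bst (FreeGroup ι) P.C // Gd P x} :=
    fun Q i => Nat.rec x0 (fun j s => nx s (Q j s.1)) i
  have hf : ∀ Q i, f Q (i + 1) = nx (f Q i) (Q i (f Q i).1) := fun Q i => rfl
  refine ⟨fun Q i => (f Q i).1, ?_, ?_⟩
  · intro Q
    refine ⟨⟨fun i => pi (f Q i) (Q i (f Q i).1), ?_⟩, ?_, ?_⟩
    · exact
        { gd := fun i => (f Q i).2
          nx := fun i => hnx (f Q i) (Q i (f Q i).1)
          zero := fun g hg => hfree P.n hn1 g hg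
          w0 := rfl }
    · exact fun a b h => h
    · exact fun j => (hd0g j).le
  · intro Q Q' s hs
    have key : ∀ i ≤ s, f Q i = f Q' i := by
      intro i
      induction i with
      | zero => intro _; rfl
      | succ i ih =>
        intro hi
        rw [hf, hf, ih (by omega), hs i (by omega)]
    intro i hi
    exact congrArg Subtype.val (key i hi)

end Pool.Agent.Helper17.SPL
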