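import Pool.Agent.Helper17.SPL.Defs

/-!
MP_7246d9_al: splitting automorphisms of free Burnside groups.
Part E: the endgame.
-/

set_option autoImplicit false

namespace Pool.Agent.Helper17.SPL

namespace MEnd

variable {B : Type*} [Group B]

theorem map_vv (φ : MulAut B) (N2 : ℕ) (S g : B) : φ (vv N2 S g) = vv N2 (φ S) (φ g) := by
  simp only [vv, map_mul, map_pow, map_inv]

theorem map_bb (φ : MulAut B) (h : ℕ) (e : ℕ → ℤ) (S V : B) :
    φ (bb h e S V) = bb h e (φ S) (φ V) := by
  simp only [bb, map_list_prod, List.map_map]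
  congr 1
  apply List.map_congr_left
  intro k _
  simp only [Function.comp_apply, map_mul, map_zpow]

theorem commute_map_iff (φ : MulAut B) (g S : B) : Commute (φ g) (φ S) ↔ Commute g S := by
  constructor
  · intro h
    have h1 : φ (g * S) = φ (S * g) := by rw [map_mul, map_mul]; exact h
    exact φ.injective h1
  · intro h
    exact h.map φ

/-- the stabiliser of a subgroup -/
def Fx (N : Subgroup B) (φ : MulAut B) (m : ℕ) : Prop := N.map (φ ^ m).toMonoidHom = N

theorem mem_map_iff (N : Subgroup B) (φ : MulAut B) (b : B) :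
    φ b ∈ N.map φ.toMonoidHom ↔ b ∈ N := by
  constructor
  · rintro ⟨c, hc, hcb⟩
    have : c = b := φ.injective hcb
    rwa [← this]
  · intro h
    exact ⟨b, h, rfl⟩

theorem map_add (N : Subgroup B) (φ : MulAut B) (a b : ℕ) :
    N.map (φ ^ (a + b)).toMonoidHom = (N.map (φ ^ b).toMonoidHom).map (φ ^ a).toMonoidHom := by
  rw [Subgroup.map_map]
  congr 1
  ext x
  simp [pow_add]

theorem Fx_add {N : Subgroup B} {φ : MulAut B} {a b : ℕ} (hb : Fx N φ b) :
    Fx N φ (a + b) ↔ Fx N φ a := by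
  rw [Fx, map_add, show N.map (φ ^ b).toMonoidHom = N from hb, Fx]

theorem Fx_zero (N : Subgroup B) (φ : MulAut B) : Fx N φ 0 := by
  rw [Fx, pow_zero]
  ext x
  constructor
  · rintro ⟨c, hc, rfl⟩; exact hc
  · intro h; exact ⟨x, h, rfl⟩

theorem Fx_mul {N : Subgroup B} {φ : MulAut B} {k : ℕ} (hk : Fx N φ k) (q : ℕ) :
    Fx N φ (k * q) := by
  induction q with
  | zero => exact Fx_zero N φ
  | succ q ih => rw [Nat.mul_succ, Fx_add hk]; exact ih

/-- a first nonincreasing step of a cyclic sequence -/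
theorem exists_step (f : ℕ → ℕ) (n : ℕ) (hn : 1 ≤ n) (h : f n = f 0) :
    ∃ i < n, f (i + 1) ≤ f i := by
  by_contra hcon
  push Not at hcon
  have h1 : ∀ m ≤ n, f 0 + m ≤ f m := by
    intro m
    induction m with
    | zero => intro _; exact le_rfl
    | succ m ih =>
      intro hm
      have h2 := ih (by omega)
      have h3 := hcon m (by omega)
      omega
  have := h1 n le_rfl
  omega

/-- the main step -/
theorem step (hE1 : StE1) (hE2 : StE2) (hE3 : StE3) (B : Type) [Group B] (n N2 : ℕ) (x1 : B)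
    (hn : 3 ≤ n) (R : Rig B n N2 x1) (φ : MulAut B) (hφ : ∀ b, (φ ^ n) b = b)
    (hp : ∀ b, ((List.range n).map (fun i => (φ ^ (i + 1)) b)).prod = 1) (g : B)
    (hg : ¬ Commute g x1) :
    ∃ x, x * φ x1 * x⁻¹ = x1 ∧ x * φ (vv N2 x1 g) * x⁻¹ = vv N2 x1 g := by
  obtain ⟨s, h, e, hmain⟩ := R.main
  obtain ⟨i, hi, hstep⟩ := exists_step (fun i => s ((φ ^ i) x1) ((φ ^ i) g)) n (by omega) (by
    simp only [hφ, pow_zero, MulAut.one_apply])
  set S0 := (φ ^ i) x1 with hS0
  set g0 := (φ ^ i) g with hg0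
  have hsucc : ∀ b, (φ ^ (i + 1)) b = φ ((φ ^ i) b) := by
    intro b
    rw [pow_succ', MulAut.mul_apply]
  have hord : ∀ j : ℕ, S0 ^ j = 1 → n ∣ j := by
    intro j hj
    apply R.ord
    rw [hS0, ← map_pow] at hj
    exact (map_eq_one_iff (φ ^ i) (φ ^ i).injective).1 hj
  have hnc : ¬ Commute g0 S0 := by
    rw [hS0, hg0, commute_map_iff]
    exact hg
  obtain ⟨N, hN, hN2⟩ := hmain S0 g0 hord hnc
  have hnrm := hN.nrm
  have hFn : Fx N φ n := by
    have : φ ^ n = 1 := by
      ext b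
      rw [hφ, MulAut.one_apply]
    rw [Fx, this]
    have h0 := Fx_zero N φ
    rw [Fx, pow_zero] at h0
    exact h0
  have hex : ∃ k, 1 ≤ k ∧ Fx N φ k := ⟨n, by omega, hFn⟩
  classical
  set k := Nat.find hex with hk
  have hk1 : 1 ≤ k := (Nat.find_spec hex).1
  have hkF : Fx N φ k := (Nat.find_spec hex).2
  have hkmin : ∀ j, 1 ≤ j → j < k → ¬ Fx N φ j := by
    intro j hj hjk hF
    exact Nat.find_min hex hjk ⟨hj, hF⟩
  have hkn : k ∣ n := by
    rw [Nat.dvd_iff_mod_eq_zero]
    by_contra hne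
    refine hkmin (n % k) (by omega) (Nat.mod_lt _ (by omega)) ?_
    have h1 : n % k + k * (n / k) = n := Nat.mod_add_div n k
    rw [← Fx_add (Fx_mul hkF (n / k)), h1]
    exact hFn
  obtain ⟨r, hr⟩ := hkn
  -- the conjugacy modulo `N`
  have hmem : ∀ b, (φ ^ k) b ∈ N ↔ b ∈ N := by
    intro b
    have h1 := mem_map_iff N (φ ^ k) b
    rw [show N.map (φ ^ k).toMonoidHom = N from hkF] at h1
    exact h1
  have hcj : CjN N ((φ ^ k) S0) (vv N2 ((φ ^ k) S0) ((φ ^ k) g0)) S0 (vv N2 S0 g0) := by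
    apply hN.only
    · have h1 : (φ ^ k) g0 * (φ ^ k) S0 * ((φ ^ k) g0)⁻¹ * ((φ ^ k) S0)⁻¹ =
          (φ ^ k) (g0 * S0 * g0⁻¹ * S0⁻¹) := by
        simp only [map_mul, map_inv]
      rw [h1, hmem]
      exact hN.nc
    · rw [← map_vv, ← map_bb, hmem]
      exact hN.kill
  have hk1' : k = 1 := by
    by_contra hne
    obtain ⟨x, hx, -⟩ := hcj
    have hr1 : 1 ≤ r := by
      rcases Nat.eq_zero_or_pos r with h0 | h0
      · rw [h0, mul_zero] at hr; omega
      · exact h0
    have e1 := hE1 B N hN.nrm hN.max ⟨g0, S0, hN.nc⟩ φ k hk1 hkmin hkF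
    have hprod : ∀ b : B, ((List.range (k * r)).map (fun i => (φ ^ i) b)).prod ∈ N := by
      intro b
      rw [← hr]
      have h1 : φ ((List.range n).map (fun i => (φ ^ i) b)).prod = 1 := by
        rw [map_list_prod, List.map_map, ← hp b]
        congr 1
        apply List.map_congr_left
        intro j _
        simp only [Function.comp_apply]
        rw [pow_succ', MulAut.mul_apply]
      rw [(map_eq_one_iff φ φ.injective).1 h1]
      exact N.one_mem
    have e2 := hE2 B N hN.nrm φ k r hk1 hkF e1 hprod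
    have e3 := hE3 B N hN.nrm (φ ^ k) r hkF (by
      intro q
      have := e2 q
      simp only [pow_mul] at this
      exact this) S0 x hx
    have h4 := Nat.le_of_dvd (by omega) (hN.ord r e3)
    have h5 : 2 * r ≤ k * r := Nat.mul_le_mul_right r (by omega)
    omega
  rw [hk1', pow_one] at hcj
  have hstep' : s (φ S0) (φ g0) ≤ s S0 g0 := by
    have := hstep
    simp only [hsucc] at this
    exact this
  obtain ⟨x, hx1, hx2⟩ := hN2 (φ S0) (φ g0) (by rw [commute_map_iff]; exact hnc) hstep' hcj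
  refine ⟨(φ ^ i)⁻¹ x, ?_, ?_⟩
  · apply (φ ^ i).injective
    rw [map_mul, map_mul, map_inv, MulAut.apply_inv_self]
    have h6 : (φ ^ i) (φ x1) = φ S0 := by
      rw [hS0, ← MulAut.mul_apply, ← MulAut.mul_apply, ← pow_succ, ← pow_succ']
    rw [h6]
    exact hx1
  · apply (φ ^ i).injective
    rw [map_mul, map_mul, map_inv, MulAut.apply_inv_self]
    have h6 : ∀ b, (φ ^ i) (φ b) = φ ((φ ^ i) b) := by
      intro b
      rw [← MulAut.mul_apply, ← MulAut.mul_apply, ← pow_succ, ← pow_succ']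
    rw [h6, map_vv (φ ^ i), map_vv φ]
    exact hx2

end MEnd

open MEnd in
theorem stEnd (hE1 : StE1) (hE2 : StE2) (hE3 : StE3) (hE4 : StE4) : StEnd := by
  intro B _ n N2 x1 hodd hn hcop R φ hφ hp
  have hx1 : x1 ≠ 1 := by
    intro h
    have := Nat.le_of_dvd (by norm_num) (R.ord 1 (by rw [pow_one]; exact h))
    omega
  refine hE4 B n N2 x1 hodd hcop R.exp R.inf R.cen hx1 φ ?_
  intro g
  by_cases hg : Commute g x1
  · obtain ⟨g', hg'⟩ : ∃ g', ¬ Commute g' x1 := by
      by_contra hcon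
      push Not at hcon
      have h1 := R.cen x1 hx1
      have h2 : {y : B | Commute y x1} = Set.univ := Set.eq_univ_of_forall hcon
      rw [h2] at h1
      have := R.inf
      exact Set.infinite_univ h1
    obtain ⟨x, hx, -⟩ := step hE1 hE2 hE3 B n N2 x1 hn R φ hφ hp g' hg'
    refine ⟨x, hx, ?_⟩
    have h1 : vv N2 x1 g = x1 * x1 ^ N2 := by
      rw [vv, (hg.pow_right N2).eq, mul_inv_cancel_right]
    rw [h1, map_mul, map_pow]
    conv_rhs => rw [← hx]
    rw [conj_pow]
    group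
  · exact step hE1 hE2 hE3 B n N2 x1 hn R φ hφ hp g hg

end Pool.Agent.Helper17.SPL
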