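import Pool.Agent.Helper17.SPL.TDefs

/-!
MP_7246d9_al, Part T13: the generator has order `n` at the stage `1`, and the second generator
is not one of its powers.  See /team-store/MP_7246d9-SPL-plan.md.
-/

set_option autoImplicit false

namespace Pool.Agent.Helper17.SPL

open Pool.Agent.Helper74.TB Pool.Agent.Helper74.MH

open Classical in
/-- the exponent sum of the generator `i` modulo `n` -/
noncomputable def gdeg {ι : Type} (i : ι) (n : ℕ) : FreeGroup ι →* Multiplicative (ZMod n) :=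
  FreeGroup.lift (fun j => if j = i then Multiplicative.ofAdd (1 : ZMod n) else 1)

theorem gdeg_self {ι : Type} (i : ι) (n : ℕ) :
    gdeg i n (FreeGroup.of i) = Multiplicative.ofAdd (1 : ZMod n) := by
  unfold gdeg
  rw [FreeGroup.lift_apply_of, if_pos rfl]

theorem gdeg_ne {ι : Type} {i j : ι} (h : j ≠ i) (n : ℕ) : gdeg i n (FreeGroup.of j) = 1 := by
  unfold gdeg
  rw [FreeGroup.lift_apply_of, if_neg h]

theorem gdeg_zpow {ι : Type} (i : ι) (n : ℕ) (m : ℤ) :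
    gdeg i n (FreeGroup.of i ^ m) = Multiplicative.ofAdd (m : ZMod n) := by
  rw [map_zpow, gdeg_self]
  apply Multiplicative.toAdd.injective
  rw [toAdd_zpow, toAdd_ofAdd, toAdd_ofAdd]
  simp

theorem gdeg_Vn {ι : Type} (i : ι) (n : ℕ) : ∀ b ∈ Vn ι n, gdeg i n b = 1 := by
  have h : Vn ι n ≤ (gdeg i n).ker := by
    apply Subgroup.normalClosure_le_normal
    rintro x ⟨y, rfl⟩
    rw [SetLike.mem_coe, MonoidHom.mem_ker, map_pow]
    apply Multiplicative.toAdd.injective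
    rw [toAdd_pow, toAdd_one]
    simp
  exact fun b hb => h hb

/-- powers of a generator -/
theorem of_zpow_inj {ι : Type} (i : ι) {a b : ℤ}
    (h : (FreeGroup.of i : FreeGroup ι) ^ a = FreeGroup.of i ^ b) : a = b := by
  have h1 := congrArg (gdeg i 0) h
  rw [gdeg_zpow, gdeg_zpow] at h1
  have h2 := Multiplicative.ofAdd.injective h1
  simpa using h2

/-- roots of a generator -/
theorem of_root {ι : Type} (i : ι) {b : FreeGroup ι} {m : ℤ} (h : FreeGroup.of i = b ^ m) :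
    m = 1 ∨ m = -1 := by
  have h1 := congrArg (gdeg i 0) h
  rw [gdeg_self, map_zpow] at h1
  have h2 := congrArg Multiplicative.toAdd h1
  rw [toAdd_ofAdd, toAdd_zpow] at h2
  rw [zsmul_eq_mul] at h2
  have h3 : (1 : ℤ) = m * (Multiplicative.toAdd (gdeg i 0 b) : ℤ) := h2
  exact Int.isUnit_iff.1 (IsUnit.of_mul_eq_one _ h3.symm)

/-- the power relator of a generator at the first stage -/
theorem gen_rel {ι : Type} {P : Par2} {M1 T0 : ℕ} {T : ℕ → Bst (FreeGroup ι) P.C}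
    {Q : ∀ i, (T i).G → (T i).G → ℤ → Prop} {π : ∀ i, (T i).G →* (T (i + 1)).G} (i1 : ι)
    (hP : P.Ok M1 T0) (hT : TGood P T Q π) (hi : Function.Injective (T 0).p)
    (hd : ∀ j : ι, (T 0).d 1 ((T 0).p (FreeGroup.of j)) ≤ 1) :
    ∃ ε : ℤ, (ε = 1 ∨ ε = -1) ∧
      ((T 0).p (FreeGroup.of i1) ^ ε) ^ P.n ∈ Fp (T 0).d P.n P.L1 ∧
      ∀ y, Commute y ((T 0).p (FreeGroup.of i1)) ↔
        y ∈ Subgroup.zpowers ((T 0).p (FreeGroup.of i1) ^ ε) := by
  have hcst := hP.cst2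
  have hg1 : (T 0).p (FreeGroup.of i1) ^ P.n ≠ 1 := by
    intro h
    have h1 := hT.zero _ h
    have h2 : FreeGroup.of i1 = 1 := hi (h1.trans (map_one _).symm)
    exact FreeGroup.of_ne_one i1 h2
  obtain ⟨r, hr⟩ := (hT.gd 0).alg.cent _ hg1
  obtain ⟨m, hm⟩ := Subgroup.mem_zpowers_iff.1 ((hr _).1 (Commute.refl _))
  obtain ⟨b, rfl⟩ := (hT.gd 0).surj r
  have hb : FreeGroup.of i1 = b ^ m := by
    apply hi
    rw [map_zpow, hm]
  have hL1 : 1 ≤ P.L1 := by
    have h1 := hcst.hL1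
    have h2 := hcst.hL
    have h3 := hP.hC
    omega
  have hshort : ∃ x, (T 0).d x ((T 0).p (FreeGroup.of i1) * x) ≤ P.L1 := by
    refine ⟨1, ?_⟩
    rw [mul_one]
    exact (hd i1).trans hL1
  have hmem : (T 0).p b ^ P.n ∈ Fp (T 0).d P.n P.L1 := ⟨_, _, hg1, hshort, hr, rfl⟩
  rcases of_root i1 hb with rfl | rfl
  · refine ⟨1, Or.inl rfl, ?_, ?_⟩
    · rw [hb, zpow_one, zpow_one]
      exact hmem
    · intro y
      rw [hr, hb, zpow_one, zpow_one]
  · refine ⟨-1, Or.inr rfl, ?_, ?_⟩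
    · rw [hb, map_zpow, ← zpow_mul]
      norm_num
      exact hmem
    · intro y
      rw [hr, hb, map_zpow, ← zpow_mul]
      norm_num

theorem stGen : StKer → StGen := by
  intro hKer ι P M1 T0 T Q π i1 i2 hne hP hT hi hd
  have hcst := hP.cst2
  have hn3 : 3 ≤ P.n := hcst.hn
  obtain ⟨ε, hε, hmem, hcent⟩ := gen_rel i1 hP hT hi hd
  have hmemF : ((T 0).p (FreeGroup.of i1) ^ ε) ^ P.n ∈ (T 0).F P := Or.inl hmem
  have hcomp : ∀ b, π 0 ((T 0).p b) = (T 1).p b := (hT.nx 0).comp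
  have hker : π 0 (((T 0).p (FreeGroup.of i1) ^ ε) ^ P.n) = 1 :=
    ((hT.nx 0).quo.ker _).2 (Subgroup.subset_closure hmemF)
  have hpn : (T 1).p (FreeGroup.of i1) ^ P.n = 1 := by
    rw [map_pow, map_zpow, hcomp] at hker
    rcases hε with rfl | rfl
    · rwa [zpow_one] at hker
    · rwa [zpow_neg, zpow_one, inv_pow, inv_eq_one] at hker
  refine ⟨fun j => ⟨fun hj => ?_, fun hj => ?_⟩, ?_⟩
  · have h1 : π 0 ((T 0).p (FreeGroup.of i1) ^ j) = 1 := by
      rw [map_pow, hcomp, hj]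
    have h2 : Commute ((T 0).p (FreeGroup.of i1) ^ j)
        (((T 0).p (FreeGroup.of i1) ^ ε) ^ P.n) :=
      (((Commute.refl _).zpow_right ε).pow_right P.n).pow_left j
    obtain ⟨k, hk⟩ := Subgroup.mem_zpowers_iff.1 ((hT.nx 0).tors.t2 _ hmemF _ h2 h1)
    have h3 : (FreeGroup.of i1 : FreeGroup ι) ^ (ε * P.n * k) = FreeGroup.of i1 ^ (j : ℤ) := by
      apply hi
      rw [map_zpow, map_zpow, zpow_natCast, ← hk, zpow_mul, zpow_mul, zpow_natCast]
    have h4 := of_zpow_inj i1 h3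
    have h5 : (P.n : ℤ) ∣ (j : ℤ) := by
      rw [← h4]
      exact ⟨ε * k, by ring⟩
    exact_mod_cast h5
  · obtain ⟨k, rfl⟩ := hj
    rw [pow_mul, hpn, one_pow]
  · intro hmem2
    obtain ⟨m, hm⟩ := Subgroup.mem_zpowers_iff.1 hmem2
    have h1 : (T (0 + 1)).p (FreeGroup.of i2 * (FreeGroup.of i1 ^ m)⁻¹) = 1 := by
      rw [map_mul, map_inv, map_zpow]
      exact mul_inv_eq_one.2 hm.symm
    have h2 := hKer ι P M1 T0 T Q π 0 hP hT hi (fun i h => absurd h (Nat.not_lt_zero i)) _ h1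
    have h3 := gdeg_Vn i2 P.n _ h2
    rw [map_mul, map_inv, map_zpow, gdeg_self, gdeg_ne hne, one_zpow, inv_one, mul_one] at h3
    have h4 : (1 : ZMod P.n) = 0 := Multiplicative.ofAdd.injective h3
    have h5 := (ZMod.natCast_eq_zero_iff 1 P.n).1 (by exact_mod_cast h4)
    have h6 := Nat.le_of_dvd one_pos h5
    omega

end Pool.Agent.Helper17.SPL
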