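import Pool.Agent.Helper17.SPL.TDefs

/-! MP_7246d9_al: the limit is infinite when all stages are unbounded (Part T11). -/

set_option autoImplicit false

namespace Pool.Agent.Helper17.SPL

open Pool.Agent.Helper74.TB Pool.Agent.Helper74.MH

theorem stInf : StSI → StTC → StInf := by
  intro hSI hTC B _ P M1 T0 T Q π D _ ω hP hT hL hub
  by_contra hfin
  rw [not_infinite_iff_finite] at hfin
  classical
  have := Fintype.ofFinite D
  obtain ⟨-, htor, -, -⟩ := hTC B P M1 T0 T Q π D ω hP hT hL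
  -- lifts of the elements of the limit
  choose b hb using fun x : D => hL.surj x
  choose i hi using fun x : D => htor (b x)
  set j : ℕ := Finset.univ.sup i with hj
  have hj' : ∀ x : D, (T j).d 1 ((T j).p (b x)) ≤ 1 := by
    intro x
    exact (hi x j (Finset.le_sup (Finset.mem_univ x))).2
  -- an element of length `5`
  have hgd := hT.gd j
  have hst := hgd.stage
  obtain ⟨g, hg⟩ := hub j
  have h1 : ∀ (x : (T j).G) (m : ℕ), m ≤ P.q * (T j).d x (g ^ m * x) := by
    rcases hst.tor g with h | h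
    · exact absurd h hg
    · exact h
  have h2 := h1 1 (5 * P.q)
  have hq := hP.hq
  have h3 : 5 ≤ (T j).d 1 (g ^ (5 * P.q) * 1) := by
    by_contra hc
    have h4 : (T j).d 1 (g ^ (5 * P.q) * 1) ≤ 4 := by omega
    have h5 : P.q * (T j).d 1 (g ^ (5 * P.q) * 1) ≤ P.q * 4 := Nat.mul_le_mul_left _ h4
    omega
  obtain ⟨y, -, hy⟩ := hst.path.geod 1 _ 5 h3
  obtain ⟨c, hc⟩ := hgd.surj y
  -- the value
  have h6 : (T j).d 1 ((T j).p ((b (ω c))⁻¹ * c) * 1) ≤ 6 := by
    rw [mul_one, map_mul, map_inv, hc]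
    have e1 : (T j).d 1 (((T j).p (b (ω c)))⁻¹ * y) = (T j).d ((T j).p (b (ω c))) y := by
      rw [← hst.inv ((T j).p (b (ω c))), mul_one, mul_inv_cancel_left]
    rw [e1]
    have e2 := hst.path.tri ((T j).p (b (ω c))) 1 y
    have e3 := hst.path.symm ((T j).p (b (ω c))) 1
    have e4 := hj' (ω c)
    omega
  have hTm : (12 : ℝ) ≤ P.Tm := by
    have c1 := hP.cst2.cst.hT
    have c2 := hP.cst2.cst.hR
    have c3 := hP.cst2.cst.hΔ
    have c4 := hP.cst2.cst.hC
    have c5 : 12 ≤ P.R := by omega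
    have c6 : (12 : ℝ) ≤ (P.R : ℝ) := by exact_mod_cast c5
    linarith
  have h7 : ω ((b (ω c))⁻¹ * c) = 1 := by
    rw [map_mul, map_inv, hb, inv_mul_cancel]
  have h8 := hSI B P M1 T0 T Q π D ω hP hT hL j ((b (ω c))⁻¹ * c) 1 (by
    have : (((T j).d 1 ((T j).p ((b (ω c))⁻¹ * c) * 1) : ℕ) : ℝ) ≤ 6 := by exact_mod_cast h6
    linarith) h7
  rw [map_mul, map_inv, inv_mul_eq_one] at h8
  have h9 := hj' (ω c)
  rw [h8, hc, hy] at h9
  omega

end Pool.Agent.Helper17.SPL
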