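import Pool.Agent.Helper17.SPL.TDefs2

/-!
MP_7246d9_al, Part T12: stages without word relators are quotients by `n`-th powers.
-/

set_option autoImplicit false

namespace Pool.Agent.Helper17.SPL

open Pool.Agent.Helper74.TB Pool.Agent.Helper74.MH

theorem stKer : StKer := by
  intro ι P M1 T0 T Q π s hOk hT hinj hQ
  have hW : ∀ i, i ≤ s → (T i).W = ∅ := by
    intro i hi
    cases i with
    | zero => exact hT.w0
    | succ i =>
      rw [(hT.nx i).wd, Set.eq_empty_iff_forall_notMem]
      rintro w ⟨S, r, a, t, -, h2, -⟩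
      exact hQ i hi S r a h2
  have key : ∀ i, i ≤ s + 1 → ∀ b, (T i).p b = 1 → b ∈ Vn ι P.n := by
    intro i
    induction i with
    | zero =>
      intro _ b hb
      have hb1 : b = 1 := hinj (by rw [hb, map_one])
      rw [hb1]
      exact one_mem _
    | succ i ih =>
      intro hi b hb
      have his : i ≤ s := Nat.succ_le_succ_iff.1 hi
      rw [← (hT.nx i).comp, (hT.nx i).quo.ker] at hb
      have hle : Subgroup.closure ((T i).F P) ≤ (Vn ι P.n).map (T i).p := by
        rw [Subgroup.closure_le]
        intro f hf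
        rcases hf with hf | hf
        · obtain ⟨r, hr, -⟩ := (hT.gd i).fpr f hf
          obtain ⟨c, rfl⟩ := (hT.gd i).surj r
          refine ⟨c ^ P.n, Subgroup.subset_normalClosure ⟨c, rfl⟩, ?_⟩
          rw [hr, map_pow]
        · rw [hW i his] at hf
          exact absurd hf (Set.notMem_empty f)
      obtain ⟨c, hc, hcb⟩ := hle hb
      have h1 : (T i).p (b * c⁻¹) = 1 := by
        rw [map_mul, map_inv, hcb, mul_inv_cancel]
      have h2 := ih (his.trans (Nat.le_succ s)) _ h1
      have h3 := mul_mem h2 hc
      rwa [inv_mul_cancel_right] at h3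
  exact key (s + 1) le_rfl

end Pool.Agent.Helper17.SPL
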