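import Pool.Agent.Helper17.SPL.TDefs2
import Pool.Agent.Helper74.TB.LimA

/-!
MP_7246d9_al, Part T3: the life of a pair.
-/

set_option autoImplicit false

namespace Pool.Agent.Helper17.SPL

open Pool.Agent.Helper74.TB Pool.Agent.Helper74.MH

namespace LP

/-! ## small lemmas -/

theorem disp_pow {G : Type*} [Group G] {d : G → G → ℕ} {δ : ℕ} (hG : HypG d δ) (U x : G)
    (m : ℕ) : d x (U ^ m * x) ≤ m * d x (U * x) := by
  induction m with
  | zero => rw [pow_zero, one_mul, hb_self hG, zero_mul]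
  | succ m ih =>
    have h1 := hG.path.tri x (U ^ m * x) (U ^ (m + 1) * x)
    have h2 : d (U ^ m * x) (U ^ (m + 1) * x) = d x (U * x) := by
      rw [pow_succ, mul_assoc, hG.inv]
    rw [h2] at h1
    rw [Nat.succ_mul]
    omega

theorem exists_rep (b : ℤ) {n : ℕ} (hn : 1 ≤ n) : ∃ k : ℤ, (n : ℤ) ∣ b - k ∧ 2 * |k| ≤ n := by
  have h0 : (0 : ℤ) < n := by exact_mod_cast hn
  have h1 := Int.emod_nonneg b h0.ne'
  have h2 := Int.emod_lt_of_pos b h0
  have h3 : (n : ℤ) ∣ b - b % n := Int.dvd_self_sub_emod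
  by_cases h : 2 * (b % n) ≤ n
  · exact ⟨b % n, h3, by rw [abs_of_nonneg h1]; exact h⟩
  · refine ⟨b % n - n, ?_, ?_⟩
    · have h4 : b - (b % n - n) = (b - b % n) + n := by ring
      rw [h4]
      exact dvd_add h3 dvd_rfl
    · rw [abs_of_nonpos (by omega)]
      omega

theorem not_dvd_mul {n N : ℕ} {b : ℤ} (hc : Nat.Coprime N n) (hb : ¬ (n : ℤ) ∣ b) :
    ¬ (n : ℤ) ∣ b * N := by
  intro h
  apply hb
  have h1 : IsCoprime (n : ℤ) (N : ℤ) := (Nat.isCoprime_iff_coprime.2 hc).symm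
  exact h1.dvd_of_dvd_mul_right h

theorem pow_ne {G : Type*} [Group G] {S : G} {n N : ℕ} (hc : Nat.Coprime N n) (h1 : S ^ n = 1)
    (h2 : S ≠ 1) : S ^ N ≠ 1 := by
  intro h
  have h3 := orderOf_dvd_of_pow_eq_one h1
  have h4 := orderOf_dvd_of_pow_eq_one h
  have h5 := Nat.dvd_gcd h4 h3
  rw [hc.gcd_eq_one, Nat.dvd_one, orderOf_eq_one_iff] at h5
  exact h2 h5

section

variable {B : Type} [Group B] {P : Par2} {M1 T0 : ℕ} {x : Bst B P.C}

theorem F_sub (hx : Gd P x) {f : x.G} (hf : f ∈ x.F P) : f ∈ Lx x.d (100 * P.C) :=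
  hx.rels.sub hf

theorem ok_Tm (hP : P.Ok M1 T0) : 10 ^ 4 * (P.Δ : ℝ) ≤ P.Tm ∧ (0 : ℝ) < P.Δ ∧
    (P.L1 : ℝ) ≤ P.Δ ∧ 1000 * P.C ≤ P.Δ ∧ 1 ≤ P.C := by
  have h1 := hP.cst2.cst.hΔ
  have h2 := hP.cst2.cst.hR
  have h3 := hP.cst2.cst.hT
  have h4 := hP.cst2.cst.hC
  have h5 := hP.cst2.hΔ
  have h6 : (1000 : ℝ) * P.Δ ≤ P.R := by exact_mod_cast h2
  refine ⟨by linarith, ?_, ?_, h1, by omega⟩
  · have : 0 < P.Δ := by omega
    exact_mod_cast this
  · have : P.L1 ≤ P.Δ := by omega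
    exact_mod_cast this

theorem n_le (hP : P.Ok M1 T0) (hx : Gd P x) {f r : x.G} (hf : f ∈ x.F P) (hr : f = r ^ P.n) :
    (P.n : ℝ) ≤ P.q * x.H.T f := by
  have hfX := F_sub hx hf
  have hTf := hx.rels.big f hf
  obtain ⟨c1, c2, c3, c4, c5⟩ := ok_Tm hP
  rcases hx.stage.tor r with h | h
  · exfalso
    have h1 : f = 1 := hr.trans h
    have h2 := x.H.shift f hfX 1
    have h3 : x.H.Φ f 1 (f * 1) = 0 := by
      rw [mul_one]
      nth_rewrite 2 [h1]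
      exact hl_refl x.H hfX 1
    rw [h3] at h2
    linarith
  · by_contra hcon
    push Not at hcon
    have hz := x.H.pr_mem f hfX 1
    set z := x.H.pr f 1 with hzdef
    obtain ⟨m, hm⟩ := exists_nat_gt ((P.q : ℝ) * P.C / (P.n - P.q * x.H.T f))
    rw [div_lt_iff₀ (by linarith)] at hm
    have h1 := h z (P.n * m)
    rw [pow_mul, ← hr] at h1
    have hz' : f ^ m * z ∈ x.H.Z f := by
      have := (hl_Zpow x.H hfX z (m : ℤ)).2 hz
      rwa [zpow_natCast] at this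
    have h2 := x.H.on f hfX z hz _ hz'
    have h3 := hl_zpow x.H hfX z (m : ℤ)
    rw [zpow_natCast] at h3
    have hT0 : 0 ≤ x.H.T f := hl_Tpos x.H hfX
    rw [h3, abs_of_nonneg (mul_nonneg (by exact_mod_cast Nat.zero_le m) hT0)] at h2
    have h4 : ((P.n * m : ℕ) : ℝ) ≤ P.q * (x.d z (f ^ m * z) : ℝ) := by exact_mod_cast h1
    push_cast at h4 h2
    have h5 : (P.q : ℝ) * (x.d z (f ^ m * z) : ℝ) ≤ P.q * (m * x.H.T f + P.C) :=
      mul_le_mul_of_nonneg_left h2 (Nat.cast_nonneg _)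
    nlinarith

/-- (G3) a relator commuting with a short element -/
theorem comm_short (hP : P.Ok M1 T0) (hx : Gd P x) {f U z : x.G} (hf : f ∈ x.F P)
    (hc : Commute U f) (hU : U ≠ 1) (hz : (x.d z (U * z) : ℝ) < P.Tm) :
    ∃ (r : x.G) (a : ℤ), f = r ^ P.n ∧ f ∈ Fp x.d P.n P.L1 ∧
      (∀ y, Commute y f ↔ y ∈ Subgroup.zpowers r) ∧ a ≠ 0 ∧ U = r ^ a ∧
      |a| ≤ P.q * (x.d z (U * z) : ℤ) := by
  have hfX := F_sub hx hf
  have hTf := hx.rels.big f hf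
  have hT0 : 0 ≤ x.H.T f := hl_Tpos x.H hfX
  have hfm : ∀ m : ℤ, |(m : ℝ)| * x.H.T f ≤ x.d z (f ^ m * z) := by
    intro m
    have h1 := x.H.lip f hfX z (f ^ m * z)
    rw [hl_zpow x.H hfX z m, abs_mul, abs_of_nonneg hT0] at h1
    exact h1
  rcases (show f ∈ Fp x.d P.n P.L1 ∨ f ∈ x.W from hf) with hfp | hfw
  · obtain ⟨r, hr, hcen, -⟩ := hx.fpr f hfp
    obtain ⟨a, ha⟩ := Subgroup.mem_zpowers_iff.1 ((hcen U).1 hc)
    have ha0 : a ≠ 0 := by
      rintro rfl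
      rw [zpow_zero] at ha
      exact hU ha.symm
    refine ⟨r, a, hr, hfp, hcen, ha0, ha.symm, ?_⟩
    have h1 : U ^ P.n = f ^ a := by
      rw [← ha, hr, ← zpow_natCast, ← zpow_natCast, ← zpow_mul, ← zpow_mul, mul_comm]
    have h2 := disp_pow hx.stage.toHypG U z P.n
    rw [h1] at h2
    have h3 := hfm a
    have h4 := n_le hP hx hf hr
    have h5 : (x.d z (f ^ a * z) : ℝ) ≤ P.n * (x.d z (U * z) : ℝ) := by exact_mod_cast h2
    have hn : (0 : ℝ) < P.n := by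
      have := hP.cst2.hn
      have h6 : 0 < P.n := by omega
      exact_mod_cast h6
    have h6 : |(a : ℝ)| * P.n ≤ P.q * (x.d z (U * z) : ℝ) * P.n := by
      have e1 : |(a : ℝ)| * P.n ≤ |(a : ℝ)| * (P.q * x.H.T f) :=
        mul_le_mul_of_nonneg_left h4 (abs_nonneg _)
      have e2 : |(a : ℝ)| * x.H.T f ≤ P.n * (x.d z (U * z) : ℝ) := h3.trans h5
      have e3 : (P.q : ℝ) * (|(a : ℝ)| * x.H.T f) ≤ P.q * (P.n * (x.d z (U * z) : ℝ)) :=
        mul_le_mul_of_nonneg_left e2 (Nat.cast_nonneg _)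
      nlinarith
    have h7 := le_of_mul_le_mul_right h6 hn
    have h8 : ((|a| : ℤ) : ℝ) ≤ ((P.q * (x.d z (U * z) : ℤ) : ℤ) : ℝ) := by
      push_cast
      exact h7
    exact_mod_cast h8
  · exfalso
    obtain ⟨m, hm⟩ := Subgroup.mem_zpowers_iff.1 ((hx.wc f hfw U).1 hc)
    have hm0 : m ≠ 0 := by
      rintro rfl
      rw [zpow_zero] at hm
      exact hU hm.symm
    have h1 := hfm m
    rw [hm] at h1
    have h2 : (1 : ℝ) ≤ |(m : ℝ)| := by
      have h3 : (1 : ℤ) ≤ |m| := Int.one_le_abs hm0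
      exact_mod_cast h3
    nlinarith

/-- displacement of `vv` at a centre -/
theorem disp_vv {G : Type*} [Group G] {d : G → G → ℕ} {δ C N : ℕ} (hG : HypG d δ) {S g z : G}
    (hz : ∀ j : ℤ, d z (S ^ j * z) ≤ C) : d z (vv N S g * z) ≤ 2 * d z (g * z) + 2 * C := by
  have h1 := hz 1
  have h2 := hz (N : ℤ)
  rw [zpow_one] at h1
  rw [zpow_natCast] at h2
  have e1 : vv N S g * z = S * (g * (S ^ N * (g⁻¹ * z))) := by
    unfold vv
    simp only [mul_assoc]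
  rw [e1]
  have t1 := hG.path.tri z (S * z) (S * (g * (S ^ N * (g⁻¹ * z))))
  rw [hG.inv] at t1
  have t2 := hG.path.tri z (g * z) (g * (S ^ N * (g⁻¹ * z)))
  rw [hG.inv] at t2
  have t3 := hG.path.tri z (S ^ N * z) (S ^ N * (g⁻¹ * z))
  rw [hG.inv] at t3
  have t4 : d z (g⁻¹ * z) = d z (g * z) := by
    have h := hG.inv g z (g⁻¹ * z)
    rw [mul_inv_cancel_left] at h
    rw [← h]
    exact hG.path.symm _ _
  omega

end

section

variable {B : Type} [Group B] {P : Par2} {M1 T0 : ℕ} {T : ℕ → Bst B P.C}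
  {Q : ∀ i, (T i).G → (T i).G → ℤ → Prop} {π : ∀ i, (T i).G →* (T (i + 1)).G}

/-- the conclusion: data at an earlier stage -/
def Ear (P : Par2) (T : ℕ → Bst B P.C) (j : ℕ) (S g : (T j).G) : Prop :=
  ∃ i < j, ∃ u v : B, (T j).p u = S ∧ (T j).p v = g ∧
    ∃ (r : (T i).G) (a : ℤ) (z : (T i).G), BD P (T i) ((T i).p u) ((T i).p v) r a z

theorem ear_up (hT : TGood P T Q π) {j : ℕ} {S g : (T j).G} (h : Ear P T j S g) :
    Ear P T (j + 1) (π j S) (π j g) := by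
  obtain ⟨i, hi, u, v, rfl, rfl, h⟩ := h
  exact ⟨i, by omega, u, v, ((hT.nx j).comp u).symm, ((hT.nx j).comp v).symm, h⟩

theorem ear_bd (hT : TGood P T Q π) {j : ℕ} {S g r z : (T j).G} {a : ℤ}
    (h : BD P (T j) S g r a z) : Ear P T (j + 1) (π j S) (π j g) := by
  obtain ⟨u, rfl⟩ := (hT.gd j).surj S
  obtain ⟨v, rfl⟩ := (hT.gd j).surj g
  exact ⟨j, by omega, u, v, ((hT.nx j).comp u).symm, ((hT.nx j).comp v).symm, r, a, z, h⟩

/-- a point at bounded distance of the axis of a relator commuting with a short element -/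
theorem near_axis (hP : P.Ok M1 T0) {x : Bst B P.C} (hx : Gd P x) {f U z : x.G}
    (hf : f ∈ x.F P) (hc : Commute U f) (hU : U ^ P.n ≠ 1) (hz : x.d z (U * z) ≤ 201 * P.Ax) :
    Nh x.d P.L2 (x.H.Z f) z := by
  obtain ⟨c1, c2, c3, c4, c5⟩ := ok_Tm hP
  have hG := hx.stage.toHypG
  have hq := hP.hq
  have hUX : U ^ (100 * P.C * P.q + 1) ∈ Lx x.d (100 * P.C) := by
    intro y
    rcases hx.stage.tor U with h | h
    · exact absurd h hU
    · have h1 := h y (100 * P.C * P.q + 1)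
      by_contra hcon
      push Not at hcon
      have h2 : P.q * x.d y (U ^ (100 * P.C * P.q + 1) * y) ≤ P.q * (100 * P.C) :=
        Nat.mul_le_mul_left _ hcon.le
      have h3 : P.q * (100 * P.C) = 100 * P.C * P.q := by ring
      omega
  have h1 := hl_dispZ hG x.H hUX z
  have h2 := hl_Tpos x.H hUX
  have h3 := disp_pow hG U z (100 * P.C * P.q + 1)
  have h4 : (100 * P.C * P.q + 1) * x.d z (U * z) ≤ (100 * P.C * P.q + 1) * (201 * P.Ax) :=
    Nat.mul_le_mul_left _ hz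
  have h5 : 2 * x.d z (x.H.pr (U ^ (100 * P.C * P.q + 1)) z) ≤
      x.d z (U ^ (100 * P.C * P.q + 1) * z) + P.C := by
    have : 2 * (x.d z (x.H.pr (U ^ (100 * P.C * P.q + 1)) z) : ℝ) ≤
      x.d z (U ^ (100 * P.C * P.q + 1) * z) + P.C := by linarith
    exact_mod_cast this
  have hcc : Commute (U ^ (100 * P.C * P.q + 1)) f := hc.pow_left _
  obtain ⟨w, hw, hw2⟩ := hl_comm hG x.H c5 hUX (F_sub hx hf) hcc
    (x.H.pr_mem _ hUX z)
  refine ⟨w, hw, ?_⟩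
  have h6 := hG.path.tri z (x.H.pr (U ^ (100 * P.C * P.q + 1)) z) w
  have h7 := hP.hL2
  have h8 := hP.hL1
  have h9 := hP.hAx
  have h10 := hP.hL
  have h11 : (200 * P.C * P.q + 10) * (10 ^ 4 * P.Ax) ≤ (200 * P.C * P.q + 10) * P.L1 :=
    Nat.mul_le_mul_left _ h8
  have h12 : (200 * P.C * P.q + 10) * (10 ^ 4 * P.Ax) ≥ 2 * ((100 * P.C * P.q + 1) * (201 * P.Ax)) +
      P.Ax := by nlinarith [Nat.zero_le (P.C * P.q * P.Ax)]
  have h13 : 10 * P.C ≤ P.Ax := by nlinarith [Nat.zero_le (10 ^ 5 * P.q * P.L * P.C)]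
  omega

/-- Case 1: `S` is the image of a torsion element. -/
theorem case1 (hP : P.Ok M1 T0) (hT : TGood P T Q π) {j : ℕ}
    (ih : ∀ S g : (T j).G, S ^ P.n = 1 → S ≠ 1 → ¬ Commute g S →
      vv P.N2 S g ^ P.n ≠ 1 ∨ Ear P T j S g)
    (S g : (T j).G) (hS : S ^ P.n = 1) (hS1 : π j S ≠ 1) (hc : ¬ Commute (π j g) (π j S)) :
    vv P.N2 (π j S) (π j g) ^ P.n ≠ 1 ∨ Ear P T (j + 1) (π j S) (π j g) := by
  classical
  obtain ⟨c1, c2, c3, c4, c5⟩ := ok_Tm hP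
  have hx := hT.gd j
  have hn := hT.nx j
  have hG := hx.stage.toHypG
  have hS1' : S ≠ 1 := by
    rintro rfl
    exact hS1 (map_one _)
  obtain ⟨z, hz⟩ := hx.alg.ctr S hS
  -- the minimal translate
  have hex : ∃ m : ℕ, ∃ k ∈ Subgroup.closure ((T j).F P), (T j).d z (k * (g * z)) = m :=
    ⟨_, 1, one_mem _, rfl⟩
  obtain ⟨k, hk, hkm⟩ := Nat.find_spec hex
  have hmin : ∀ k' ∈ Subgroup.closure ((T j).F P),
      (T j).d z (k * (g * z)) ≤ (T j).d z (k' * (g * z)) := by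
    intro k' hk'
    rw [hkm]
    exact Nat.find_min' hex ⟨k', hk', rfl⟩
  have hπk : π j k = 1 := (hn.quo.ker k).2 hk
  have hπg : π j (k * g) = π j g := by rw [map_mul, hπk, one_mul]
  rw [← hπg] at hc ⊢
  have hmin' : ∀ k' ∈ Subgroup.closure ((T j).F P),
      (T j).d z (k * g * z) ≤ (T j).d z (k' * (k * g * z)) := by
    intro k' hk'
    have h1 := hmin (k' * k) (mul_mem hk' hk)
    rw [← mul_assoc] at h1
    have e : k' * (k * g * z) = k' * k * (g * z) := by simp only [mul_assoc]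
    rw [e]
    exact h1
  clear hmin hkm hex
  generalize k * g = g' at hc hmin' ⊢
  clear hπg
  have hc' : ¬ Commute g' S := fun h => hc (h.map (π j))
  have hU2 : (T j).d z (vv P.N2 S g' * z) ≤ 2 * (T j).d z (g' * z) + 2 * P.C :=
    disp_vv hG hz
  have hπU : π j (vv P.N2 S g') = vv P.N2 (π j S) (π j g') := by
    unfold vv
    rw [map_mul, map_mul, map_mul, map_inv, map_pow]
  have hΔ1 : 300 * P.L1 ≤ P.Δ := hP.cst2.hΔ
  have hL1 := hP.hL1
  have hk1 := hP.hk1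
  have hAxC : 10 * P.C ≤ P.Ax := by
    have h9 := hP.hAx
    have h10 := hP.hL
    nlinarith [Nat.zero_le (10 ^ 5 * P.q * P.L * P.C)]
  have hL12 : P.L1 ≤ P.L2 := by
    have h7 := hP.hL2
    nlinarith [Nat.zero_le (200 * P.C * P.q * P.L1)]
  by_cases hD : 100 * P.Ax ≤ (T j).d z (g' * z)
  · have hQ1 : (g' * S ^ P.N2 * g'⁻¹) ^ P.n = 1 := by
      rw [conj_pow, ← pow_mul, mul_comm, pow_mul, hS, one_pow, mul_one, mul_inv_cancel]
    have hQ2 : g' * S ^ P.N2 * g'⁻¹ ≠ 1 := by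
      rw [Ne, conj_eq_one_iff]
      exact pow_ne hP.hN2 hS hS1'
    have hQ3 : ∀ l : ℤ, (T j).d (g' * z) ((g' * S ^ P.N2 * g'⁻¹) ^ l * (g' * z)) ≤ P.C := by
      intro l
      have e : (g' * S ^ P.N2 * g'⁻¹) ^ l * (g' * z) = g' * (S ^ ((P.N2 : ℤ) * l) * z) := by
        rw [conj_zpow, ← zpow_natCast, ← zpow_mul]
        group
      rw [e, hG.inv]
      exact hz _
    obtain ⟨hUn, h2⟩ := hn.j1 S (g' * S ^ P.N2 * g'⁻¹) z (g' * z) hS hS1' hQ1 hQ2 hz hQ3 hmin' hD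
      (vv P.N2 S g') (Or.inl rfl)
    rcases h2 with ⟨⟨f, hf, hcf, hnear⟩, hD2⟩ | h2
    · right
      have hd1 : (T j).d z (vv P.N2 S g' * z) ≤ 5 * P.Δ := by omega
      have hU1 : vv P.N2 S g' ≠ 1 := fun h => hUn (by rw [h, one_pow])
      have hd2 : ((T j).d z (vv P.N2 S g' * z) : ℝ) < P.Tm := by
        have : ((T j).d z (vv P.N2 S g' * z) : ℝ) ≤ 5 * P.Δ := by exact_mod_cast hd1
        linarith
      obtain ⟨r, a, hr, hfp, hcen, ha0, ha, hak⟩ := comm_short hP hx hf hcf hU1 hd2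
      refine ear_bd hT (r := r) (a := a) (z := z)
        ⟨hS, hS1', ha0, ?_, by rw [← hr]; exact hfp, by rw [← hr]; exact hcen, hz, ?_, hD2, ha⟩
      · refine hak.trans ?_
        have h3 : P.q * (T j).d z (vv P.N2 S g' * z) ≤ P.q * (5 * P.Δ) :=
          Nat.mul_le_mul_left _ hd1
        have h4 : P.q * (5 * P.Δ) ≤ P.k1 := by nlinarith [Nat.zero_le (P.q * P.L1)]
        exact_mod_cast h3.trans h4
      · rw [← hr]
        obtain ⟨w, hw, hw2⟩ := hnear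
        exact ⟨w, hw, by omega⟩
    · left
      rw [← hπU]
      exact h2
  · push Not at hD
    rcases ih S g' hS hS1' hc' with hUn | h
    · right
      have hd1 : (T j).d z (vv P.N2 S g' * z) ≤ 201 * P.Ax := by omega
      have hd3 : (T j).d z (vv P.N2 S g' * z) ≤ P.L1 := by omega
      have hU1 : vv P.N2 S g' ≠ 1 := fun h => hUn (by rw [h, one_pow])
      have hd2 : ((T j).d z (vv P.N2 S g' * z) : ℝ) < P.Tm := by
        have : ((T j).d z (vv P.N2 S g' * z) : ℝ) ≤ P.L1 := by exact_mod_cast hd3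
        linarith
      obtain ⟨f, hf, hcf⟩ := hx.rels.short _ hUn ⟨z, hd3⟩
      obtain ⟨r, a, hr, hfp, hcen, ha0, ha, hak⟩ := comm_short hP hx hf hcf hU1 hd2
      refine ear_bd hT (r := r) (a := a) (z := z)
        ⟨hS, hS1', ha0, ?_, by rw [← hr]; exact hfp, by rw [← hr]; exact hcen, hz, ?_, ?_, ha⟩
      · refine hak.trans ?_
        have h3 : P.q * (T j).d z (vv P.N2 S g' * z) ≤ P.q * P.L1 :=
          Nat.mul_le_mul_left _ hd3
        have h4 : P.q * P.L1 ≤ P.k1 := by nlinarith [Nat.zero_le (10 * P.Δ * P.q)]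
        exact_mod_cast h3.trans h4
      · rw [← hr]
        exact near_axis hP hx hf hcf hUn hd1
      · omega
    · right
      exact ear_up hT h

/-- Case 2: `S` is the image of an element commuting with a relator. -/
theorem case2 (hP : P.Ok M1 T0) (hT : TGood P T Q π) {j : ℕ} (f y g : (T j).G)
    (hf : f ∈ (T j).F P) (hyf : Commute y f) (hS1 : π j y ≠ 1)
    (hc : ¬ Commute (π j g) (π j y)) :
    vv P.N2 (π j y) (π j g) ^ P.n ≠ 1 := by
  classical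
  obtain ⟨c1, c2, c3, c4, c5⟩ := ok_Tm hP
  have hx := hT.gd j
  have hn := hT.nx j
  have hfX := F_sub hx hf
  have hπf : π j f = 1 := (hn.quo.ker f).2 (Subgroup.subset_closure hf)
  rcases (show f ∈ Fp (T j).d P.n P.L1 ∨ f ∈ (T j).W from hf) with hfp | hfw
  swap
  · exfalso
    obtain ⟨m, hm⟩ := Subgroup.mem_zpowers_iff.1 ((hx.wc f hfw y).1 hyf)
    exact hS1 (by rw [← hm, map_zpow, hπf, one_zpow])
  obtain ⟨r, hr, hcen, -⟩ := hx.fpr f hfp
  obtain ⟨b, rfl⟩ := Subgroup.mem_zpowers_iff.1 ((hcen y).1 hyf)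
  have hπr : ∀ b b' : ℤ, (P.n : ℤ) ∣ b - b' → π j (r ^ b) = π j (r ^ b') := by
    rintro b b' ⟨c, hc⟩
    have e : b = P.n * c + b' := by linarith
    rw [e, zpow_add, zpow_mul, zpow_natCast, ← hr, map_mul, map_zpow, hπf, one_zpow, one_mul]
  have hb : ¬ (P.n : ℤ) ∣ b := by
    intro h
    apply hS1
    rw [hπr b 0 (by rwa [sub_zero]), zpow_zero, map_one]
  have hn3 := hP.cst2.hn
  have hn1 : 1 ≤ P.n := by omega
  -- the minimal translate
  have hex : ∃ m : ℕ, ∃ x' ∈ (T j).H.Z f, ∃ y' ∈ (T j).H.Z (g * f * g⁻¹),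
      ∃ k ∈ Subgroup.closure ((T j).F P), (T j).d x' (k * y') = m :=
    ⟨_, (T j).H.pr f 1, (T j).H.pr_mem f hfX 1, (T j).H.pr (g * f * g⁻¹) 1,
      (T j).H.pr_mem _ ((T j).H.Xconj f hfX g) 1, 1, one_mem _, rfl⟩
  obtain ⟨x0, hx0, y0, hy0, k, hk, hkm⟩ := Nat.find_spec hex
  have hmin : ∀ x' ∈ (T j).H.Z f, ∀ y' ∈ (T j).H.Z (g * f * g⁻¹),
      ∀ k' ∈ Subgroup.closure ((T j).F P), (T j).d x0 (k * y0) ≤ (T j).d x' (k' * y') := by
    intro x' hx' y' hy' k' hk'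
    rw [hkm]
    exact Nat.find_min' hex ⟨x', hx', y', hy', k', hk', rfl⟩
  have hπk : π j k = 1 := (hn.quo.ker k).2 hk
  have hπg : π j (k * g) = π j g := by rw [map_mul, hπk, one_mul]
  have hgX : g * f * g⁻¹ ∈ Lx (T j).d (100 * P.C) := (T j).H.Xconj f hfX g
  have hconj : k * g * f * (k * g)⁻¹ = k * (g * f * g⁻¹) * k⁻¹ := by group
  have hy1 : k * y0 ∈ (T j).H.Z (k * g * f * (k * g)⁻¹) := by
    rw [hconj]
    exact ((T j).H.Zconj _ hgX k y0).2 hy0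
  have hmin' : ∀ x' ∈ (T j).H.Z f, ∀ y' ∈ (T j).H.Z (k * g * f * (k * g)⁻¹),
      ∀ k' ∈ Subgroup.closure ((T j).F P), (T j).d x0 (k * y0) ≤ (T j).d x' (k' * y') := by
    intro x' hx' y' hy' k' hk'
    have h1 : k⁻¹ * y' ∈ (T j).H.Z (g * f * g⁻¹) := by
      rw [hconj] at hy'
      rw [← (T j).H.Zconj _ hgX k, mul_inv_cancel_left]
      exact hy'
    have h2 := hmin x' hx' _ h1 (k' * k) (mul_mem hk' hk)
    rwa [mul_assoc, mul_inv_cancel_left] at h2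
  have hcom : ¬ Commute (k * g) f := by
    intro h
    apply hc
    obtain ⟨m, hm⟩ := Subgroup.mem_zpowers_iff.1 ((hcen _).1 h)
    rw [← hπg, ← hm]
    exact ((Commute.refl r).zpow_zpow m b).map (π j)
  have hf1 : k * g * f * (k * g)⁻¹ ≠ f := by
    intro h
    apply hcom
    have h2 : k * g * f = f * (k * g) := by
      nth_rewrite 2 [← h]
      rw [inv_mul_cancel_right]
    exact h2
  have hrn : r ^ P.n ≠ 1 := by
    intro h
    apply hS1
    have h1 := (hcen g).2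
    exfalso
    apply hcom
    rw [hr, h]
    exact Commute.one_right _
  have hf2 : k * g * f * (k * g)⁻¹ ≠ f⁻¹ := by
    intro h
    apply hcom
    have h2 := hx.alg.ninv r (k * g) (P.n : ℤ) (-(P.n : ℤ)) hrn (by omega) (by
      rw [zpow_neg, zpow_natCast, ← hr]
      exact h)
    rw [hr]
    exact h2.pow_right _
  -- the exponents
  have hTn := n_le hP hx hf hr
  have hbig : ∀ k1 : ℤ, (100 * P.Δ * P.q : ℤ) ≤ |k1| →
      100 * (P.Δ : ℝ) * P.n ≤ |(k1 : ℝ)| * (T j).H.T f := by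
    intro k1 hk1
    have h1 : ((100 * P.Δ * P.q : ℤ) : ℝ) ≤ ((|k1| : ℤ) : ℝ) := by exact_mod_cast hk1
    push_cast at h1
    have hT0 := hl_Tpos (T j).H hfX
    have h2 : 100 * (P.Δ : ℝ) * P.n ≤ 100 * P.Δ * (P.q * (T j).H.T f) :=
      mul_le_mul_of_nonneg_left hTn (by positivity)
    have h3 : 100 * (P.Δ : ℝ) * P.q * (T j).H.T f ≤ |(k1 : ℝ)| * (T j).H.T f :=
      mul_le_mul_of_nonneg_right h1 hT0
    linarith
  obtain ⟨k1, hk1a, hk1b⟩ := exists_rep b hn1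
  have hk10 : k1 ≠ 0 := by
    rintro rfl
    rw [sub_zero] at hk1a
    exact hb hk1a
  have hbN : ¬ (P.n : ℤ) ∣ b * P.N2 := not_dvd_mul hP.hN2 hb
  have hexp : ∃ k2 : ℤ, (P.n : ℤ) ∣ b * P.N2 - k2 ∧ 2 * |k2| ≤ P.n ∧
      ((100 * P.Δ * P.q : ℤ) ≤ |k1| ∨ (100 * P.Δ * P.q : ℤ) ≤ |k2|) := by
    by_cases h : (100 * P.Δ * P.q : ℤ) ≤ |k1|
    · obtain ⟨k2, h1, h2⟩ := exists_rep (b * P.N2) hn1
      exact ⟨k2, h1, h2, Or.inl h⟩
    · push Not at h
      refine ⟨k1 * P.N2, ?_, ?_, Or.inr ?_⟩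
      · rw [← sub_mul]
        exact Dvd.dvd.mul_right hk1a _
      · rw [abs_mul, Nat.abs_cast]
        have h1 := hP.hNn
        have h2 : 4 * (100 * (P.Δ : ℤ) * P.q) * P.N2 < P.n := by exact_mod_cast h1
        have h3 : |k1| * (P.N2 : ℤ) ≤ (100 * P.Δ * P.q : ℤ) * P.N2 :=
          mul_le_mul_of_nonneg_right h.le (Int.natCast_nonneg _)
        linarith [mul_nonneg (abs_nonneg k1) (Int.natCast_nonneg P.N2)]
      · rw [abs_mul, Nat.abs_cast]
        have h1 := hP.hNb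
        have h2 : 100 * (P.Δ : ℤ) * P.q + 1 ≤ P.N2 := by exact_mod_cast h1
        have h3 : 1 ≤ |k1| := Int.one_le_abs hk10
        nlinarith [Int.natCast_nonneg P.N2]
  obtain ⟨k2, hk2a, hk2b, hk2c⟩ := hexp
  have hk20 : k2 ≠ 0 := by
    rintro rfl
    rw [sub_zero] at hk2a
    exact hbN hk2a
  have hJ := hn.j2 f hf r (k * g) hcen hr hf1 hf2 x0 hx0 (k * y0) hy1 hmin' k1 k2 hk10 hk20
    hk1b hk2b (hk2c.imp (hbig k1) (hbig k2)) _ (Or.inl rfl)
  have e : π j (r ^ k1 * (k * g * r ^ k2 * (k * g)⁻¹)) = vv P.N2 (π j (r ^ b)) (π j g) := by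
    unfold vv
    rw [map_mul, map_mul, map_mul, map_inv, hπg, ← hπr b k1 hk1a, ← hπr (b * P.N2) k2 hk2a,
      zpow_mul, zpow_natCast, map_pow]
  rw [← e]
  exact hJ.2

end

end LP

theorem stLP : StLP := by
  intro B _ P M1 T0 T Q π hP hT j
  induction j with
  | zero =>
    intro S g hS hS1 _
    exact absurd (hT.zero S hS) hS1
  | succ j ih =>
    intro S g hS hS1 hc
    obtain ⟨g, rfl⟩ := (hT.nx j).quo.surj g
    rcases (hT.nx j).cls S with ⟨S', hS', rfl⟩ | ⟨f, hf, y, hyf, rfl⟩ | h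
    · exact LP.case1 hP hT ih S' g hS' hS1 hc
    · exact Or.inl (LP.case2 hP hT f y g hf hyf hS1 hc)
    · exfalso
      have h1 := h 1 P.n
      rw [hS, one_mul, hb_self (hT.gd (j + 1)).stage.toHypG, mul_zero] at h1
      have := hP.cst2.hn
      omega

end Pool.Agent.Helper17.SPL
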