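import Pool.Agent.Helper17.SPL.TDefs2

/-!
MP_7246d9_al, Part A1: the limit group exists.
-/

set_option autoImplicit false

namespace Pool.Agent.Helper17.SPL

open Pool.Agent.Helper74.TB Pool.Agent.Helper74.MH

theorem stLimEx : StLimEx := by
  intro B _ P T Q π hT
  have hup : ∀ (b : B) (i j : ℕ), i ≤ j → (T i).p b = 1 → (T j).p b = 1 := by
    intro b i j hij hb
    induction j, hij using Nat.le_induction with
    | base => exact hb
    | succ j _ ih => rw [← (hT.nx j).comp, ih, map_one]
  let N : Subgroup B :=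
    { carrier := {b | ∃ i, (T i).p b = 1}
      one_mem' := ⟨0, map_one _⟩
      mul_mem' := by
        rintro a b ⟨i, hi⟩ ⟨j, hj⟩
        refine ⟨max i j, ?_⟩
        rw [map_mul, hup a i _ (le_max_left i j) hi, hup b j _ (le_max_right i j) hj, mul_one]
      inv_mem' := by
        rintro a ⟨i, hi⟩
        exact ⟨i, by rw [map_inv, hi, inv_one]⟩ }
  have hN : N.Normal := by
    constructor
    rintro a ⟨i, hi⟩ g
    exact ⟨i, by rw [map_mul, map_mul, map_inv, hi, mul_one, mul_inv_cancel]⟩
  refine ⟨B ⧸ N, inferInstance, QuotientGroup.mk' N, ⟨QuotientGroup.mk'_surjective N, ?_⟩⟩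
  intro b
  rw [← MonoidHom.mem_ker, QuotientGroup.ker_mk']
  exact Iff.rfl

end Pool.Agent.Helper17.SPL
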