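import Pool.Agent.Helper17.SPL.Sht

/-!
MP_7246d9_al: Part T6 of the tower part.  A word which dies in the limit is aligned with a word
of the policy.
-/

set_option autoImplicit false

namespace Pool.Agent.Helper17.SPL

open Pool.Agent.Helper74.TB Pool.Agent.Helper74.MH

/-- the hom image of a word -/
theorem nk_map_ww {B B' : Type*} [Group B] [Group B'] (f : B →* B') (S r : B) (a : ℤ) (h : ℕ)
    (e : ℕ → ℤ) : f (ww S r a h e) = ww (f S) (f r) a h e := by
  unfold ww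
  rw [map_list_prod, List.map_map]
  congr 1
  refine List.map_congr_left (fun k _ => ?_)
  simp only [Function.comp_apply, map_mul, map_zpow]

/-- displacement of a product -/
theorem nk_prod {G : Type*} [Group G] {d : G → G → ℕ} {δ : ℕ} (hG : HypG d δ) {D : ℕ} (z : G)
    (l : List G) (hl : ∀ g ∈ l, d z (g * z) ≤ D) : d z (l.prod * z) ≤ l.length * D := by
  induction l with
  | nil =>
    rw [List.prod_nil, one_mul, (hG.path.zero_iff z z).2 rfl]
    exact Nat.zero_le _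
  | cons g l ih =>
    have h1 := hl g (List.mem_cons_self ..)
    have h2 := ih (fun g' hg' => hl g' (List.mem_cons_of_mem _ hg'))
    have h3 := hG.path.tri z (g * z) ((g :: l).prod * z)
    have h4 := hG.inv g z (l.prod * z)
    have e : g * (l.prod * z) = (g :: l).prod * z := by rw [List.prod_cons, mul_assoc]
    rw [e] at h4
    rw [List.length_cons, Nat.succ_mul]
    omega

/-- displacement of a word -/
theorem nk_ww {G : Type*} [Group G] {d : G → G → ℕ} {δ : ℕ} (hG : HypG d δ) {D : ℕ} {S r z : G}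
    (h1 : ∀ m : ℤ, d z (S * r ^ m * z) ≤ D) (a : ℤ) (h : ℕ) (e : ℕ → ℤ) :
    d z (ww S r a h e * z) ≤ h * D := by
  unfold ww
  refine le_trans (nk_prod (D := D) hG z _ ?_) ?_
  · intro g hg
    obtain ⟨k, _, rfl⟩ := List.mem_map.1 hg
    exact h1 _
  · rw [List.length_map, List.length_range]

theorem nk_div (a : ℕ) {b : ℕ} (hb : 1 ≤ b) : a ≤ b * (a / b + 1) := by
  rw [Nat.mul_add, mul_one]
  have h1 := Nat.div_add_mod a b
  have h2 := Nat.mod_lt a (show 0 < b from hb)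
  omega

/-- elements with an axis have infinite order -/
theorem nk_ord {G : Type*} [Group G] {d : G → G → ℕ} {X : Set G} {C : ℕ} (H : Hubs d X C)
    {f : G} (hf : f ∈ X) (hT : 0 < H.T f) {k : ℤ} (hk : f ^ k = 1) : k = 0 := by
  have h1 := hl_zpow H hf 1 k
  rw [hk, one_mul, hl_refl H hf] at h1
  have h2 : (k : ℝ) = 0 := by
    rcases mul_eq_zero.1 h1.symm with h | h
    · exact h
    · linarith
  exact_mod_cast h2

section

variable {B : Type} [Group B] {P : Par2} {M1 T0 : ℕ} {T : ℕ → Bst B P.C}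
  {Q : ∀ i, (T i).G → (T i).G → ℤ → Prop} {π : ∀ i, (T i).G →* (T (i + 1)).G}

/-- one syllable, in the next stage -/
theorem nk_syl (hP : P.Ok M1 T0) (hG : TGood P T Q π) (i : ℕ) {S r z : (T i).G}
    (hS : ∀ j : ℤ, (T i).d z (S ^ j * z) ≤ P.C) (hr : r ^ P.n ∈ Fp (T i).d P.n P.L1)
    (hz : Nh (T i).d P.L2 ((T i).H.Z (r ^ P.n)) z) (m : ℤ) :
    (T (i + 1)).d (π i z) (π i S * π i r ^ m * π i z) ≤ 2 * (P.L2 / P.R) + 4 := by
  obtain ⟨hC1, hCR, -, -, hR1, -⟩ := sht_nums hP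
  have hH : HypG (T i).d 2000 := (hG.gd i).stage.toHypG
  have hQ := (hG.nx i).quo
  have hf : r ^ P.n ∈ (T i).F P := Or.inl hr
  have hfX : r ^ P.n ∈ Lx (T i).d (100 * P.C) := (hG.gd i).rels.sub hf
  obtain ⟨q, hq, hzq⟩ := hz
  -- the hub step
  have hq' : r ^ m * q ∈ (T i).H.Z (r ^ P.n) := by
    have h1 := (T i).H.Zconj (r ^ P.n) hfX (r ^ m) q
    have e : r ^ m * r ^ P.n * (r ^ m)⁻¹ = r ^ P.n := by
      rw [mul_inv_eq_iff_eq_mul, ← zpow_natCast, ← zpow_add, ← zpow_add, add_comm]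
    rw [e] at h1
    exact h1.2 hq
  have hnh : ∀ y ∈ (T i).H.Z (r ^ P.n), Nh (T i).d (20 * P.C) ((T i).H.Z (r ^ P.n)) y := by
    intro y hy
    refine ⟨y, hy, ?_⟩
    rw [(hH.path.zero_iff y y).2 rfl]
    exact Nat.zero_le _
  have s1 : (T (i + 1)).d (π i q) (π i (r ^ m * q)) ≤ 1 :=
    (hQ.adj _ _).2 ⟨q, r ^ m * q, rfl, rfl, Or.inr ⟨_, hf, hnh q hq, hnh _ hq'⟩⟩
  have s2 : (T (i + 1)).d (π i z) (π i q) ≤ P.L2 / P.R + 1 := by
    refine quo_lip hH hQ _ _ _ ?_
    exact le_trans hzq (nk_div _ hR1)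
  have s3 : (T (i + 1)).d (π i z) (π i (S * z)) ≤ 1 := by
    refine quo_lip hH hQ _ _ _ ?_
    have h1 := hS 1
    rw [zpow_one] at h1
    rw [mul_one]
    exact le_trans h1 hCR
  have hp' := (hG.gd (i + 1)).stage.toHypG.path
  have hi' := (hG.gd (i + 1)).stage.toHypG.inv
  rw [map_mul] at s1 s3
  rw [map_zpow] at s1
  generalize π i z = z' at *
  generalize π i q = q' at *
  generalize π i S = S' at *
  generalize π i r = r' at *
  have e1 := hi' S' z' q'
  have e2 := hi' S' q' (r' ^ m * q')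
  have e3 := hi' (S' * r' ^ m) q' z'
  have f1 : S' * r' ^ m * q' = S' * (r' ^ m * q') := mul_assoc _ _ _
  rw [f1] at e3
  have t1 := hp'.tri z' (S' * z') (S' * r' ^ m * z')
  have t2 := hp'.tri (S' * z') (S' * q') (S' * r' ^ m * z')
  have t3 := hp'.tri (S' * q') (S' * (r' ^ m * q')) (S' * r' ^ m * z')
  have y1 := hp'.symm q' z'
  omega

/-- the word is killed at the second next stage if it is killed in the limit -/
theorem nk_two (hS : StSI) (hP : P.Ok M1 T0) (hG : TGood P T Q π) {D : Type} [Group D]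
    {ω : B →* D} (hL : LimB T ω) (i : ℕ) {u w : B} {a : ℤ}
    (hp : Pair (T i).H P.n P.L1 P.L2 P.km ((T i).p u) ((T i).p w) a)
    (hω : ω (ww u w a P.h P.ex) = 1) : (T (i + 2)).p (ww u w a P.h P.ex) = 1 := by
  obtain ⟨hC1, hCR, -, -, hR1, hTm⟩ := sht_nums hP
  obtain ⟨z, hz1, hz2⟩ := hp.near
  obtain ⟨bz, rfl⟩ := (hG.gd i).surj z
  have hH' : HypG (T (i + 1)).d 2000 := (hG.gd (i + 1)).stage.toHypG
  have h1 : (T (i + 1)).d (π i ((T i).p bz)) (π i (ww ((T i).p u) ((T i).p w) a P.h P.ex) *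
      π i ((T i).p bz)) ≤ P.h * (2 * (P.L2 / P.R) + 4) := by
    rw [nk_map_ww]
    exact nk_ww hH' (fun m => nk_syl hP hG i hz1 hp.fp hz2 m) a P.h P.ex
  rw [← nk_map_ww (T i).p, sht_comp hG, sht_comp hG] at h1
  -- the next step
  have h2 : (T (i + 2)).d ((T (i + 2)).p bz) ((T (i + 2)).p (ww u w a P.h P.ex) *
      (T (i + 2)).p bz) ≤ P.h * (2 * (P.L2 / P.R) + 4) / P.R + 1 := by
    have h3 := quo_lip hH' (hG.nx (i + 1)).quo (P.h * (2 * (P.L2 / P.R) + 4) / P.R + 1)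
      ((T (i + 1)).p bz) ((T (i + 1)).p (ww u w a P.h P.ex) * (T (i + 1)).p bz)
      (le_trans h1 (nk_div _ hR1))
    rw [map_mul, sht_comp hG, sht_comp hG] at h3
    exact h3
  refine hS B P M1 T0 T Q π D ω hP hG hL (i + 2) _ ((T (i + 2)).p bz) ?_ hω
  -- numerical estimate
  have n1 : P.R * (P.R * (P.h * (2 * (P.L2 / P.R) + 4) / P.R + 1)) ≤
      P.h * (2 * P.L2 + 4 * P.R) + P.R * P.R := by
    have a1 : P.R * (P.h * (2 * (P.L2 / P.R) + 4) / P.R) ≤ P.h * (2 * (P.L2 / P.R) + 4) :=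
      Nat.mul_div_le _ _
    have a2 : P.R * (P.L2 / P.R) ≤ P.L2 := Nat.mul_div_le _ _
    generalize P.h * (2 * (P.L2 / P.R) + 4) / P.R = X at *
    generalize P.L2 / P.R = Y at *
    calc P.R * (P.R * (X + 1)) = P.R * (P.R * X) + P.R * P.R := by ring
      _ ≤ P.R * (P.h * (2 * Y + 4)) + P.R * P.R :=
        Nat.add_le_add_right (Nat.mul_le_mul_left _ a1) _
      _ = P.h * (2 * (P.R * Y) + 4 * P.R) + P.R * P.R := by ring
      _ ≤ P.h * (2 * P.L2 + 4 * P.R) + P.R * P.R := by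
        refine Nat.add_le_add_right (Nat.mul_le_mul_left _ ?_) _
        omega
  generalize (T (i + 2)).d ((T (i + 2)).p bz) ((T (i + 2)).p (ww u w a P.h P.ex) *
      (T (i + 2)).p bz) = dd at *
  generalize P.h * (2 * (P.L2 / P.R) + 4) / P.R + 1 = X at *
  have n2 : (P.R : ℝ) * (P.R * X) ≤ P.h * (2 * P.L2 + 4 * P.R) + P.R * P.R := by
    exact_mod_cast n1
  have n3 : (dd : ℝ) ≤ X := by exact_mod_cast h2
  have n4 := hP.hsh
  have n5 : (1 : ℝ) ≤ P.R := by exact_mod_cast hR1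
  have n6 := hP.cst2.cst.hT
  have n7 : (0 : ℝ) ≤ P.h := Nat.cast_nonneg _
  have n8 : (0 : ℝ) ≤ P.L2 := Nat.cast_nonneg _
  have n9 : 10 ≤ P.Tm := by linarith
  have n10 : (0 : ℝ) < (P.R : ℝ) ^ 2 := by positivity
  -- `R^2 (2 X) ≤ R^2 Tm`
  have n11 : (P.R : ℝ) ^ 2 * (2 * X) ≤ (P.R : ℝ) ^ 2 * P.Tm := by
    have b1 : (P.R : ℝ) ^ 2 * (2 * X) = 2 * ((P.R : ℝ) * (P.R * X)) := by ring
    have b2 : 2 * ((P.h : ℝ) * (2 * P.L2 + 4 * P.R)) ≤ 4 * (P.h : ℝ) * (P.L2 + 5 * P.R) := by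
      nlinarith [mul_nonneg n7 (by linarith : (0 : ℝ) ≤ P.R)]
    have b3 : (P.R : ℝ) ^ 2 * 10 ≤ (P.R : ℝ) ^ 2 * P.Tm :=
      mul_le_mul_of_nonneg_left n9 n10.le
    rw [b1]
    nlinarith
  have n12 := le_of_mul_le_mul_left n11 n10
  linarith

end

/-- The word relators of `y` for the policy `Q` are among all word relators. -/
theorem nk_sub {B : Type} [Group B] {P : Par2} {x y : Bst B P.C} {π : x.G →* y.G}
    {Q : x.G → x.G → ℤ → Prop} {f : y.G} (hf : f ∈ Wd P x y π Q) :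
    f ∈ Wd P x y π (fun _ _ _ => True) := by
  obtain ⟨S, r, a, t, h1, -, h3⟩ := hf
  exact ⟨S, r, a, t, h1, trivial, h3⟩

theorem stNK : StSI → StNK := by
  intro hS B _ P M1 T0 T Q π D _ ω hP hG hL i u w a hp hω
  obtain ⟨hC1, hCR, -, -, hR1, hTm⟩ := sht_nums hP
  have hnx := hG.nx i
  have hgd := hG.gd (i + 1)
  have h2 := nk_two hS hP hG hL i hp hω
  have hw0 : π i (ww ((T i).p u) ((T i).p w) a P.h P.ex) =
      (T (i + 1)).p (ww u w a P.h P.ex) := by
    rw [← nk_map_ww, sht_comp hG]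
  -- the word is in the closure of the relators
  have hcl : π i (ww ((T i).p u) ((T i).p w) a P.h P.ex) ∈
      Subgroup.closure ((T (i + 1)).F P) := by
    refine ((hG.nx (i + 1)).quo.ker _).1 ?_
    rw [hw0, sht_comp hG]
    exact h2
  have hWd : π i (ww ((T i).p u) ((T i).p w) a P.h P.ex) ∈
      Wd P (T i) (T (i + 1)) (π i) (fun _ _ _ => True) :=
    ⟨_, _, a, 1, hp, trivial, Or.inl (by group)⟩
  have hal := fun S2 r2 a2 t2 => hnx.al ((T i).p u) ((T i).p w) S2 r2 a a2 1 t2 hp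
  rw [show (1 : (T (i + 1)).G) * π i (ww ((T i).p u) ((T i).p w) a P.h P.ex) *
    (1 : (T (i + 1)).G)⁻¹ = π i (ww ((T i).p u) ((T i).p w) a P.h P.ex) by group] at hal
  generalize hwd : π i (ww ((T i).p u) ((T i).p w) a P.h P.ex) = w0 at *
  have hfam := hnx.fam
  have hX : w0 ∈ Lx (T (i + 1)).d (100 * P.C) := hfam.sub (Or.inr hWd)
  have hTp : ∀ f ∈ Fp (T (i + 1)).d P.n P.L1 ∪ Wd P (T i) (T (i + 1)) (π i)
      (fun _ _ _ => True), 0 < (T (i + 1)).H.T f := by
    intro f hf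
    have h3 := (T (i + 1)).H.Tbig f (hfam.sub hf)
    have h4 : (1 : ℝ) ≤ P.C := by exact_mod_cast hC1
    linarith
  have hne : w0 ≠ 1 := by
    intro h
    have := nk_ord (T (i + 1)).H hX (hTp w0 (Or.inr hWd)) (k := 1) (by rw [h, one_zpow])
    omega
  obtain ⟨f, hf, hgr⟩ := hgd.green w0 hcl hne ((T (i + 1)).H.pr w0 1)
  have hz := (T (i + 1)).H.pr_mem w0 hX 1
  have hz' : w0 * (T (i + 1)).H.pr w0 1 ∈ (T (i + 1)).H.Z w0 := by
    have := (hl_Zpow (T (i + 1)).H hX ((T (i + 1)).H.pr w0 1) 1).2 hz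
    rwa [zpow_one] at this
  have hf' : f ∈ Fp (T (i + 1)).d P.n P.L1 ∪ Wd P (T i) (T (i + 1)) (π i)
      (fun _ _ _ => True) := by
    rcases hf with hf | hf
    · exact Or.inl hf
    · rw [hnx.wd] at hf
      exact Or.inr (nk_sub hf)
  -- the word is one of the relators
  have hor : w0 = f ∨ w0 = f⁻¹ := by
    by_contra hcon
    push Not at hcon
    have h3 := hfam.sep f hf' w0 (Or.inr hWd) hcon.1 hcon.2 _ hz _ hz'
    have h4 := hfam.big f hf'
    have h5 := hP.cst3.hT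
    have h6 : (0 : ℝ) ≤ P.L2 := Nat.cast_nonneg _
    have h7 : (1 : ℝ) ≤ P.Δ := by
      have := hP.cst2.cst.hΔ
      have : 1 ≤ P.Δ := by omega
      exact_mod_cast this
    linarith
  rcases hf with hf | hf
  · -- power relators are impossible
    exfalso
    obtain ⟨r, hfr, hcen, -⟩ := hgd.fpr f hf
    have hcom : Commute r w0 := by
      have h3 : Commute r f := (hcen r).2 (Subgroup.mem_zpowers r)
      rcases hor with h | h
      · rw [h]; exact h3
      · rw [h]; exact h3.inv_right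
    obtain ⟨m, hm⟩ := Subgroup.mem_zpowers_iff.1 ((hnx.wct w0 hWd r).1 hcom)
    have hn3 := hP.cst2.hn
    have key : ∃ k : ℤ, k ≠ 0 ∧ r ^ k = 1 := by
      rcases hor with h | h
      · refine ⟨1 - P.n * m, ?_, ?_⟩
        · intro h4
          have h5 : (P.n : ℤ) ∣ 1 := ⟨m, by linarith⟩
          have h6 := Int.le_of_dvd one_pos h5
          omega
        · rw [zpow_sub, zpow_one, zpow_mul, zpow_natCast, ← hfr, ← h, hm, mul_inv_cancel]
      · refine ⟨1 + P.n * m, ?_, ?_⟩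
        · intro h4
          have h5 : (P.n : ℤ) ∣ 1 := ⟨-m, by linarith⟩
          have h6 := Int.le_of_dvd one_pos h5
          omega
        · have h5 : r ^ ((P.n : ℤ) * m) = r⁻¹ := by
            rw [zpow_mul, zpow_natCast, ← hfr, ← inv_inv (f ^ m), ← inv_zpow, ← h, hm]
          rw [zpow_add, zpow_one, h5, mul_inv_cancel]
    obtain ⟨k, hk0, hk⟩ := key
    refine hk0 (nk_ord (T (i + 1)).H (hfam.sub hf') (hTp f hf') (k := k) ?_)
    rw [hfr, ← zpow_natCast, ← zpow_mul, mul_comm, zpow_mul, hk, one_zpow]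
  · -- word relators
    rw [hnx.wd] at hf
    obtain ⟨S', r', a', t, hp', hQ', hft⟩ := hf
    have hor2 : w0 = t * π i (ww S' r' a' P.h P.ex) * t⁻¹ ∨
        w0 = (t * π i (ww S' r' a' P.h P.ex) * t⁻¹)⁻¹ := by
      rcases hor with h | h <;> rcases hft with h' | h'
      · exact Or.inl (h.trans h')
      · exact Or.inr (h.trans h')
      · exact Or.inr (by rw [h, h'])
      · exact Or.inl (by rw [h, h', inv_inv])
    have hal' := hal S' r' a' t hp'
    rcases hor2 with h | h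
    · obtain ⟨z, hz1, hz2⟩ := hal'.1 h
      exact ⟨S', r', z, a', hp', hQ', hz1, hz2⟩
    · exact absurd h hal'.2

end Pool.Agent.Helper17.SPL
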