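import Pool.Agent.Helper17.SPL.TDefs

/-! MP_7246d9_al, Part T0: good parameters exist for every large odd `n`. -/

set_option autoImplicit false

namespace Pool.Agent.Helper17.SPL

open Pool.Agent.Helper74.TB Pool.Agent.Helper74.MH

theorem stPar2 : StPar2 := by
  intro C M1 T0 hC hCM
  obtain ⟨q, hq⟩ : ∃ q, q = 3 * 10 ^ 6 * M1 + 1 := ⟨_, rfl⟩
  obtain ⟨L, hL⟩ : ∃ L, L = 1000 * C := ⟨_, rfl⟩
  obtain ⟨Ax, hAx⟩ : ∃ Ax, Ax = 10 ^ 6 * L + 10 ^ 5 * q * L * C := ⟨_, rfl⟩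
  obtain ⟨L1, hL1⟩ : ∃ L1, L1 = 10 ^ 4 * Ax := ⟨_, rfl⟩
  obtain ⟨D, hD⟩ : ∃ D, D = 300 * L1 := ⟨_, rfl⟩
  obtain ⟨R, hR⟩ : ∃ R, R = 1000 * D := ⟨_, rfl⟩
  obtain ⟨L2, hL2⟩ : ∃ L2, L2 = (200 * C * q + 10) * L1 := ⟨_, rfl⟩
  obtain ⟨k1, hk1⟩ : ∃ k1, k1 = 10 * D * q + q * L1 := ⟨_, rfl⟩
  obtain ⟨km, hkm⟩ : ∃ km, km = (k1 + 1) * k1 := ⟨_, rfl⟩
  obtain ⟨T, hT⟩ : ∃ T, T = 10 * R + M1 * R + T0 * R + 10 ^ 4 * (D + L2) := ⟨_, rfl⟩
  obtain ⟨N2, hN2⟩ : ∃ N2, N2 = 2 ^ (100 * D * q + 1) := ⟨_, rfl⟩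
  obtain ⟨Y, hY⟩ : ∃ Y, Y = 10 ^ 4 * M1 * (T + 1000 + 100 * C) + 1 := ⟨_, rfl⟩
  obtain ⟨h, hh⟩ : ∃ h, h = 2 ^ (Nat.log 2 Y + 1) := ⟨_, rfl⟩
  obtain ⟨Th, hTh⟩ : ∃ Th, Th = 10 ^ 4 * (D + L2 + R * h) := ⟨_, rfl⟩
  obtain ⟨M0, hM0⟩ : ∃ M0, M0 = 10 * q * Th := ⟨_, rfl⟩
  obtain ⟨lam, hlam⟩ : ∃ lam, lam = km + 2 := ⟨_, rfl⟩
  refine ⟨q * T + 100 * C * q + 4 * (100 * D * q) * N2 + 8 * km * M0 * lam ^ h + 4, ?_⟩
  intro n hn hodd
  have hq1 : 1 ≤ q := by omega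
  have hLpos : 1 ≤ L := by omega
  have hAxL : L ≤ Ax := by
    have : 0 ≤ 10 ^ 5 * q * L * C := Nat.zero_le _
    omega
  have hAxL1 : Ax ≤ L1 := by omega
  have hLL1 : L ≤ L1 := hAxL.trans hAxL1
  have hL1pos : 1 ≤ L1 := by omega
  have hpos1 : 0 ≤ q * T := Nat.zero_le _
  have hpos2 : 0 ≤ 100 * C * q := Nat.zero_le _
  have hpos3 : 0 ≤ 4 * (100 * D * q) * N2 := Nat.zero_le _
  have hpos4 : 0 ≤ 8 * km * M0 * lam ^ h := Nat.zero_le _
  have e1 : q * T ≤ n := by omega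
  have e2 : 100 * C * q ≤ n := by omega
  have e3 : 4 * (100 * D * q) * N2 < n := by omega
  have e4 : 8 * km * M0 * lam ^ h ≤ n := by omega
  have e5 : 3 ≤ n := by omega
  have t1 : 10 * R ≤ T := by
    have : 0 ≤ M1 * R := Nat.zero_le _
    have : 0 ≤ T0 * R := Nat.zero_le _
    omega
  have t2 : M1 * R ≤ T := by
    have : 0 ≤ T0 * R := Nat.zero_le _
    omega
  have t3 : T0 * R ≤ T := by
    have : 0 ≤ M1 * R := Nat.zero_le _
    omega
  have t4 : 10 ^ 4 * (D + L2) ≤ T := by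
    have : 0 ≤ T0 * R := Nat.zero_le _
    have : 0 ≤ M1 * R := Nat.zero_le _
    omega
  have hcop2 : ∀ a : ℕ, Nat.Coprime (2 ^ a) n := fun a =>
    Nat.Coprime.pow_left a (Nat.coprime_two_left.2 hodd)
  have hYh : Y < h := by
    rw [hh]
    exact Nat.lt_pow_succ_log_self (by norm_num) Y
  have hhY : h ≤ 2 * Y := by
    rw [hh, pow_succ, mul_comm]
    exact Nat.mul_le_mul_left 2 (Nat.pow_log_le_self 2 (by omega))
  have hk1pos : 1 ≤ k1 := by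
    have : 1 ≤ q * L1 := Nat.mul_pos hq1 hL1pos
    omega
  have hCq : 1 ≤ C * q := Nat.mul_pos (by omega) hq1
  -- the last inequality
  have hsh : 8 * h * (L2 + 5 * R) ≤ R ^ 2 * T := by
    have s1 : T + 1000 + 100 * C ≤ 2 * T := by omega
    have s2 : h ≤ 8 * 10 ^ 4 * C * T := by
      have k1 : 10 ^ 4 * M1 * (T + 1000 + 100 * C) ≤ 10 ^ 4 * C * (2 * T) :=
        Nat.mul_le_mul (Nat.mul_le_mul_left _ hCM) s1
      have k2 : 1 ≤ C * T := Nat.mul_pos (by omega) (by omega)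
      have k3 : 10 ^ 4 * C * (2 * T) = 2 * 10 ^ 4 * (C * T) := by ring
      have k4 : 8 * 10 ^ 4 * C * T = 8 * 10 ^ 4 * (C * T) := by ring
      omega
    have s3 : L2 + 5 * R ≤ 16 * 10 ^ 5 * (C * q) * L1 := by
      have k1 : L2 + 5 * R = (200 * (C * q) + 10 + 15 * 10 ^ 5) * L1 := by
        rw [hL2, hR, hD]; ring
      rw [k1]
      exact Nat.mul_le_mul_right _ (by omega)
    have s4 : 10 ^ 12 * (C * q) * C ≤ L1 := by
      have k1 : L1 = 10 ^ 4 * (10 ^ 6 * L) + 10 ^ 12 * (C * q) * C := by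
        rw [hL1, hAx, hL]; ring
      rw [k1]
      exact Nat.le_add_left _ _
    calc 8 * h * (L2 + 5 * R) ≤ 8 * (8 * 10 ^ 4 * C * T) * (16 * 10 ^ 5 * (C * q) * L1) :=
          Nat.mul_le_mul (Nat.mul_le_mul_left _ s2) s3
      _ = 1024 * 10 ^ 9 * (C * q) * C * (L1 * T) := by ring
      _ ≤ 9 * 10 ^ 10 * (10 ^ 12 * (C * q) * C) * (L1 * T) := by
          apply Nat.mul_le_mul_right
          have k2 : 9 * 10 ^ 10 * (10 ^ 12 * (C * q) * C) = 9 * 10 ^ 22 * ((C * q) * C) := by ring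
          have k3 : 1024 * 10 ^ 9 * (C * q) * C = 1024 * 10 ^ 9 * ((C * q) * C) := by ring
          rw [k2, k3]
          exact Nat.mul_le_mul_right _ (by norm_num)
      _ ≤ 9 * 10 ^ 10 * L1 * (L1 * T) := Nat.mul_le_mul_right _ (Nat.mul_le_mul_left _ s4)
      _ = R ^ 2 * T := by rw [hR, hD]; ring
  refine ⟨{ C := C, L := L, Δ := D, R := R, n := n, q := q, Ax := Ax, L1 := L1, L2 := L2,
            k1 := k1, h := h, M0 := M0, lam := lam, Θ := Th, N2 := N2,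
            Tm := (T : ℝ) }, rfl, hL, rfl, ?_⟩
  refine
    { hC := hC
      hCM := hCM
      hL := hL.ge
      cst2 := ?_
      cst3 := ?_
      hT0 := ?_
      hq := hq1
      hAx := hAx.ge
      hL1 := hL1.ge
      hR := ?_
      hqT := ?_
      hqn := e2
      hN2 := ?_
      hNb := ?_
      hNn := e3
      hL2 := hL2.ge
      hk1 := hk1.ge
      hh := ?_
      hh1 := ?_
      hsh := ?_ }
  · show Cst2 2000 C D R n q L Ax L1 M1 (T : ℝ)
    refine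
      { cst := ?_
        odd := hodd
        hn := e5
        hq := ?_
        hL := hL.ge
        hL1 := hLL1
        hAx := hAxL1
        hΔ := hD.ge
        hM := ?_ }
    · refine
        { hδ := by norm_num
          hC := hC
          hΔ := by omega
          hR := hR.ge
          hc := by positivity
          hcT := ?_
          hT := ?_ }
      · have : 100 * (100 * D) ≤ T := by omega
        exact_mod_cast this
      · exact_mod_cast t1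
    · show 10 * R * M1 ≤ q * L1
      calc 10 * R * M1 = (3 * 10 ^ 6 * M1) * L1 := by
            rw [hR, hD]; ring
        _ ≤ q * L1 := Nat.mul_le_mul_right _ (by omega)
    · show (M1 : ℝ) * (R : ℝ) ≤ (T : ℝ)
      exact_mod_cast t2
  · show Cst3 C D R n q L1 L2 ((k1 + 1) * k1) h M0 lam Th M1 (T : ℝ)
    rw [← hkm]
    refine
      { hL2 := ?_
        hΘ := hTh.ge
        hM0 := hM0.ge
        hlam := hlam.ge
        hk := by
          rw [hkm]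
          exact Nat.mul_pos (Nat.succ_pos _) hk1pos
        hh := ?_
        hn := e4
        hT := ?_ }
    · show 100 * L2 ≤ q * C * L1 * 10 ^ 5
      calc 100 * L2 = (20000 * (C * q) + 1000) * L1 := by rw [hL2]; ring
        _ ≤ (10 ^ 5 * (C * q)) * L1 := Nat.mul_le_mul_right _ (by omega)
        _ = q * C * L1 * 10 ^ 5 := by ring
    · show 10 ^ 4 * (M1 : ℝ) * ((T : ℝ) + 1000 + 100 * (C : ℝ)) ≤ (h : ℝ)
      have : 10 ^ 4 * M1 * (T + 1000 + 100 * C) ≤ h := by omega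
      exact_mod_cast this
    · show 10 ^ 4 * ((D : ℝ) + (L2 : ℝ)) ≤ (T : ℝ)
      exact_mod_cast t4
  · show (T0 : ℝ) * (R : ℝ) ≤ (T : ℝ)
    exact_mod_cast t3
  · show R ≤ 10 ^ 6 * L1
    omega
  · show (q : ℝ) * (T : ℝ) ≤ (n : ℝ)
    exact_mod_cast e1
  · show Nat.Coprime N2 n
    rw [hN2]
    exact hcop2 _
  · show 100 * D * q + 1 ≤ N2
    rw [hN2]
    exact (Nat.lt_pow_self (by norm_num)).le
  · show Nat.Coprime h n
    rw [hh]
    exact hcop2 _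
  · show 1 ≤ h
    omega
  · show 8 * (h : ℝ) * ((L2 : ℝ) + 5 * (R : ℝ)) ≤ (R : ℝ) ^ 2 * (T : ℝ)
    exact_mod_cast hsh

end Pool.Agent.Helper17.SPL
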