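import Pool.Agent.Helper17.SPL.TDefs

/-!
MP_7246d9_al: statements of the assembly of the tower part.
-/

set_option autoImplicit false

namespace Pool.Agent.Helper17.SPL

open Pool.Agent.Helper74.TB Pool.Agent.Helper74.MH

/-- Part A1: the limit group exists. -/
def StLimEx : Prop :=
  ∀ (B : Type) [Group B] (P : Par2) (T : ℕ → Bst B P.C)
    (Q : ∀ i, (T i).G → (T i).G → ℤ → Prop) (π : ∀ i, (T i).G →* (T (i + 1)).G),
    TGood P T Q π → ∃ (D : Type) (_ : Group D) (ω : B →* D), LimB T ω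

/-- Part A2: every non-commuting pair of the limit has data at some stage. -/
def StDB : Prop :=
  ∀ (B : Type) [Group B] (P : Par2) (M1 T0 : ℕ) (T : ℕ → Bst B P.C)
    (Q : ∀ i, (T i).G → (T i).G → ℤ → Prop) (π : ∀ i, (T i).G →* (T (i + 1)).G)
    (D : Type) [Group D] (ω : B →* D), P.Ok M1 T0 → TGood P T Q π → LimB T ω →
    ∀ S g : D, S ≠ 1 → ¬ Commute g S → ∃ (i : ℕ) (u v : B) (r : (T i).G) (a : ℤ)
      (z : (T i).G), ω u = S ∧ ω v = g ∧ BD P (T i) ((T i).p u) ((T i).p v) r a z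

/-- The class of a word in the free Burnside group. -/
def cl (ι : Type) (n : ℕ) : FreeGroup ι →* FB ι n := QuotientGroup.mk' (Vn ι n)

/-- Part A3: the tower without word relators has the free Burnside group as its limit. -/
def StPure : Prop :=
  ∀ (ι : Type) (P : Par2) (M1 T0 : ℕ) (T : ℕ → Bst (FreeGroup ι) P.C)
    (Q : ∀ i, (T i).G → (T i).G → ℤ → Prop) (π : ∀ i, (T i).G →* (T (i + 1)).G) (i1 i2 : ι),
    i1 ≠ i2 → P.Ok M1 T0 → TGood P T Q π → Function.Injective (T 0).p →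
    (∀ j : ι, (T 0).d 1 ((T 0).p (FreeGroup.of j)) ≤ 1) → (∀ i S r a, ¬ Q i S r a) →
    LimB T (cl ι P.n) ∧ (∀ x : FB ι P.n, x ^ P.n = 1) ∧ Infinite (FB ι P.n) ∧
    (∀ x : FB ι P.n, x ≠ 1 → {y : FB ι P.n | Commute y x}.Finite) ∧
    ∀ j : ℕ, (cl ι P.n (FreeGroup.of i1)) ^ j = 1 → P.n ∣ j

/-- Part A4: the normal subgroup attached to a pair. -/
def StMix : Prop :=
  ∀ (ι : Type) (P : Par2) (M1 T0 : ℕ) (T : ℕ → Bst (FreeGroup ι) P.C)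
    (Q : ∀ i, (T i).G → (T i).G → ℤ → Prop) (π : ∀ i, (T i).G →* (T (i + 1)).G) (i1 i2 : ι)
    (s : ℕ) (u0 v0 w0 : FreeGroup ι) (a0 : ℤ) (z0 : (T s).G),
    i1 ≠ i2 → P.Ok M1 T0 → TGood P T Q π → Function.Injective (T 0).p →
    (∀ j : ι, (T 0).d 1 ((T 0).p (FreeGroup.of j)) ≤ 1) →
    BD P (T s) ((T s).p u0) ((T s).p v0) ((T s).p w0) a0 z0 →
    (∀ i < s, ∀ S r a, ¬ Q i S r a) →
    (∀ i, s ≤ i → ∀ S r a, Q i S r a ↔ (|a| ≤ (P.k1 : ℤ) ∨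
      (i = s ∧ S = (T i).p u0 ∧ r = (T i).p w0 ∧ a = ((P.k1 : ℤ) + 1) * a0))) →
    (∀ j : ℕ, (cl ι P.n u0) ^ j = 1 → P.n ∣ j) → ¬ Commute (cl ι P.n v0) (cl ι P.n u0) →
    ∃ N : Subgroup (FB ι P.n),
      Sub (FB ι P.n) P.n P.N2 P.h (fun k => ((P.k1 : ℤ) + 1) * P.ex k) (cl ι P.n u0)
        (cl ι P.n v0) N ∧
      ∀ i ≤ s, ∀ (u v : FreeGroup ι) (r z : (T i).G) (a : ℤ),
        BD P (T i) ((T i).p u) ((T i).p v) r a z →
        CjN N (cl ι P.n u) (vv P.N2 (cl ι P.n u) (cl ι P.n v)) (cl ι P.n u0)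
          (vv P.N2 (cl ι P.n u0) (cl ι P.n v0)) →
        ∃ x, x * cl ι P.n u * x⁻¹ = cl ι P.n u0 ∧
          x * vv P.N2 (cl ι P.n u) (cl ι P.n v) * x⁻¹ =
            vv P.N2 (cl ι P.n u0) (cl ι P.n v0)

end Pool.Agent.Helper17.SPL
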