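import Pool.Agent.Helper17.SPL.Cm
import Pool.Agent.Helper17.SPL.TDefs2

/-!
MP_7246d9_al, Part A3: the tower without word relators has the free Burnside group as its
limit.
-/

set_option autoImplicit false

namespace Pool.Agent.Helper17.SPL

open Pool.Agent.Helper74.TB Pool.Agent.Helper74.MH

/-- The homomorphism to `ZMod n` sending every generator to `1`. -/
def abz (ι : Type) (n : ℕ) : FreeGroup ι →* Multiplicative (ZMod n) :=
  FreeGroup.lift (fun _ => Multiplicative.ofAdd (1 : ZMod n))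

theorem Vn_le_ker (ι : Type) (n : ℕ) : Vn ι n ≤ (abz ι n).ker := by
  refine Subgroup.normalClosure_le_normal ?_
  rintro _ ⟨x, rfl⟩
  show abz ι n (x ^ n) = 1
  rw [map_pow]
  apply Multiplicative.toAdd.injective
  rw [toAdd_pow, toAdd_one, nsmul_eq_mul, ZMod.natCast_self, zero_mul]

theorem of_pow_mem {ι : Type} {n : ℕ} {i1 : ι} {j : ℕ}
    (h : FreeGroup.of i1 ^ j ∈ Vn ι n) : n ∣ j := by
  have h1 : abz ι n (FreeGroup.of i1 ^ j) = 1 := Vn_le_ker ι n h
  rw [map_pow, abz, FreeGroup.lift_apply_of] at h1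
  have h2 := congrArg Multiplicative.toAdd h1
  rw [toAdd_pow, toAdd_one, toAdd_ofAdd, nsmul_eq_mul, mul_one] at h2
  exact (ZMod.natCast_eq_zero_iff j n).1 h2

theorem stPure : StTC → StInf → StUB → StKer → StGen → StLimEx → StPure := by
  intro hTC hInf hUB hKer hGen hLim ι P M1 T0 T Q π i1 i2 hne hP hT hinj hd hQ
  have hn : 2 ≤ P.n := by
    have h1 := hP.hqn
    have h2 := hP.hq
    have h3 := hP.hC
    have h4 : P.C * 1 ≤ P.C * P.q := Nat.mul_le_mul_left _ h2
    nlinarith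
  -- the kernels are contained in `Vn`
  have hker1 : ∀ (i : ℕ) (b : FreeGroup ι), (T i).p b = 1 → b ∈ Vn ι P.n := by
    intro i b hb
    exact hKer ι P M1 T0 T Q π i hP hT hinj (fun i' _ => hQ i') b
      (tw_up hT (Nat.le_succ i) hb)
  have hL : LimB T (cl ι P.n) := by
    refine ⟨QuotientGroup.mk'_surjective _, fun b => ?_⟩
    rw [cl, ← MonoidHom.mem_ker, QuotientGroup.ker_mk']
    constructor
    · intro hb
      obtain ⟨D, _, ω, hω⟩ := hLim (FreeGroup ι) P T Q π hT
      have hD := (hTC (FreeGroup ι) P M1 T0 T Q π D ω hP hT hω).2.2.1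
      have hle : Vn ι P.n ≤ ω.ker := by
        refine Subgroup.normalClosure_le_normal ?_
        rintro _ ⟨x, rfl⟩
        show ω (x ^ P.n) = 1
        rw [map_pow, hD]
      exact (hω.ker b).1 (hle hb)
    · rintro ⟨i, hi⟩
      exact hker1 i b hi
  have hT1 := hTC (FreeGroup ι) P M1 T0 T Q π (FB ι P.n) (cl ι P.n) hP hT hL
  have hG := hGen ι P M1 T0 T Q π i1 i2 hne hP hT hinj hd
  refine ⟨hL, hT1.2.2.1, ?_, ?_, ?_⟩
  · refine hInf (FreeGroup ι) P M1 T0 T Q π (FB ι P.n) (cl ι P.n) hP hT hL ?_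
    refine hUB ι P M1 T0 T Q π i1 i2 hne hP hT hinj hd ?_ hG.2
    intro j hj
    refine ⟨(T j).p (FreeGroup.of i1), ?_, ?_⟩
    · exact tw_tor hT hj ((hG.1 P.n).2 (dvd_refl _))
    · intro h1
      have h2 := hker1 j _ h1
      have h3 : FreeGroup.of i1 ^ 1 ∈ Vn ι P.n := by rw [pow_one]; exact h2
      have h4 := Nat.le_of_dvd one_pos (of_pow_mem h3)
      omega
  · exact hT1.2.2.2
  · intro j hj
    rw [← map_pow] at hj
    have h1 : FreeGroup.of i1 ^ j ∈ Vn ι P.n := by
      rw [cl, ← MonoidHom.mem_ker, QuotientGroup.ker_mk'] at hj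
      exact hj
    exact of_pow_mem h1

end Pool.Agent.Helper17.SPL
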