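import Pool.Agent.Helper17.SPL.Cm

/-! MP_7246d9_al, Part T4: short elements are never killed. -/

set_option autoImplicit false

namespace Pool.Agent.Helper17.SPL

open Pool.Agent.Helper74.TB Pool.Agent.Helper74.MH

theorem stSI : StSI := by
  intro B _ P M1 T0 T Q π D _ ω hP hT hL i b z hz hω
  obtain ⟨bz, rfl⟩ := (hT.gd i).surj z
  obtain ⟨j, hj⟩ := (hL.ker b).1 hω
  have hTm := hP.tm.1
  have hΔ : (1 : ℝ) ≤ P.Δ := by exact_mod_cast hP.num.2.2.2.2.2.2.2.1
  have hL2 : (0 : ℝ) ≤ P.L2 := Nat.cast_nonneg _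
  -- descend one stage
  have key : ∀ k : ℕ, (T (i + k)).p b = 1 → (T i).p b = 1 := by
    intro k
    induction k with
    | zero => exact fun h => h
    | succ k ih =>
      intro h
      apply ih
      by_contra hne
      have hker : (T (i + k)).p b ∈ Subgroup.closure ((T (i + k)).F P) := by
        refine ((hT.nx (i + k)).quo.ker _).1 ?_
        rw [(hT.nx (i + k)).comp]
        exact h
      obtain ⟨f, hf, hg⟩ := (hT.gd (i + k)).green _ hker hne ((T (i + k)).p bz)
      have h1 := (T (i + k)).H.lip f (F_sub _ (hT.gd _) hf) ((T (i + k)).p bz)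
        ((T (i + k)).p b * (T (i + k)).p bz)
      have h2 := F_big _ (hT.gd _) hf
      have h3 := tw_d hP hT (Nat.le_add_right i k) bz (b * bz)
      rw [map_mul, map_mul] at h3
      have h4 : ((T (i + k)).d ((T (i + k)).p bz) ((T (i + k)).p b * (T (i + k)).p bz) : ℝ) ≤
          (T i).d ((T i).p bz) ((T i).p b * (T i).p bz) := by exact_mod_cast h3
      linarith
  refine key (max i j - i) ?_
  rw [show i + (max i j - i) = max i j by omega]
  exact tw_up hT (le_max_right i j) hj

end Pool.Agent.Helper17.SPL
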