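import Pool.Agent.Helper17.SPL.TDefs
import Pool.Agent.Helper74.TB.LimA

/-!
MP_7246d9_al: Part T10 of the tower part.  Pairs killed not later than `(u0, v0)` and conjugate
to it in the limit are conjugate at the stage `s + 1`.
-/

set_option autoImplicit false

namespace Pool.Agent.Helper17.SPL

open Pool.Agent.Helper74.TB Pool.Agent.Helper74.MH

section

variable {B : Type} [Group B] {P : Par2} {M1 T0 : ℕ} {T : ℕ → Bst B P.C}
  {Q : ∀ i, (T i).G → (T i).G → ℤ → Prop} {π : ∀ i, (T i).G →* (T (i + 1)).G}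

/-- the values of the constants -/
theorem sht_nums (hP : P.Ok M1 T0) :
    1 ≤ P.C ∧ P.C ≤ P.R ∧ 4 * P.Δ + 2 * P.C ≤ P.R ∧ 1 ≤ P.L ∧ 1 ≤ P.R ∧
      2 * ((2 * (10 ^ 6 * P.L) + 2 : ℕ) : ℝ) ≤ P.Tm := by
  have h1 := hP.hC
  have h2 := hP.hL
  have h3 := hP.hAx
  have h4 := hP.hL1
  have h5 := hP.cst2.hΔ
  have h6 := hP.cst2.cst.hΔ
  have h7 := hP.cst2.cst.hR
  have h8 := hP.cst3.hT
  have h9 : 10 ^ 6 * P.L ≤ P.Ax := le_trans (Nat.le_add_right _ _) h3
  have h10 : 2 * (2 * (10 ^ 6 * P.L) + 2) ≤ 10 ^ 4 * P.Δ := by omega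
  have h11 : ((2 * (2 * (10 ^ 6 * P.L) + 2) : ℕ) : ℝ) ≤ ((10 ^ 4 * P.Δ : ℕ) : ℝ) := by
    exact_mod_cast h10
  have h12 : (0 : ℝ) ≤ P.L2 := Nat.cast_nonneg _
  refine ⟨by omega, by omega, by omega, by omega, by omega, ?_⟩
  push_cast at h11 ⊢
  nlinarith [h8, h11, h12]

theorem sht_comp (hG : TGood P T Q π) (i : ℕ) (b : B) : π i ((T i).p b) = (T (i + 1)).p b :=
  (hG.nx i).comp b

/-- one step contracts -/
theorem sht_one (hG : TGood P T Q π) (i : ℕ) (b b' : B)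
    (h : (T i).d ((T i).p b) ((T i).p b') ≤ P.R) :
    (T (i + 1)).d ((T (i + 1)).p b) ((T (i + 1)).p b') ≤ 1 := by
  have h1 := quo_lip (hG.gd i).stage.toHypG (hG.nx i).quo 1 ((T i).p b) ((T i).p b')
    (by rw [mul_one]; exact h)
  rwa [sht_comp hG, sht_comp hG] at h1

/-- going up does not increase distances -/
theorem sht_mono (hP : P.Ok M1 T0) (hG : TGood P T Q π) {i j : ℕ} (hij : i ≤ j) (b b' : B) :
    (T j).d ((T j).p b) ((T j).p b') ≤ (T i).d ((T i).p b) ((T i).p b') := by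
  obtain ⟨-, -, -, -, hR, -⟩ := sht_nums hP
  induction hij with
  | refl => exact le_refl _
  | @step j _ ih =>
    refine le_trans ?_ ih
    have h1 := quo_lip (hG.gd j).stage.toHypG (hG.nx j).quo ((T j).d ((T j).p b) ((T j).p b'))
      ((T j).p b) ((T j).p b') (Nat.le_mul_of_pos_left _ hR)
    rwa [sht_comp hG, sht_comp hG] at h1

/-- later stages -/
theorem sht_lt (hP : P.Ok M1 T0) (hG : TGood P T Q π) {i j : ℕ} (hij : i < j) (b b' : B)
    (h : (T i).d ((T i).p b) ((T i).p b') ≤ P.R) :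
    (T j).d ((T j).p b) ((T j).p b') ≤ 1 :=
  le_trans (sht_mono hP hG hij b b') (sht_one hG i b b' h)

theorem sht_up (hG : TGood P T Q π) {i j : ℕ} (hij : i ≤ j) {b : B} (h : (T i).p b = 1) :
    (T j).p b = 1 := by
  induction hij with
  | refl => exact h
  | @step j _ ih => rw [← sht_comp hG, ih, map_one]

end

/-- the hom image of `vv` -/
theorem map_vv {B B' : Type*} [Group B] [Group B'] (f : B →* B') (N2 : ℕ) (S g : B) :
    f (vv N2 S g) = vv N2 (f S) (f g) := by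
  unfold vv
  simp only [map_mul, map_inv, map_pow]

/-- displacement of `vv S g` -/
theorem sht_vv {G : Type*} [Group G] {d : G → G → ℕ} {δ : ℕ} (hG : HypG d δ) {N2 C E : ℕ}
    {S g z : G} (h1 : ∀ j : ℤ, d z (S ^ j * z) ≤ C) (h2 : d z (g * z) ≤ E) :
    d z (vv N2 S g * z) ≤ 2 * E + 2 * C := by
  have a1 := h1 1
  have a2 := h1 N2
  rw [zpow_one] at a1
  rw [zpow_natCast] at a2
  have b1 := hG.inv S z (g * z)
  have b2 := hG.inv (S * g) z (S ^ N2 * z)
  have b3 := hG.inv (S * g * S ^ N2 * g⁻¹) (g * z) z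
  have e1 : S * g * S ^ N2 * g⁻¹ * (g * z) = S * g * (S ^ N2 * z) := by group
  have e2 : S * g * S ^ N2 * g⁻¹ * z = vv N2 S g * z := by unfold vv; group
  have e3 : S * (g * z) = S * g * z := by group
  rw [e1, e2] at b3
  rw [e3] at b1
  have c1 := hG.path.tri z (S * z) (vv N2 S g * z)
  have c2 := hG.path.tri (S * z) (S * g * z) (vv N2 S g * z)
  have c3 := hG.path.tri (S * g * z) (S * g * (S ^ N2 * z)) (vv N2 S g * z)
  have c4 := hG.path.symm (g * z) z
  omega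

/-- data of a pair, seen at a later stage -/
theorem sht_bd {B : Type} [Group B] {P : Par2} {M1 T0 : ℕ} {T : ℕ → Bst B P.C}
    {Q : ∀ i, (T i).G → (T i).G → ℤ → Prop} {π : ∀ i, (T i).G →* (T (i + 1)).G}
    (hP : P.Ok M1 T0) (hG : TGood P T Q π) {i j : ℕ} (hij : i < j) {u v : B}
    {r z : (T i).G} {a : ℤ} (hb : BD P (T i) ((T i).p u) ((T i).p v) r a z) :
    ∃ bz : B, (T j).d ((T j).p bz) ((T j).p u * (T j).p bz) ≤ 1 ∧
      (T j).d ((T j).p bz) ((T j).p (vv P.N2 u v) * (T j).p bz) ≤ 1 := by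
  obtain ⟨-, hCR, hΔR, -, -, -⟩ := sht_nums hP
  obtain ⟨bz, rfl⟩ := (hG.gd i).surj z
  have hH : HypG (T i).d 2000 := (hG.gd i).stage.toHypG
  refine ⟨bz, ?_, ?_⟩
  · rw [← map_mul]
    refine sht_lt hP hG hij _ _ ?_
    rw [map_mul]
    have h1 := hb.ctr 1
    rw [zpow_one] at h1
    exact le_trans h1 hCR
  · rw [← map_mul]
    refine sht_lt hP hG hij _ _ ?_
    rw [map_mul, map_vv]
    refine le_trans (sht_vv hH hb.ctr hb.dist) ?_
    omega

theorem stSht : StSI → StTC → StSht := by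
  intro hS hT B _ P M1 T0 T Q π D _ ω s i hP hG hL his u0 v0 u v r0 z0 a0 r z a bd0 bd hx
  obtain ⟨x, hx1, hx2⟩ := hx
  obtain ⟨bx, rfl⟩ := hL.surj x
  obtain ⟨-, -, -, hL1, -, hTm⟩ := sht_nums hP
  have hs0 : s < s + 1 := Nat.lt_succ_self s
  have hs1 : i < s + 1 := Nat.lt_succ_of_le his
  obtain ⟨b0, m0, n0⟩ := sht_bd hP hG hs0 bd0
  obtain ⟨b1, m1, n1⟩ := sht_bd hP hG hs1 bd
  have hSt := (hG.gd (s + 1)).stage
  have hH : HypG (T (s + 1)).d 2000 := hSt.toHypG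
  -- torsion
  have t0 : (T (s + 1)).p u0 ^ P.n = 1 := by
    rw [← map_pow]
    refine sht_up hG (Nat.le_succ s) ?_
    rw [map_pow]
    exact bd0.tor
  have t1 : (T (s + 1)).p u ^ P.n = 1 := by
    rw [← map_pow]
    refine sht_up hG (le_trans his (Nat.le_succ s)) ?_
    rw [map_pow]
    exact bd.tor
  have ne0 : (T (s + 1)).p u0 ≠ 1 := by
    intro h
    refine bd0.ne ((hG.nx s).tors.t1 _ bd0.tor ?_)
    rw [sht_comp hG]
    exact h
  obtain ⟨bt, hbt, ht⟩ := (hT B P M1 T0 T Q π D ω hP hG hL).1 (s + 1) u0 u bx t0 t1 hx1.symm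
  -- the centres are close
  have hcu : (T (s + 1)).d ((T (s + 1)).p b0) ((T (s + 1)).p bt * (T (s + 1)).p b1) <
      10 ^ 6 * P.L := by
    by_contra hcon
    rw [not_lt] at hcon
    refine ne0 (hSt.acylt _ _ _ t0 hcon (le_trans m0 hL1) ?_)
    have e : (T (s + 1)).p u0 * ((T (s + 1)).p bt * (T (s + 1)).p b1) =
        (T (s + 1)).p bt * ((T (s + 1)).p u * (T (s + 1)).p b1) := by
      rw [ht]
      group
    rw [e, hH.inv]
    exact le_trans m1 hL1
  -- the difference of the two values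
  have hk : (T (s + 1)).p ((vv P.N2 u0 v0)⁻¹ * (bt * vv P.N2 u v * bt⁻¹)) = 1 := by
    refine hS B P M1 T0 T Q π D ω hP hG hL (s + 1) _ ((T (s + 1)).p b0) ?_ ?_
    · refine le_trans ?_ hTm
      have hle : (T (s + 1)).d ((T (s + 1)).p b0)
          ((T (s + 1)).p ((vv P.N2 u0 v0)⁻¹ * (bt * vv P.N2 u v * bt⁻¹)) * (T (s + 1)).p b0) ≤
          2 * (10 ^ 6 * P.L) + 2 := by
        simp only [map_mul, map_inv]
        generalize (T (s + 1)).p b0 = c0 at *
        generalize (T (s + 1)).p b1 = c1 at *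
        generalize (T (s + 1)).p bt = t at *
        generalize (T (s + 1)).p (vv P.N2 u0 v0) = V0 at *
        generalize (T (s + 1)).p (vv P.N2 u v) = V at *
        have e1 := hH.inv V0 c0 (V0⁻¹ * (t * V * t⁻¹) * c0)
        have f1 : V0 * (V0⁻¹ * (t * V * t⁻¹) * c0) = t * V * t⁻¹ * c0 := by group
        rw [f1] at e1
        have e2 := hH.inv (t * V * t⁻¹) (t * c1) c0
        have f2 : t * V * t⁻¹ * (t * c1) = t * (V * c1) := by group
        rw [f2] at e2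
        have e3 := hH.inv t c1 (V * c1)
        have g1 := hH.path.tri (V0 * c0) c0 (t * V * t⁻¹ * c0)
        have g2 := hH.path.tri c0 (t * c1) (t * V * t⁻¹ * c0)
        have g3 := hH.path.tri (t * c1) (t * (V * c1)) (t * V * t⁻¹ * c0)
        have s1 := hH.path.symm (V0 * c0) c0
        have s2 := hH.path.symm (t * c1) c0
        omega
      have hle' : (((T (s + 1)).d ((T (s + 1)).p b0)
          ((T (s + 1)).p ((vv P.N2 u0 v0)⁻¹ * (bt * vv P.N2 u v * bt⁻¹)) *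
            (T (s + 1)).p b0) : ℕ) : ℝ) ≤ ((2 * (10 ^ 6 * P.L) + 2 : ℕ) : ℝ) := by
        exact_mod_cast hle
      linarith
    · rw [map_mul, map_inv, ← hx2, map_mul, map_mul, map_inv, hbt, inv_mul_cancel]
  refine ⟨(T (s + 1)).p bt, ht.symm, ?_⟩
  rw [map_mul, map_inv, inv_mul_eq_one, map_mul, map_mul, map_inv] at hk
  exact hk.symm

end Pool.Agent.Helper17.SPL
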