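import Pool.Agent.Helper17.SPL.TDefs2

/-!
MP_7246d9_al, Part T9: simplicity of the limit.
-/

set_option autoImplicit false

namespace Pool.Agent.Helper17.SPL

open Pool.Agent.Helper74.TB Pool.Agent.Helper74.MH

namespace Sim

/-! ### words -/

theorem map_ww {B G : Type*} [Group B] [Group G] (p : B →* G) (u w : B) (a : ℤ) (h : ℕ)
    (e : ℕ → ℤ) : p (ww u w a h e) = ww (p u) (p w) a h e := by
  unfold ww
  rw [map_list_prod, List.map_map]
  congr 1
  refine List.map_congr_left fun k _ => ?_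
  rw [Function.comp_apply, map_mul, map_zpow]

theorem map_vv {B G : Type*} [Group B] [Group G] (p : B →* G) (N2 : ℕ) (u w : B) :
    p (vv N2 u w) = vv N2 (p u) (p w) := by
  unfold vv
  simp

/-- the sum of the exponents -/
def sm (h : ℕ) (e : ℕ → ℤ) : ℤ := ((List.range h).map e).sum

theorem ww_pow {G : Type*} [Group G] (γ ρ : G) (a c : ℤ) (h : ℕ) (e : ℕ → ℤ)
    (hρ : ρ ^ a = γ ^ c) : ww γ ρ a h e = γ ^ ((h : ℤ) + c * sm h e) := by
  unfold ww sm
  induction h with
  | zero => simp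
  | succ h ih =>
    rw [List.range_succ, List.map_append, List.prod_append, ih, List.map_append, List.sum_append]
    simp only [List.map_cons, List.map_nil, List.prod_cons, List.prod_nil, mul_one,
      List.sum_cons, List.sum_nil, add_zero]
    rw [zpow_mul, hρ, ← zpow_mul, ← zpow_one_add, ← zpow_add]
    congr 1
    push_cast
    ring

/-! ### metric lemmas -/

section Met

variable {G : Type*} [Group G] {d : G → G → ℕ}

/-- (G5) a torsion element moves the points far from a centre a lot -/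
theorem far {δ n q A L C : ℕ} (hS : Stage d δ n q A L) {c : G} (hc : c ^ n = 1) (h1 : c ≠ 1)
    {w x : G} (hw : d w (c * w) ≤ C) (hCL : C + 4 * δ ≤ L) (hA : 4 * δ + 1 ≤ A)
    (hwx : d w x = 10 * A) : 17 * A ≤ d x (c * x) := by
  have hG : HypG d δ := hS.toHypG
  by_contra hcon
  push Not at hcon
  obtain ⟨p, hp1, hp2⟩ := hG.path.geod w x A (by omega)
  have hp3 : d w p + d p x = d w x := hp1
  have e1 : d (c * w) (c * p) = d w p := hG.inv _ _ _
  have e2 : d (c * p) (c * x) = d p x := hG.inv _ _ _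
  have e3 : d (c * w) (c * x) = d w x := hG.inv _ _ _
  have s1 := hG.path.symm (c * p) p
  have s2 := hG.path.symm (c * p) w
  have s3 := hG.path.symm (c * p) x
  have s4 := hG.path.symm x w
  have s5 := hG.path.symm (c * w) x
  have s6 := hG.path.symm (c * w) (c * p)
  have t1 := hG.path.tri w (c * w) (c * p)
  have t2 := hG.path.tri x w (c * w)
  have hp4 : d p (c * p) ≤ C + 4 * δ := by
    rcases hb_btw_le hG hp3 (c * p) with h | h
    · omega
    · have h5 : d (c * w) (c * p) + d (c * p) (c * x) = d (c * w) (c * x) := by omega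
      rcases hb_btw_le hG h5 x with h6 | h6
      · omega
      · omega
  exact h1 (hS.acylt c w p hc (by omega) (by omega) (by omega))

theorem pt_far {δ n q A L : ℕ} (hS : Stage d δ n q A L) (hq : 1 ≤ q)
    (hu : ∃ g : G, g ^ n ≠ 1) (x : G) (k : ℕ) : ∃ w, d x w = k := by
  obtain ⟨g, hg⟩ := hu
  have h1 := (hS.tor g).resolve_left hg x (q * k)
  have h2 : k ≤ d x (g ^ (q * k) * x) := Nat.le_of_mul_le_mul_left h1 (by omega)
  obtain ⟨w, -, hw⟩ := hS.toHypG.path.geod x _ k h2
  exact ⟨w, hw⟩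

end Met

/-! ### the tower -/

section Tow

variable {B : Type} [Group B] {P : Par2} {T : ℕ → Bst B P.C}
  {Q : ∀ i, (T i).G → (T i).G → ℤ → Prop} {π : ∀ i, (T i).G →* (T (i + 1)).G}

theorem step1 (hT : TGood P T Q π) (i : ℕ) (b1 b2 : B)
    (h : (T i).d ((T i).p b1) ((T i).p b2) ≤ P.R) :
    (T (i + 1)).d ((T (i + 1)).p b1) ((T (i + 1)).p b2) ≤ 1 := by
  rw [(hT.nx i).quo.adj]
  exact ⟨_, _, (hT.nx i).comp b1, (hT.nx i).comp b2, Or.inl h⟩

theorem steps (hT : TGood P T Q π) (hR : 1 ≤ P.R) (i : ℕ) (b1 b2 : B)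
    (h : (T i).d ((T i).p b1) ((T i).p b2) ≤ P.R) (j : ℕ) (hj : i < j) :
    (T j).d ((T j).p b1) ((T j).p b2) ≤ 1 := by
  induction j with
  | zero => omega
  | succ j ih =>
    rcases Nat.lt_or_ge i j with h1 | h1
    · exact step1 hT j b1 b2 ((ih h1).trans hR)
    · obtain rfl : i = j := by omega
      exact step1 hT i b1 b2 h

theorem p_one (hT : TGood P T Q π) {i j : ℕ} (hij : i ≤ j) {b : B} (h : (T i).p b = 1) :
    (T j).p b = 1 := by
  induction j, hij using Nat.le_induction with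
  | base => exact h
  | succ j _ ih => rw [← (hT.nx j).comp, ih, map_one]

theorem p_eq {D : Type} [Group D] {ω : B →* D} (hω : LimB T ω) {i : ℕ} {b b' : B}
    (h : (T i).p b = (T i).p b') : ω b = ω b' := by
  have h1 : ω (b * b'⁻¹) = 1 := by
    rw [hω.ker]
    exact ⟨i, by rw [map_mul, map_inv, h, mul_inv_cancel]⟩
  rw [map_mul, map_inv] at h1
  exact mul_inv_eq_one.1 h1

end Tow

end Sim

open Sim

theorem stSim : StDB → StSI → StTC → StWK → StSim := by
  intro hDB hSI hTC hWK B _ P M1 T0 T Q π D _ ω s hOk hT hω hub hQ M hM hMb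
  -- constants
  have k1 := hOk.hC
  have k2 := hOk.hL
  have k3 := hOk.hAx
  have k4 := hOk.hL1
  have k5 := hOk.cst2.hΔ
  have k6 := hOk.cst2.cst.hR
  have k7 := hOk.cst2.hAx
  have k8 := hOk.cst2.cst.hcT
  have k9 : 10 ^ 6 * P.L ≤ P.Ax := by
    have : 0 ≤ 10 ^ 5 * P.q * P.L * P.C := Nat.zero_le _
    omega
  have hR1 : 1 ≤ P.R := by omega
  set A : ℕ := 10 ^ 6 * P.L with hA
  have hAD : 300 * A ≤ P.Δ := by omega
  have hAT : (100 * A : ℝ) ≤ P.Tm := by
    have h1 : (300 * A : ℝ) ≤ P.Δ := by exact_mod_cast hAD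
    have h2 : (0 : ℝ) ≤ P.Δ := Nat.cast_nonneg _
    push_cast at k8
    linarith
  obtain ⟨tc1, tc2, tc3, -⟩ := hTC B P M1 T0 T Q π D ω hOk hT hω
  have hSI' := hSI B P M1 T0 T Q π D ω hOk hT hω
  -- elements
  obtain ⟨y, hyM, hy1⟩ := (Subgroup.bot_or_exists_ne_one M).resolve_left hMb
  rw [eq_top_iff]
  rintro c -
  by_cases hc1 : c = 1
  · rw [hc1]; exact M.one_mem
  obtain ⟨by_, hby⟩ := hω.surj y
  obtain ⟨bc, hbc⟩ := hω.surj c
  obtain ⟨i1, hi1⟩ := tc2 by_
  obtain ⟨i2, hi2⟩ := tc2 bc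
  set j : ℕ := max (s + 1) (max i1 i2) with hj
  have hjs : s + 1 ≤ j := le_max_left _ _
  have hj1 : i1 ≤ j := (le_max_left _ _).trans (le_max_right _ _)
  have hj2 : i2 ≤ j := (le_max_right _ _).trans (le_max_right _ _)
  have hyt := (hi1 j hj1).1
  have hct := (hi2 j hj2).1
  have hgd := hT.gd j
  have hSt := hgd.stage
  have hG := hSt.toHypG
  have hyj : (T j).p by_ ≠ 1 := by
    intro h
    exact hy1 (by rw [← hby, hω.ker]; exact ⟨j, h⟩)
  have hcj : (T j).p bc ≠ 1 := by
    intro h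
    exact hc1 (by rw [← hbc, hω.ker]; exact ⟨j, h⟩)
  obtain ⟨xy, hxy⟩ := hgd.alg.ctr _ hyt
  obtain ⟨xc, hxc⟩ := hgd.alg.ctr _ hct
  obtain ⟨w, hw⟩ := pt_far hSt hOk.hq (hub j) xc (10 * A)
  obtain ⟨bz, hbz⟩ := hgd.surj (w * xy⁻¹)
  set b' : B := bz * by_ * bz⁻¹ with hb'
  set y' : (T j).G := (T j).p b' with hy'
  have hy'e : y' = (T j).p bz * (T j).p by_ * ((T j).p bz)⁻¹ := by
    rw [hy', hb', map_mul, map_mul, map_inv]
  have hwx : (T j).p bz * xy = w := by rw [hbz]; group
  have hy't : y' ^ P.n = 1 := by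
    rw [hy'e, conj_pow, hyt, mul_one, mul_inv_cancel]
  have hy'1 : y' ≠ 1 := by
    intro h
    rw [hy'e] at h
    exact hyj (by simpa using h)
  have hwc : (T j).d w (y' * w) ≤ P.C := by
    have h1 := hxy 1
    rw [zpow_one] at h1
    have h2 : y' * w = (T j).p bz * ((T j).p by_ * xy) := by
      rw [hy'e, ← hwx]; group
    rw [h2, ← hwx, hG.inv]
    exact h1
  have hwx' : (T j).d w xc = 10 * A := by rw [hG.path.symm]; exact hw
  have hlow : 17 * A ≤ (T j).d xc (y' * xc) :=
    far (C := P.C) hSt hy't hy'1 hwc (by omega) (by omega) hwx'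
  have hup : (T j).d xc (y' * xc) ≤ 20 * A + P.C := by
    have h1 := hG.path.tri xc w (y' * xc)
    have h2 := hG.path.tri w (y' * w) (y' * xc)
    have h3 := hG.inv y' w xc
    omega
  have hcx : (T j).d xc ((T j).p bc * xc) ≤ P.C := by
    have h1 := hxc 1
    rwa [zpow_one] at h1
  set η : D := ω b' with hη
  have hηM : η ∈ M := by
    rw [hη, hb', map_mul, map_mul, map_inv, hby]
    exact hM.conj_mem y hyM _
  -- they do not commute
  have hnc : ¬ Commute η c := by
    intro hcomm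
    have h1 : ω (b' * bc * b'⁻¹ * bc⁻¹) = 1 := by
      rw [map_mul, map_mul, map_mul, map_inv, map_inv, hbc, ← hη, hcomm.eq]
      group
    have h2 : (T j).d xc ((T j).p (b' * bc * b'⁻¹ * bc⁻¹) * xc) ≤ 50 * A := by
      have e0 : (T j).p (b' * bc * b'⁻¹ * bc⁻¹) * xc =
          y' * ((T j).p bc * (y'⁻¹ * (((T j).p bc)⁻¹ * xc))) := by
        rw [map_mul, map_mul, map_mul, map_inv, map_inv, ← hy']; group
      rw [e0]
      set cj := (T j).p bc with hcjd
      have t1 := hG.path.tri xc (y' * xc) (y' * (cj * (y'⁻¹ * (cj⁻¹ * xc))))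
      have t2 := hG.inv y' xc (cj * (y'⁻¹ * (cj⁻¹ * xc)))
      have t3 := hG.path.tri xc (cj * xc) (cj * (y'⁻¹ * (cj⁻¹ * xc)))
      have t4 := hG.inv cj xc (y'⁻¹ * (cj⁻¹ * xc))
      have t5 := hG.path.tri xc (y'⁻¹ * xc) (y'⁻¹ * (cj⁻¹ * xc))
      have t6 := hG.inv y'⁻¹ xc (cj⁻¹ * xc)
      have t7 : (T j).d xc (y'⁻¹ * xc) = (T j).d xc (y' * xc) := by
        have := hG.inv y' xc (y'⁻¹ * xc)
        rw [mul_inv_cancel_left] at this
        rw [← this, hG.path.symm]
      have t8 : (T j).d xc (cj⁻¹ * xc) = (T j).d xc (cj * xc) := by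
        have := hG.inv cj xc (cj⁻¹ * xc)
        rw [mul_inv_cancel_left] at this
        rw [← this, hG.path.symm]
      omega
    have h3 : (T j).p (b' * bc * b'⁻¹ * bc⁻¹) = 1 := by
      refine hSI' j _ xc ?_ h1
      have h4 : ((T j).d xc ((T j).p (b' * bc * b'⁻¹ * bc⁻¹) * xc) : ℝ) ≤ 50 * A := by
        exact_mod_cast h2
      linarith
    have h5 : y' * (T j).p bc = (T j).p bc * y' := by
      rw [map_mul, map_mul, map_mul, map_inv, map_inv, ← hy'] at h3
      have h6 : y' * (T j).p bc * y'⁻¹ = (T j).p bc := mul_inv_eq_one.1 h3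
      calc y' * (T j).p bc = (y' * (T j).p bc * y'⁻¹) * y' := by group
        _ = (T j).p bc * y' := by rw [h6]
    have h6 : (T j).d (y' * xc) ((T j).p bc * (y' * xc)) ≤ P.C := by
      rw [← mul_assoc, ← h5, mul_assoc, hG.inv]
      exact hcx
    exact hcj (hSt.acylt _ xc (y' * xc) hct (by omega) (by omega) (by omega))
  obtain ⟨i, u, v, r, a, z, hu, hv, hBD⟩ := hDB B P M1 T0 T Q π D ω hOk hT hω c η hc1 hnc
  obtain ⟨bv, hbv⟩ := (hT.gd i).surj z
  rcases Nat.lt_or_ge i s with his | his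
  · -- the pair is killed too early
    exfalso
    have hij : i < j := by omega
    have hut : (T j).p u ^ P.n = 1 := by
      have h1 : (T i).p (u ^ P.n) = 1 := by rw [map_pow]; exact hBD.tor
      rw [← map_pow]
      exact p_one hT hij.le h1
    obtain ⟨bt, hbt1, hbt2⟩ := tc1 j bc u 1 hct hut (by rw [hbc, hu, map_one]; group)
    rw [map_one] at hbt1
    set t : (T j).G := (T j).p bt with ht
    set zb : (T j).G := (T j).p bv with hzb
    have hz1 : (T j).d zb ((T j).p u * zb) ≤ 1 := by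
      have h1 := hBD.ctr 1
      rw [zpow_one, ← hbv, ← map_mul] at h1
      have h2 := steps hT hR1 i bv (u * bv) (by omega) j hij
      rwa [map_mul] at h2
    have hz2 : (T j).d zb ((T j).p v * zb) ≤ 1 := by
      have h1 := hBD.dist
      rw [← hbv, ← map_mul] at h1
      have h2 := steps hT hR1 i bv (v * bv) (by omega) j hij
      rwa [map_mul] at h2
    have hz3 : (T j).d (t * zb) ((T j).p bc * (t * zb)) ≤ 1 := by
      rw [hbt2]
      have e : t * (T j).p u * t⁻¹ * (t * zb) = t * ((T j).p u * zb) := by group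
      rw [e, hG.inv]
      exact hz1
    have hz4 : (T j).d xc (t * zb) < A := by
      by_contra hcon
      exact hcj (hSt.acylt _ xc (t * zb) hct (by omega) (by omega) (by omega))
    have hz5 : (T j).d xc (t * (T j).p v * t⁻¹ * xc) ≤ 2 * A + 1 := by
      have t1 := hG.path.tri xc (t * zb) (t * (T j).p v * t⁻¹ * xc)
      have t2 := hG.path.tri (t * zb) (t * ((T j).p v * zb)) (t * (T j).p v * t⁻¹ * xc)
      have t3 := hG.inv t zb ((T j).p v * zb)
      have t4 : (T j).d (t * ((T j).p v * zb)) (t * (T j).p v * t⁻¹ * xc) =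
          (T j).d (t * zb) xc := by
        have e1 : t * ((T j).p v * zb) = (t * (T j).p v * t⁻¹) * (t * zb) := by group
        rw [e1, hG.inv]
      have t5 := hG.path.symm (t * zb) xc
      omega
    have h1 : ω (b'⁻¹ * (bt * v * bt⁻¹)) = 1 := by
      rw [map_mul, map_mul, map_mul, map_inv, map_inv, hbt1, hv, ← hη]
      group
    have h2 : (T j).d xc ((T j).p (b'⁻¹ * (bt * v * bt⁻¹)) * xc) ≤ 50 * A := by
      have e0 : (T j).p (b'⁻¹ * (bt * v * bt⁻¹)) * xc = y'⁻¹ * (t * (T j).p v * t⁻¹ * xc) := by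
        rw [map_mul, map_mul, map_mul, map_inv, map_inv, ← hy', ← ht]; group
      rw [e0]
      have t1 := hG.inv y' xc (y'⁻¹ * (t * (T j).p v * t⁻¹ * xc))
      rw [mul_inv_cancel_left] at t1
      have t2 := hG.path.tri (y' * xc) xc (t * (T j).p v * t⁻¹ * xc)
      have t3 := hG.path.symm (y' * xc) xc
      omega
    have h3 : (T j).p (b'⁻¹ * (bt * v * bt⁻¹)) = 1 := by
      refine hSI' j _ xc ?_ h1
      have h4 : ((T j).d xc ((T j).p (b'⁻¹ * (bt * v * bt⁻¹)) * xc) : ℝ) ≤ 50 * A := by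
        exact_mod_cast h2
      linarith
    have h5 : t * (T j).p v * t⁻¹ = y' := by
      rw [map_mul, map_mul, map_mul, map_inv, map_inv, ← hy'] at h3
      exact (inv_mul_eq_one.1 h3).symm
    rw [h5] at hz5
    omega
  · -- the words of the pair are killed
    obtain ⟨bw, hbw⟩ := (hT.gd i).surj r
    have hval : (T i).p (vv P.N2 u v) = (T i).p (bw ^ a) := by
      rw [map_vv, map_zpow, hbw]
      exact hBD.val
    have hval2 : vv P.N2 c η = ω bw ^ a := by
      have := p_eq hω hval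
      rw [map_vv, map_zpow, hu, hv] at this
      exact this
    have hkm : (P.k1 : ℤ) ≤ P.km := by
      have : P.k1 ≤ P.km := by
        unfold Par2.km
        nlinarith [Nat.zero_le P.k1]
      exact_mod_cast this
    have hpair : ∀ e : ℤ, e = a ∨ e = -a →
        ω (ww u bw e P.h P.ex) = 1 := by
      intro e he
      have hea : |e| = |a| := by
        rcases he with rfl | rfl
        · rfl
        · exact abs_neg a
      have he0 : e ≠ 0 := by
        rcases he with rfl | rfl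
        · exact hBD.a0
        · exact neg_ne_zero.2 hBD.a0
      refine hWK B P M1 T0 T Q π D ω hOk hT hω i u bw e ?_ ?_
      · rw [hbw]
        exact
          { tor := hBD.tor
            ne := hBD.ne
            a0 := he0
            ak := by rw [hea]; exact hBD.ak.trans hkm
            fp := hBD.fp
            cen := hBD.cen
            near := ⟨z, hBD.ctr, hBD.near⟩ }
      · exact hQ i his _ _ _ (by rw [hea]; exact hBD.ak)
    set γ : D ⧸ M := QuotientGroup.mk' M c with hγ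
    have hg1 : QuotientGroup.mk' M η = 1 := (QuotientGroup.eq_one_iff η).2 hηM
    have hg2 : (QuotientGroup.mk' M (ω bw)) ^ a = γ ^ (1 + (P.N2 : ℤ)) := by
      rw [← map_zpow, ← hval2, map_vv, hg1, ← hγ]
      unfold vv
      rw [one_mul, inv_one, mul_one, zpow_add, zpow_one, zpow_natCast]
    have hg3 : (QuotientGroup.mk' M (ω bw)) ^ (-a) = γ ^ (-(1 + (P.N2 : ℤ))) := by
      rw [zpow_neg, hg2, zpow_neg]
    have h1 := congrArg (QuotientGroup.mk' M) (hpair a (Or.inl rfl))
    have h2 := congrArg (QuotientGroup.mk' M) (hpair (-a) (Or.inr rfl))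
    rw [map_ww, map_ww, hu, ← hγ, ww_pow γ _ a _ _ _ hg2, map_one] at h1
    rw [map_ww, map_ww, hu, ← hγ, ww_pow γ _ (-a) _ _ _ hg3, map_one] at h2
    have h3 : γ ^ (2 * P.h) = 1 := by
      have h4 : γ ^ ((2 * P.h : ℕ) : ℤ) = 1 := by
        have h5 : ((2 * P.h : ℕ) : ℤ) = ((P.h : ℤ) + (1 + (P.N2 : ℤ)) * sm P.h P.ex) +
            ((P.h : ℤ) + (-(1 + (P.N2 : ℤ))) * sm P.h P.ex) := by
          push_cast; ring
        rw [h5, zpow_add, h1, h2, mul_one]
      rwa [zpow_natCast] at h4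
    have h4 : γ ^ P.n = 1 := by
      rw [hγ, ← map_pow, tc3, map_one]
    have h5 : Nat.Coprime (2 * P.h) P.n := by
      refine Nat.Coprime.mul_left ?_ hOk.hh
      exact Nat.coprime_two_left.2 hOk.cst2.odd
    have h6 : γ = 1 := by
      have h7 : orderOf γ ∣ Nat.gcd (2 * P.h) P.n :=
        Nat.dvd_gcd (orderOf_dvd_of_pow_eq_one h3) (orderOf_dvd_of_pow_eq_one h4)
      rw [h5] at h7
      exact orderOf_eq_one_iff.1 (Nat.dvd_one.1 h7)
    exact (QuotientGroup.eq_one_iff c).1 h6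

end Pool.Agent.Helper17.SPL
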