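import Pool.Agent.Helper17.SPL.TDefs2
import Pool.Agent.Helper74.TB.LimA

/-!
MP_7246d9_al, Part T5: torsion and centralizers in the limit.
-/

set_option autoImplicit false

namespace Pool.Agent.Helper17.SPL

open Pool.Agent.Helper74.TB Pool.Agent.Helper74.MH

namespace TC

section

variable {B : Type} [Group B] {P : Par2} {M1 T0 : ℕ} {T : ℕ → Bst B P.C}
  {Q : ∀ i, (T i).G → (T i).G → ℤ → Prop} {π : ∀ i, (T i).G →* (T (i + 1)).G}
  {D : Type} [Group D] {ω : B →* D}

theorem up (hT : TGood P T Q π) {i j : ℕ} (hij : i ≤ j) {b : B} (h : (T i).p b = 1) :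
    (T j).p b = 1 := by
  induction j, hij using Nat.le_induction with
  | base => exact h
  | succ j _ ih => rw [← (hT.nx j).comp, ih, map_one]

theorem up_eq (hT : TGood P T Q π) {i j : ℕ} (hij : i ≤ j) {b b' : B}
    (h : (T i).p b = (T i).p b') : (T j).p b = (T j).p b' := by
  induction j, hij using Nat.le_induction with
  | base => exact h
  | succ j _ ih => rw [← (hT.nx j).comp, ih, (hT.nx j).comp]

theorem one (hL : LimB T ω) {i : ℕ} {b : B} (h : (T i).p b = 1) : ω b = 1 :=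
  (hL.ker b).2 ⟨i, h⟩

theorem eq (hL : LimB T ω) {i : ℕ} {b b' : B} (h : (T i).p b = (T i).p b') : ω b = ω b' := by
  have h1 : (T i).p (b⁻¹ * b') = 1 := by
    rw [map_mul, map_inv, h, inv_mul_cancel]
  have h2 := one hL h1
  rw [map_mul, map_inv] at h2
  exact inv_mul_eq_one.1 h2

theorem tc (hT : TGood P T Q π) (hL : LimB T ω) (i : ℕ) (bg bh z : B)
    (hg : ((T i).p bg) ^ P.n = 1) (hh : ((T i).p bh) ^ P.n = 1)
    (he : ω bg = ω z * ω bh * (ω z)⁻¹) :
    ∃ bt : B, ω bt = ω z ∧ (T i).p bg = (T i).p bt * (T i).p bh * ((T i).p bt)⁻¹ := by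
  have h1 : ω (bg⁻¹ * (z * bh * z⁻¹)) = 1 := by
    rw [map_mul, map_mul, map_mul, map_inv, map_inv, he, inv_mul_cancel]
  obtain ⟨j, hj⟩ := (hL.ker _).1 h1
  have h2 : (T (max i j)).p (bg⁻¹ * (z * bh * z⁻¹)) = 1 := up hT (le_max_right i j) hj
  have h3 : (T (max i j)).p bg =
      (T (max i j)).p z * (T (max i j)).p bh * ((T (max i j)).p z)⁻¹ := by
    rw [map_mul, map_mul, map_mul, map_inv, map_inv] at h2
    exact inv_mul_eq_one.1 h2
  have key : ∀ k : ℕ, (∃ bt : B, ω bt = ω z ∧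
      (T (i + k)).p bg = (T (i + k)).p bt * (T (i + k)).p bh * ((T (i + k)).p bt)⁻¹) →
      ∃ bt : B, ω bt = ω z ∧ (T i).p bg = (T i).p bt * (T i).p bh * ((T i).p bt)⁻¹ := by
    intro k
    induction k with
    | zero => exact fun h => h
    | succ k ih =>
      rintro ⟨bt, e1, e2⟩
      apply ih
      have g1 : ((T (i + k)).p bg) ^ P.n = 1 := by
        rw [← map_pow]
        rw [← map_pow] at hg
        exact up hT (Nat.le_add_right i k) hg
      have g2 : ((T (i + k)).p bh) ^ P.n = 1 := by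
        rw [← map_pow]
        rw [← map_pow] at hh
        exact up hT (Nat.le_add_right i k) hh
      have e3 : π (i + k) ((T (i + k)).p bg) = (T (i + k + 1)).p bt *
          π (i + k) ((T (i + k)).p bh) * ((T (i + k + 1)).p bt)⁻¹ := by
        rw [(hT.nx (i + k)).comp, (hT.nx (i + k)).comp]
        exact e2
      obtain ⟨t, ht1, ht2⟩ := (hT.nx (i + k)).tors.t11 _ _ g1 g2 _ e3
      obtain ⟨b', hb'⟩ := (hT.gd (i + k)).surj t
      refine ⟨b', ?_, ?_⟩
      · rw [← e1]
        refine eq hL (i := i + k + 1) ?_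
        rw [← (hT.nx (i + k)).comp, hb', ht1]
      · rw [hb']
        exact ht2
  have h4 : max i j = i + (max i j - i) := by omega
  refine key (max i j - i) ⟨z, rfl, ?_⟩
  rw [← h4]
  exact h3

/-- distances at most `R` become at most `1` -/
theorem lip1 (hT : TGood P T Q π) (i : ℕ) (x y : (T i).G) (h : (T i).d x y ≤ P.R) :
    (T (i + 1)).d (π i x) (π i y) ≤ 1 :=
  quo_lip (hT.gd i).stage.toHypG (hT.nx i).quo 1 x y (by rw [mul_one]; exact h)

theorem ok_R (hP : P.Ok M1 T0) : 2 ≤ P.R := by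
  have c1 := hP.cst2.cst.hR
  have c2 := hP.cst2.cst.hΔ
  have c3 := hP.cst2.cst.hC
  omega

theorem ok_L1 (hP : P.Ok M1 T0) : 1 ≤ P.L1 := by
  have c3 := hP.cst2.cst.hC
  have d1 := hP.hL
  have d2 := hP.cst2.hL1
  omega

/-- distances at most `1` remain so -/
theorem short_up (hP : P.Ok M1 T0) (hT : TGood P T Q π) {i j : ℕ} (hij : i ≤ j) {b b' : B}
    (h : (T i).d ((T i).p b) ((T i).p b') ≤ 1) : (T j).d ((T j).p b) ((T j).p b') ≤ 1 := by
  induction j, hij using Nat.le_induction with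
  | base => exact h
  | succ j _ ih =>
    rw [← (hT.nx j).comp, ← (hT.nx j).comp]
    refine lip1 hT j _ _ (ih.trans ?_)
    have := ok_R hP
    omega

/-- distances are eventually at most `1` -/
theorem short_ev (hP : P.Ok M1 T0) (hT : TGood P T Q π) (b b' : B) :
    ∃ i, ∀ j, i ≤ j → (T j).d ((T j).p b) ((T j).p b') ≤ 1 := by
  have hR := ok_R hP
  have key : ∀ N : ℕ, ∀ i : ℕ, (T i).d ((T i).p b) ((T i).p b') ≤ N →
      ∃ i, (T i).d ((T i).p b) ((T i).p b') ≤ 1 := by
    intro N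
    induction N with
    | zero =>
      intro i h
      exact ⟨i, by omega⟩
    | succ N ih =>
      intro i h
      by_cases hs : (T i).d ((T i).p b) ((T i).p b') ≤ 1
      · exact ⟨i, hs⟩
      · refine ih (i + 1) ?_
        have h1 := quo_lip (hT.gd i).stage.toHypG (hT.nx i).quo N ((T i).p b) ((T i).p b') (by
          have : 2 * N ≤ P.R * N := Nat.mul_le_mul_right _ hR
          omega)
        rw [(hT.nx i).comp, (hT.nx i).comp] at h1
        exact h1
  obtain ⟨i, hi⟩ := key _ 0 le_rfl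
  exact ⟨i, fun j hj => short_up hP hT hj hi⟩

/-- short elements are torsion at the next stage -/
theorem short_tor (hT : TGood P T Q π) (i : ℕ) (g : (T i).G) (x : (T i).G)
    (h : (T i).d x (g * x) ≤ P.L1) : (π i g) ^ P.n = 1 := by
  by_cases ht : g ^ P.n = 1
  · rw [← map_pow, ht, map_one]
  · obtain ⟨f, hf, hc⟩ := (hT.gd i).rels.short _ ht ⟨x, h⟩
    obtain ⟨m, hm⟩ := (hT.gd i).rels.cent f hf _ hc
    have h1 : π i f = 1 := ((hT.nx i).quo.ker f).2 (Subgroup.subset_closure hf)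
    rw [← map_pow, hm, map_zpow, h1, one_zpow]

theorem tor_up (hT : TGood P T Q π) {i j : ℕ} (hij : i ≤ j) {b : B}
    (h : (T i).p b ^ P.n = 1) : (T j).p b ^ P.n = 1 := by
  rw [← map_pow] at h ⊢
  exact up hT hij h

theorem ev (hP : P.Ok M1 T0) (hT : TGood P T Q π) (b : B) :
    ∃ i, ∀ j, i ≤ j → (T j).p b ^ P.n = 1 ∧ (T j).d 1 ((T j).p b) ≤ 1 := by
  obtain ⟨i, hi⟩ := short_ev hP hT 1 b
  have h0 : (T i).d 1 ((T i).p b * 1) ≤ P.L1 := by
    have h1 := hi i le_rfl
    rw [map_one] at h1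
    rw [mul_one]
    exact h1.trans (ok_L1 hP)
  have h1 := short_tor hT i _ _ h0
  rw [(hT.nx i).comp] at h1
  refine ⟨i + 1, fun j hj => ⟨tor_up hT hj h1, ?_⟩⟩
  have h2 := hi j (by omega)
  rw [map_one] at h2
  exact h2

/-- An element commuting with the value of a torsion element is the value of an element of its
centralizer. -/
theorem comm (hT : TGood P T Q π) (hL : LimB T ω) {i : ℕ} {b z : B}
    (hb : ((T i).p b) ^ P.n = 1) (hz : Commute (ω z) (ω b)) :
    ∃ bt : B, ω bt = ω z ∧ Commute ((T i).p bt) ((T i).p b) := by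
  obtain ⟨bt, h1, h2⟩ := tc hT hL i b b z hb hb (by
    rw [hz.eq, mul_inv_cancel_right])
  refine ⟨bt, h1, ?_⟩
  have h3 : (T i).p b * (T i).p bt = (T i).p bt * (T i).p b := by
    nth_rewrite 1 [h2]
    rw [inv_mul_cancel_right]
  exact h3.symm

end

end TC

theorem stTC : StTC := by
  intro B _ P M1 T0 T Q π D _ ω hP hT hL
  have hn : 1 ≤ P.n := by
    have := hP.cst2.hn
    omega
  have hexp : ∀ z : D, z ^ P.n = 1 := by
    intro z
    obtain ⟨b, rfl⟩ := hL.surj z
    obtain ⟨i, hi⟩ := TC.ev hP hT b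
    have h1 := (hi i le_rfl).1
    rw [← map_pow] at h1 ⊢
    exact TC.one hL h1
  refine ⟨?_, fun b => TC.ev hP hT b, hexp, ?_⟩
  · intro i bg bh z hg hh he
    exact TC.tc hT hL i bg bh z hg hh he
  · intro S hS
    obtain ⟨b, rfl⟩ := hL.surj S
    obtain ⟨i, hi0⟩ := TC.ev hP hT b
    have hi := (hi0 i le_rfl).1
    have hb1 : (T i).p b ≠ 1 := fun h => hS (TC.one hL h)
    obtain ⟨c, hc⟩ := (hT.gd i).stage.cyc _ hi hb1
    obtain ⟨bc, rfl⟩ := (hT.gd i).surj c
    have hfin : ((Subgroup.zpowers (ω bc) : Subgroup D) : Set D).Finite := by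
      have h1 : IsOfFinOrder (ω bc) := isOfFinOrder_iff_pow_eq_one.2 ⟨P.n, hn, hexp _⟩
      exact h1.finite_zpowers
    refine hfin.subset fun x hx => ?_
    have hx' : Commute x (ω b) := hx
    obtain ⟨bx, rfl⟩ := hL.surj x
    obtain ⟨bt, h1, h2⟩ := TC.comm hT hL hi hx'
    obtain ⟨k, hk⟩ := Subgroup.mem_zpowers_iff.1 (hc _ h2)
    rw [← h1]
    refine Subgroup.mem_zpowers_iff.2 ⟨k, ?_⟩
    rw [← map_zpow] at hk ⊢
    exact TC.eq hL hk

end Pool.Agent.Helper17.SPL
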