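import Pool.Agent.Helper17.SPL.TDefs

/-! MP_7246d9_al, Part T8: every stage has an element of infinite order. -/

set_option autoImplicit false

namespace Pool.Agent.Helper17.SPL

open Pool.Agent.Helper74.TB Pool.Agent.Helper74.MH

namespace UB

/-- relators have infinite order -/
theorem rel_zpow_ne {G : Type*} [Group G] {d : G → G → ℕ} {X : Set G} {C : ℕ} (H : Hubs d X C)
    (hC : 1 ≤ C) {f : G} (hf : f ∈ X) {m : ℤ} (hm : m ≠ 0) : f ^ m ≠ 1 := by
  intro h1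
  have hT := H.Tbig f hf
  have hC' : (1 : ℝ) ≤ C := by exact_mod_cast hC
  have hTpos : 0 < H.T f := by linarith
  have h2 := hl_zpow H hf 1 m
  rw [h1, one_mul, hl_refl H hf] at h2
  rcases mul_eq_zero.1 h2.symm with h3 | h3
  · exact hm (by exact_mod_cast h3)
  · exact hTpos.ne' h3

/-- unboundedness of a stage -/
theorem exists_far {G : Type*} [Group G] {d : G → G → ℕ} {δ n q A L : ℕ}
    (hS : Stage d δ n q A L) {g : G} (hg : g ^ n ≠ 1) (x : G) (D : ℕ) : ∃ w, d x w = D := by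
  rcases hS.tor g with h | h
  · exact absurd h hg
  · have h1 := h x (q * D)
    have hD : D ≤ d x (g ^ (q * D) * x) := by
      by_contra hcon
      rw [not_le] at hcon
      rcases Nat.eq_zero_or_pos q with hq | hq
      · have h2 := h x 1
        rw [hq, zero_mul] at h2
        omega
      · exact absurd h1 (not_le.2 (Nat.mul_lt_mul_of_pos_left hcon hq))
    obtain ⟨w, -, hw⟩ := hS.toHypG.path.geod x _ D hD
    exact ⟨w, hw⟩

/-- the step from `j` to `j + 1` for `j ≥ 1` -/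
theorem step_succ {B : Type} [Group B] {P : Par2} {M1 T0 : ℕ} {x y : Bst B P.C}
    {Q : x.G → x.G → ℤ → Prop} {π : x.G →* y.G} (hOk : P.Ok M1 T0) (hx : Gd P x)
    (hN : Nx P x y Q π) {c : x.G} (hc : c ^ P.n = 1) (hc1 : c ≠ 1) {g : x.G}
    (hg : g ^ P.n ≠ 1) : ∃ g : y.G, g ^ P.n ≠ 1 := by
  have hG : HypG x.d 2000 := hx.stage.toHypG
  obtain ⟨z, hz⟩ := hx.alg.ctr c hc
  obtain ⟨w, hw⟩ := exists_far hx.stage hg z (2 * P.Δ + 1)
  set t := w * z⁻¹ with ht
  have htz : t * z = w := by rw [ht, inv_mul_cancel_right]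
  have hΔ := hOk.cst2.hΔ
  have hAx := hOk.cst2.hAx
  have hcstR := hOk.cst2.cst.hR
  have hcstT := hOk.cst2.cst.hT
  have hpos : 0 < 2 * P.Δ + 1 := Nat.succ_pos _
  have hQpow : ∀ j : ℤ, (t * c * t⁻¹) ^ j = t * c ^ j * t⁻¹ := fun j => by rw [conj_zpow]
  have hmin : ∀ k ∈ Subgroup.closure (x.F P), x.d z w ≤ x.d z (k * w) := by
    intro k hk
    by_cases hk1 : k = 1
    · rw [hk1, one_mul]
    obtain ⟨f, hf, hfk⟩ := hx.green k hk hk1 w
    have h1 := hx.rels.toFam.big f hf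
    have h2 := x.H.lip f (hx.rels.toFam.sub hf) w (k * w)
    have h3 := hG.path.tri w z (k * w)
    have h4 := hG.path.symm w z
    have h5 : (x.d w (k * w) : ℝ) ≤ x.d z w + x.d z (k * w) := by
      have : x.d w (k * w) ≤ x.d z w + x.d z (k * w) := by omega
      exact_mod_cast this
    rw [hw] at h5 ⊢
    have h6 : (1000 : ℝ) * P.Δ ≤ P.R := by exact_mod_cast hcstR
    have h7 : (1 : ℝ) ≤ P.Δ := by
      have h8 := hx.rels.toFam.hC
      have h9 := hx.rels.toFam.hC1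
      have : 1 ≤ P.Δ := by omega
      exact_mod_cast this
    have h8 : ((2 * P.Δ + 1 : ℕ) : ℝ) ≤ x.d z (k * w) := by
      push_cast at h5 ⊢
      linarith
    exact_mod_cast h8
  have hJ := hN.j1 c (t * c * t⁻¹) z w hc hc1 (by rw [conj_pow, hc, mul_one, mul_inv_cancel])
    (by
      intro h
      rw [mul_inv_eq_one] at h
      exact hc1 (mul_eq_left.1 h)) hz (by
      intro j
      have e : t * c ^ j * t⁻¹ * w = t * (c ^ j * z) := by rw [← htz]; group
      have e2 := hG.inv t z (c ^ j * z)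
      rw [htz] at e2
      rw [hQpow, e, e2]
      exact hz j) hmin (by rw [hw]; omega) _ (Or.inl rfl)
  rcases hJ.2 with h | h
  · exfalso
    have := h.2
    omega
  · exact ⟨_, h⟩

/-- the step from `0` to `1` -/
theorem step_zero {ι : Type} {P : Par2} {M1 T0 : ℕ} {x y : Bst (FreeGroup ι) P.C}
    {Q : x.G → x.G → ℤ → Prop} {π : x.G →* y.G} (hOk : P.Ok M1 T0) (hx : Gd P x)
    (hN : Nx P x y Q π) (hzero : ∀ g : x.G, g ^ P.n = 1 → g = 1)
    (hinj : Function.Injective x.p) {i1 i2 : ι} (hd1 : x.d 1 (x.p (FreeGroup.of i1)) ≤ 1)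
    (hi2 : y.p (FreeGroup.of i2) ∉ Subgroup.zpowers (y.p (FreeGroup.of i1))) :
    ∃ g : y.G, g ^ P.n ≠ 1 := by
  classical
  have hG : HypG x.d 2000 := hx.stage.toHypG
  have hF : Fam x.H (x.F P) P.Δ P.Tm := hx.rels.toFam
  set g1 := x.p (FreeGroup.of i1) with hg1
  set g2 := x.p (FreeGroup.of i2) with hg2
  have hg1n : g1 ^ P.n ≠ 1 := by
    intro h
    have h1 := hzero g1 h
    rw [hg1, ← map_one x.p] at h1
    exact FreeGroup.of_ne_one i1 (hinj h1)
  have hn3 := hOk.cst2.hn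
  have hL1pos : 1 ≤ P.L1 := by
    have h1 := hOk.cst2.hL1
    have h2 := hOk.cst2.hL
    have h3 := hF.hC1
    omega
  obtain ⟨r, hr⟩ := hx.alg.cent g1 hg1n
  have hfFp : r ^ P.n ∈ Fp x.d P.n P.L1 :=
    ⟨g1, r, hg1n, ⟨1, by rw [mul_one]; omega⟩, hr, rfl⟩
  have hfF : r ^ P.n ∈ x.F P := Or.inl hfFp
  have hfX := hF.sub hfF
  -- the centralizer of `f`
  obtain ⟨r', hr'f, hr'c, -⟩ := hx.fpr _ hfFp
  have hrr' : r = r' := by
    have h1 : Commute r (r ^ P.n) := Commute.self_pow r P.n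
    obtain ⟨a, ha⟩ := Subgroup.mem_zpowers_iff.1 ((hr'c r).1 h1)
    have h2 : r' ^ ((a - 1) * P.n) = 1 := by
      have h3 : r' ^ (a * P.n) = r' ^ (P.n : ℤ) := by
        rw [zpow_mul, ha, zpow_natCast, zpow_natCast, hr'f]
      rw [sub_mul, one_mul, zpow_sub, h3, mul_inv_cancel]
    have h4 : (r ^ P.n) ^ (a - 1) = 1 := by
      rw [hr'f, ← zpow_natCast r' P.n, ← zpow_mul, mul_comm]
      exact h2
    by_contra hne
    have h5 : a - 1 ≠ 0 := by
      intro h6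
      have : a = 1 := by omega
      rw [this, zpow_one] at ha
      exact hne ha.symm
    exact rel_zpow_ne x.H hF.hC1 hfX h5 h4
  have hcen : ∀ y, Commute y (r ^ P.n) ↔ y ∈ Subgroup.zpowers r := by
    rw [hrr']
    rw [hrr'] at hr'c
    exact hr'c
  -- `r` is a power of `g1`
  have hrg : r ∈ Subgroup.zpowers g1 := by
    obtain ⟨m, hm⟩ := Subgroup.mem_zpowers_iff.1 ((hr g1).1 (Commute.refl g1))
    obtain ⟨b, hb⟩ := hx.surj r
    have h1 : b ^ m = FreeGroup.of i1 := by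
      apply hinj
      rw [map_zpow, hb, hm]
    let φ : FreeGroup ι →* Multiplicative ℤ :=
      FreeGroup.lift (fun i => if i = i1 then Multiplicative.ofAdd (1 : ℤ) else 1)
    have h2 : φ (b ^ m) = Multiplicative.ofAdd (1 : ℤ) := by
      rw [h1]
      simp [φ]
    rw [map_zpow] at h2
    have h3 := congrArg Multiplicative.toAdd h2
    rw [toAdd_zpow, toAdd_ofAdd, smul_eq_mul] at h3
    have h4 : m * m = 1 := by
      rcases Int.eq_one_or_neg_one_of_mul_eq_one h3 with h | h <;> rw [h] <;> norm_num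
    refine Subgroup.mem_zpowers_iff.2 ⟨m, ?_⟩
    rw [← hm, ← zpow_mul, h4, zpow_one]
  -- minimal choice
  have hex : ∃ D : ℕ, ∃ x' ∈ x.H.Z (r ^ P.n), ∃ y' ∈ x.H.Z (g2 * r ^ P.n * g2⁻¹),
      ∃ k ∈ Subgroup.closure (x.F P), x.d x' (k * y') = D :=
    ⟨_, _, x.H.pr_mem _ hfX 1, _, x.H.pr_mem _ (hF.sub (hF.conj _ hfF g2)) 1, 1,
      Subgroup.one_mem _, rfl⟩
  obtain ⟨x0, hx0, y0, hy0, k0, hk0, hD⟩ := Nat.find_spec hex
  have hDmin : ∀ x' ∈ x.H.Z (r ^ P.n), ∀ y' ∈ x.H.Z (g2 * r ^ P.n * g2⁻¹),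
      ∀ k ∈ Subgroup.closure (x.F P), x.d x0 (k0 * y0) ≤ x.d x' (k * y') := by
    intro x' hx' y' hy' k hk
    rw [hD]
    exact Nat.find_min' hex ⟨x', hx', y', hy', k, hk, rfl⟩
  set t := k0 * g2 with ht
  have hconj : t * r ^ P.n * t⁻¹ = k0 * (g2 * r ^ P.n * g2⁻¹) * k0⁻¹ := by
    rw [ht]; group
  have hg2X : g2 * r ^ P.n * g2⁻¹ ∈ Lx x.d (100 * P.C) := hF.sub (hF.conj _ hfF g2)
  have hncom : ¬ Commute t (r ^ P.n) := by
    intro hc
    have h1 := (hcen t).1 hc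
    have h2 : t ∈ Subgroup.zpowers g1 := by
      have : Subgroup.zpowers r ≤ Subgroup.zpowers g1 := by
        rw [Subgroup.zpowers_le]; exact hrg
      exact this h1
    obtain ⟨m, hm⟩ := Subgroup.mem_zpowers_iff.1 h2
    apply hi2
    refine Subgroup.mem_zpowers_iff.2 ⟨m, ?_⟩
    rw [← hN.comp, ← hN.comp, ← map_zpow]
    change π (g1 ^ m) = π g2
    rw [hm, ht, map_mul, (hN.quo.ker k0).2 hk0, one_mul]
  have h1 : t * r ^ P.n * t⁻¹ ≠ r ^ P.n := by
    intro h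
    exact hncom (mul_inv_eq_iff_eq_mul.1 h)
  have h2 : t * r ^ P.n * t⁻¹ ≠ (r ^ P.n)⁻¹ := by
    intro h
    refine hncom (hx.alg.ninv (r ^ P.n) t 1 (-1) ?_ one_ne_zero ?_)
    · have := rel_zpow_ne x.H hF.hC1 hfX (m := (P.n : ℤ)) (by
        have : (0 : ℤ) < P.n := by exact_mod_cast (by omega : 0 < P.n)
        exact this.ne')
      rwa [zpow_natCast] at this
    · rw [zpow_one, zpow_neg_one]; exact h
  -- the exponents
  obtain ⟨m, hm⟩ := hOk.cst2.odd
  have hm1 : 1 ≤ m := by omega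
  have hmZ : (1 : ℤ) ≤ (m : ℤ) := by exact_mod_cast hm1
  have hTf := hF.big _ hfF
  have hJ := hN.j2 (r ^ P.n) hfF r t hcen rfl h1 h2 x0 hx0 (k0 * y0)
    (by rw [hconj]; exact (x.H.Zconj _ hg2X k0 y0).2 hy0)
    (by
      intro x' hx' y' hy' k hk
      rw [hconj] at hy'
      have h3 : k0⁻¹ * y' ∈ x.H.Z (g2 * r ^ P.n * g2⁻¹) := by
        rw [← x.H.Zconj _ hg2X k0, mul_inv_cancel_left]
        exact hy'
      have h4 := hDmin x' hx' _ h3 (k * k0) (Subgroup.mul_mem _ hk hk0)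
      have e : k * k0 * (k0⁻¹ * y') = k * y' := by group
      rw [e] at h4
      exact h4)
    1 (m : ℤ) one_ne_zero (by omega) (by rw [abs_one]; omega)
    (by rw [abs_of_nonneg (by omega)]; omega)
    (by
      right
      have e1 : |((m : ℤ) : ℝ)| = (m : ℝ) := by
        rw [Int.cast_natCast]; exact abs_of_nonneg (Nat.cast_nonneg m)
      have hmR : (P.n : ℝ) = 2 * m + 1 := by exact_mod_cast hm
      rw [e1, hmR]
      have e2 : (1 : ℝ) ≤ m := by exact_mod_cast hm1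
      have e3 : 1000 * (P.Δ : ℝ) ≤ P.R := by exact_mod_cast hOk.cst2.cst.hR
      have e4 := hOk.cst2.cst.hT
      have e5 : (0 : ℝ) ≤ P.Δ := Nat.cast_nonneg _
      have e6 : 10 ^ 4 * (P.Δ : ℝ) ≤ x.H.T (r ^ P.n) := by linarith
      calc 100 * (P.Δ : ℝ) * (2 * m + 1) ≤ 100 * (P.Δ : ℝ) * (3 * m) := by
            apply mul_le_mul_of_nonneg_left _ (by positivity)
            linarith
        _ = (m : ℝ) * (300 * P.Δ) := by ring
        _ ≤ (m : ℝ) * x.H.T (r ^ P.n) := by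
            apply mul_le_mul_of_nonneg_left _ (by positivity)
            linarith)
    _ (Or.inl rfl)
  exact ⟨_, hJ.2⟩

end UB

open UB in
/-- Part T8. -/
theorem stUB : StUB := by
  intro ι P M1 T0 T Q π i1 i2 _ hOk hT hinj hd hc hi2 j
  induction j with
  | zero =>
    refine ⟨(T 0).p (FreeGroup.of i1), fun h => ?_⟩
    have h1 := hT.zero _ h
    rw [← map_one (T 0).p] at h1
    exact FreeGroup.of_ne_one i1 (hinj h1)
  | succ j ih =>
    rcases Nat.eq_zero_or_pos j with rfl | hj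
    · exact step_zero hOk (hT.gd 0) (hT.nx 0) hT.zero hinj (hd i1) hi2
    · obtain ⟨c, hc1, hc2⟩ := hc j hj
      obtain ⟨g, hg⟩ := ih
      exact step_succ hOk (hT.gd j) (hT.nx j) hc1 hc2 hg

end Pool.Agent.Helper17.SPL
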