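import Pool.Agent.Helper17.SPL.TDefs2

/-!
MP_7246d9_al, Part T7: the words of the policy die.
-/

set_option autoImplicit false

namespace Pool.Agent.Helper17.SPL

open Pool.Agent.Helper74.TB Pool.Agent.Helper74.MH

namespace WK

theorem map_ww {B G : Type*} [Group B] [Group G] (p : B →* G) (u w : B) (a : ℤ) (h : ℕ)
    (e : ℕ → ℤ) : p (ww u w a h e) = ww (p u) (p w) a h e := by
  unfold ww
  rw [map_list_prod, List.map_map]
  congr 1
  refine List.map_congr_left fun k _ => ?_
  rw [Function.comp_apply, map_mul, map_zpow]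

end WK

theorem stWK : StWK := by
  intro B _ P M1 T0 T Q π D _ ω hOk hT hω i u w a hP hQ
  rw [hω.ker]
  refine ⟨i + 1 + 1, ?_⟩
  rw [← (hT.nx (i + 1)).comp, (hT.nx (i + 1)).quo.ker]
  apply Subgroup.subset_closure
  refine Or.inr ?_
  rw [(hT.nx i).wd]
  refine ⟨(T i).p u, (T i).p w, a, 1, hP, hQ, Or.inl ?_⟩
  rw [← (hT.nx i).comp, WK.map_ww, one_mul, inv_one, mul_one]

end Pool.Agent.Helper17.SPL
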