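import Pool.Agent.Helper17.SPL.TDefs
import Pool.Agent.Helper74.TB.Zero

/-! MP_7246d9_al: the free group on any type is a stage (Part T1). -/

set_option autoImplicit false

namespace Pool.Agent.Helper17.SPL

open Pool.Agent.Helper74.TB Pool.Agent.Helper74.MH

theorem stZero2 : StZero2 := by
  classical
  intro ι
  have hT : LTree (FreeGroup ι) (dF (X := ι)) := ltree_dF
  have hd := hT.tree
  have hdp := hd.toIsPathMetric
  refine ⟨dF, ?_, ?_, fun n hn g hg => free_tf g hn hg⟩
  · intro n q A L hn hq hL hA
    have hyp : HypG (dF (X := ι)) 2000 :=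
      ⟨hdp, hT.inv, fun x y z w => (tree_four hd x y z w).trans (Nat.le_add_right _ _),
        by norm_num⟩
    refine ⟨hyp, ?_, ?_, ?_, ?_, ?_⟩
    · intro g
      by_cases hg : g = 1
      · left
        rw [hg, one_pow]
      · right
        intro x m
        have h1 : dF x (g ^ m * x) = FreeGroup.norm ((x⁻¹ * g * x) ^ m) := by
          unfold dF
          congr 1
          have : (x⁻¹ * g * x) ^ m = x⁻¹ * g ^ m * x := by
            have e := conj_pow (i := m) (a := x⁻¹) (b := g)
            rw [inv_inv] at e
            exact e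
          rw [this, mul_assoc]
        have h2 : x⁻¹ * g * x ≠ 1 := by
          intro h
          apply hg
          have : g = x * (x⁻¹ * g * x) * x⁻¹ := by group
          rw [this, h, mul_one, mul_inv_cancel]
        rw [h1]
        have h3 := norm_pow_ge h2 m
        have h4 : 1 * FreeGroup.norm ((x⁻¹ * g * x) ^ m) ≤
            q * FreeGroup.norm ((x⁻¹ * g * x) ^ m) := Nat.mul_le_mul_right _ hq
        omega
    · intro g h p p' hpp hg1 hg2 hh1 hh2
      obtain ⟨v, hv1, hv2⟩ := hdp.geod p p' (5 * L) (by omega)
      have hv3 : dF v p' + 5 * L = dF p p' := by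
        unfold Pool.Agent.Helper74.MH.Btw at hv1
        omega
      have fg : ∀ x y, dF (g * x) (g * y) = dF x y := hT.inv g
      have fh : ∀ x y, dF (h * x) (h * y) = dF x y := hT.inv h
      -- bounds of the shifts
      have bg1 := hdp.tri p p' (g * p')
      have bg2 := hdp.tri p (g * p') p'
      have bh1 := hdp.tri p p' (h * p')
      have bh2 := hdp.tri p (h * p') p'
      have sg := hdp.symm p' (g * p')
      have sh := hdp.symm p' (h * p')
      obtain ⟨g1, g2⟩ := tree_shift hd fg hg1 hg2 hv1 (by omega) (by omega)
      obtain ⟨h1, h2⟩ := tree_shift hd fh hh1 hh2 hv1 (by omega) (by omega)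
      have g1' := g1
      have h1' := h1
      unfold Pool.Agent.Helper74.MH.Btw at g1' h1'
      obtain ⟨k1, k2⟩ := tree_shift hd fg hg1 hg2 h1 (by omega) (by omega)
      obtain ⟨l1, l2⟩ := tree_shift hd fh hh1 hh2 g1 (by omega) (by omega)
      have e := hd.uniq p p' _ _ k1 l1 (by omega)
      have e2 : g * h * v = h * g * v := by
        rw [mul_assoc, mul_assoc]
        exact e
      exact mul_right_cancel e2
    · intro g p p' hg _ _ _
      exact free_tf g hn hg
    · intro g hg hg1
      exact absurd (free_tf g hn hg) hg1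
    · intro g x t hg hg1
      exact absurd (free_tf g hn hg) hg1
  · intro x
    exact (dF_one_iff _).2 ⟨x, Or.inl rfl⟩

end Pool.Agent.Helper17.SPL
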