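import Pool.Agent.Helper74.TB.A
import Pool.Agent.Helper74.TB.C
import Pool.Agent.Helper74.TB.CHB
import Pool.Agent.Helper74.TB.Ch
import Pool.Agent.Helper74.TB.Count
import Pool.Agent.Helper74.TB.E
import Pool.Agent.Helper74.TB.F
import Pool.Agent.Helper74.TB.F0
import Pool.Agent.Helper74.TB.G7
import Pool.Agent.Helper74.TB.H
import Pool.Agent.Helper74.TB.J1
import Pool.Agent.Helper74.TB.J2
import Pool.Agent.Helper74.TB.Len
import Pool.Agent.Helper74.TB.P
import Pool.Agent.Helper74.TB.Quo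
import Pool.Agent.Helper74.TB.Step
import Pool.Agent.Helper74.TB.TL
import Pool.Agent.Helper74.TB.TR
import Pool.Agent.Helper74.TB.X
import Pool.Agent.Helper74.TB.V
import Pool.Agent.Helper74.TB.Dig
import Pool.Agent.Helper74.TB.K
import Pool.Agent.Helper17.SPL.Al
import Pool.Agent.Helper17.SPL.Asm
import Pool.Agent.Helper17.SPL.DB
import Pool.Agent.Helper17.SPL.E1
import Pool.Agent.Helper17.SPL.E2
import Pool.Agent.Helper17.SPL.E3
import Pool.Agent.Helper17.SPL.E4
import Pool.Agent.Helper17.SPL.EX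
import Pool.Agent.Helper17.SPL.End
import Pool.Agent.Helper17.SPL.Gen
import Pool.Agent.Helper17.SPL.Inf
import Pool.Agent.Helper17.SPL.Ker
import Pool.Agent.Helper17.SPL.LP
import Pool.Agent.Helper17.SPL.LimEx
import Pool.Agent.Helper17.SPL.Mix
import Pool.Agent.Helper17.SPL.NK
import Pool.Agent.Helper17.SPL.Par2
import Pool.Agent.Helper17.SPL.Pure
import Pool.Agent.Helper17.SPL.SI
import Pool.Agent.Helper17.SPL.Sht
import Pool.Agent.Helper17.SPL.Sim
import Pool.Agent.Helper17.SPL.TC
import Pool.Agent.Helper17.SPL.U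
import Pool.Agent.Helper17.SPL.UB
import Pool.Agent.Helper17.SPL.WK
import Pool.Agent.Helper17.SPL.Zero2

/-!
MP_7246d9_al: final assembly.
-/

set_option autoImplicit false

namespace Pool.Agent.Helper17.SPL

open Pool.Agent.Helper74.TB Pool.Agent.Helper74.MH

universe u

/-- The tower part. -/
theorem fin_tower : StTower := by
  have hDig : StDig := stDig stC
  have hE : StE := stE stC stV hDig stCh
  have hLen : StLen := stLen stC stV hDig stCh hE stCount
  have hTL : StTL := stTL stF0 hLen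
  have hF : StF := stF stF0 hTL
  have hG : StG := stG stF0 stC stV hDig stCh hE hLen stCount
  have hH : StH := stH stC
  have hStep : StStep := stStep hE hF hG hH
  have hJ1 : StJ1 := stJ1 stF0 hTL hF
  have hJ2 : StJ2 := stJ2 stCHB stF0 hTL
  have hTR : StTR := stTR stV hE
  have hK : StK := stK stC stV hDig stCh hE hLen stCount hTR stCHB
  have hAl : StAl := stAl stCHB hE hLen stCount hTR hDig
  have hEX : StEX := stEX stZero2 stX stP stQuo hStep hF hH stC hJ1 hJ2 hK hAl
  have hSI : StSI := stSI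
  have hTC : StTC := stTC
  have hDB : StDB := stDB stLP hTC
  have hNK : StNK := stNK hSI
  have hGen : StGen := stGen stKer
  have hSim : StSim := stSim hDB hSI hTC stWK
  have hSht : StSht := stSht hSI hTC
  have hInf : StInf := stInf hSI hTC
  have hPure : StPure := stPure hTC hInf stUB stKer hGen stLimEx
  have hMix : StMix := stMix hDB hSI hTC hNK stWK stUB hSim hSht stKer hGen stLimEx
  exact stAsm stA stPar2 hEX hPure hMix hDB

/-- Statement of the main theorem for index types in `Type`. -/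
theorem fin_zero (hT : StTower) (hE : StEnd) : ∃ n0 : ℕ, ∀ n : ℕ, n0 ≤ n → Odd n →
    ∀ ι : Type, Nontrivial ι → SplInner ι n ∧ FinCen ι n := by
  obtain ⟨n0, h0⟩ := hT
  refine ⟨max n0 3, fun n hn hodd ι hι => ?_⟩
  obtain ⟨N2, hN2, h1⟩ := h0 n (le_trans (le_max_left _ _) hn) hodd
  obtain ⟨i1, i2, h12⟩ := hι.exists_pair_ne
  have R : Rig (FBU ι n) n N2 (QuotientGroup.mk (FreeGroup.of i1) : FBU ι n) :=
    h1 ι i1 i2 h12
  refine ⟨?_, R.inf, R.cen⟩
  intro φ hφ hnorm
  refine hE (FBU ι n) n N2 _ hodd (le_trans (le_max_right _ _) hn) hN2 R φ ?_ hnorm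
  intro b
  rw [hφ]
  rfl

/-- The main theorem. -/
theorem fin_main : ∃ N : ℕ, ∀ n : ℕ, N ≤ n → Odd n →
    ∀ ι : Type u, Nontrivial ι → SplInner ι n := by
  obtain ⟨n0, h0⟩ := fin_zero fin_tower (stEnd stE1 stE2 stE3 stE4)
  exact ⟨n0, fun n hn hodd ι hι => stU n (fun α hα => h0 n hn hodd α hα) ι hι⟩

end Pool.Agent.Helper17.SPL
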