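import Pool.Agent.Helper17.SPL.Defs
import Pool.Agent.Helper74.TB.StL

/-!
MP_7246d9_al: statements of the tower part (Part T).  Uses the machine TB of helper74.
-/

set_option autoImplicit false

namespace Pool.Agent.Helper17.SPL

open Pool.Agent.Helper74.TB Pool.Agent.Helper74.MH

/-- All parameters. -/
structure Par2 where
  C : ℕ
  L : ℕ
  Δ : ℕ
  R : ℕ
  n : ℕ
  q : ℕ
  Ax : ℕ
  L1 : ℕ
  L2 : ℕ
  k1 : ℕ
  h : ℕ
  M0 : ℕ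
  lam : ℕ
  Θ : ℕ
  N2 : ℕ
  Tm : ℝ

/-- Bound for the exponents of the word relators. -/
def Par2.km (P : Par2) : ℕ := (P.k1 + 1) * P.k1

/-- The exponents of the words. -/
def Par2.ex (P : Par2) : ℕ → ℤ := fun k => (P.M0 : ℤ) * (P.lam : ℤ) ^ k

/-- The inequalities between the parameters. -/
structure Par2.Ok (P : Par2) (M1 T0 : ℕ) : Prop where
  hC : 100 * 2000 ≤ P.C
  hCM : M1 ≤ P.C
  hL : 1000 * P.C ≤ P.L
  cst2 : Cst2 2000 P.C P.Δ P.R P.n P.q P.L P.Ax P.L1 M1 P.Tm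
  cst3 : Cst3 P.C P.Δ P.R P.n P.q P.L1 P.L2 P.km P.h P.M0 P.lam P.Θ M1 P.Tm
  hT0 : (T0 : ℝ) * P.R ≤ P.Tm
  hq : 1 ≤ P.q
  hAx : 10 ^ 6 * P.L + 10 ^ 5 * P.q * P.L * P.C ≤ P.Ax
  hL1 : 10 ^ 4 * P.Ax ≤ P.L1
  hR : P.R ≤ 10 ^ 6 * P.L1
  hqT : (P.q : ℝ) * P.Tm ≤ P.n
  hqn : 100 * P.C * P.q ≤ P.n
  hN2 : Nat.Coprime P.N2 P.n
  hNb : 100 * P.Δ * P.q + 1 ≤ P.N2
  hNn : 4 * (100 * P.Δ * P.q) * P.N2 < P.n
  hL2 : (200 * P.C * P.q + 10) * P.L1 ≤ P.L2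
  hk1 : 10 * P.Δ * P.q + P.q * P.L1 ≤ P.k1
  hh : Nat.Coprime P.h P.n
  hh1 : 1 ≤ P.h
  hsh : 8 * (P.h : ℝ) * (P.L2 + 5 * P.R) ≤ (P.R : ℝ) ^ 2 * P.Tm

/-- Part T0: good parameters exist for every large odd `n`. -/
def StPar2 : Prop :=
  ∀ C M1 T0 : ℕ, 100 * 2000 ≤ C → M1 ≤ C → ∃ n0 : ℕ, ∀ n : ℕ, n0 ≤ n → Odd n →
    ∃ P : Par2, P.C = C ∧ P.L = 1000 * C ∧ P.n = n ∧ P.Ok M1 T0

/-- A stage group, as a quotient of `B`, with its metric, coarse axes and pending word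
relators. -/
structure Bst (B : Type) [Group B] (C : ℕ) where
  G : Type
  grp : Group G
  d : G → G → ℕ
  H : Hubs d (Lx d (100 * C)) C
  W : Set G
  p : B →* G

attribute [instance] Bst.grp

/-- The relators of a stage. -/
def Bst.F {B : Type} [Group B] (P : Par2) (x : Bst B P.C) : Set x.G :=
  Fp x.d P.n P.L1 ∪ x.W

/-- The invariants of a stage. -/
structure Gd {B : Type} [Group B] (P : Par2) (x : Bst B P.C) : Prop where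
  surj : Function.Surjective x.p
  stage : Stage x.d 2000 P.n P.q (10 ^ 6 * P.L) P.L
  alg : Alg x.H P.n P.q P.L P.Ax
  rels : Rels x.H (x.F P) P.n P.L1 P.Δ P.Tm
  fpr : ∀ f ∈ Fp x.d P.n P.L1, ∃ r : x.G, f = r ^ P.n ∧
    (∀ y, Commute y f ↔ y ∈ Subgroup.zpowers r) ∧
    ∀ z ∈ x.H.Z f, x.d z (r * z) ≤ P.L1 + 10 * P.C
  wc : ∀ f ∈ x.W, ∀ y, Commute y f ↔ y ∈ Subgroup.zpowers f
  green : ∀ k ∈ Subgroup.closure (x.F P), k ≠ 1 → ∀ z, ∃ f ∈ x.F P,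
    x.H.T f - 20 * P.Δ ≤ |x.H.Φ f z (k * z)|

/-- The word relators coming from the triples satisfying `Q`. -/
def Wd {B : Type} [Group B] (P : Par2) (x y : Bst B P.C) (π : x.G →* y.G)
    (Q : x.G → x.G → ℤ → Prop) : Set y.G :=
  Fw x.H π P.n P.L1 P.L2 P.km P.h P.ex Q

/-- `y` is a next stage of `x`, for the policy `Q`. -/
structure Nx {B : Type} [Group B] (P : Par2) (x y : Bst B P.C) (Q : x.G → x.G → ℤ → Prop)
    (π : x.G →* y.G) : Prop where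
  comp : ∀ b, π (x.p b) = y.p b
  quo : Quo x.H (x.F P) P.R π y.d
  wd : y.W = Wd P x y π Q
  tors : Tors (x.F P) π P.n
  cls : ∀ a : y.G, (∃ g, g ^ P.n = 1 ∧ π g = a) ∨
    (∃ f ∈ x.F P, ∃ g, Commute g f ∧ π g = a) ∨
    ∀ (z : y.G) (m : ℕ), m ≤ P.q * y.d z (a ^ m * z)
  j1 : J1P x.H (x.F P) π P.n P.Ax P.Δ
  j2 : J2P x.H (x.F P) π P.n P.Δ
  fam : Fam y.H (Fp y.d P.n P.L1 ∪ Wd P x y π (fun _ _ _ => True)) P.Δ P.Tm
  wct : ∀ w ∈ Wd P x y π (fun _ _ _ => True), ∀ g, Commute g w ↔ g ∈ Subgroup.zpowers w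
  al : ∀ (S1 r1 S2 r2 : x.G) (a1 a2 : ℤ) (t1 t2 : y.G), Pair x.H P.n P.L1 P.L2 P.km S1 r1 a1 →
    Pair x.H P.n P.L1 P.L2 P.km S2 r2 a2 →
    (t1 * π (ww S1 r1 a1 P.h P.ex) * t1⁻¹ = t2 * π (ww S2 r2 a2 P.h P.ex) * t2⁻¹ →
      ∃ z : x.G, (r1 = z * r2 * z⁻¹ ∧ a1 = a2 ∨ r1 = z * r2⁻¹ * z⁻¹ ∧ a1 = -a2) ∧
        π (z * S2 * z⁻¹) = π S1) ∧
    t1 * π (ww S1 r1 a1 P.h P.ex) * t1⁻¹ ≠ (t2 * π (ww S2 r2 a2 P.h P.ex) * t2⁻¹)⁻¹

/-- A good tower. -/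
structure TGood {B : Type} [Group B] (P : Par2) (T : ℕ → Bst B P.C)
    (Q : ∀ i, (T i).G → (T i).G → ℤ → Prop) (π : ∀ i, (T i).G →* (T (i + 1)).G) : Prop where
  gd : ∀ i, Gd P (T i)
  nx : ∀ i, Nx P (T i) (T (i + 1)) (Q i) (π i)
  zero : ∀ g : (T 0).G, g ^ P.n = 1 → g = 1
  w0 : (T 0).W = ∅

/-- The limit group. -/
structure LimB {B : Type} [Group B] {C : ℕ} (T : ℕ → Bst B C) {D : Type} [Group D]
    (ω : B →* D) : Prop where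
  surj : Function.Surjective ω
  ker : ∀ b, ω b = 1 ↔ ∃ i, (T i).p b = 1

/-- Alignment for equal word relators (Part K, Consequence 1 of K9): to be proved together
with Part K of TB. -/
def StAl : Prop :=
  ∃ M1 : ℕ, 1 ≤ M1 ∧
    ∀ (G G' : Type) [Group G] [Group G'] (d : G → G → ℕ) (d' : G' → G' → ℕ)
    (C Δ R n q A L Ax L1 L2 km h M0 lam Θ : ℕ) (F : Set G) (H : Hubs d (Lx d (100 * C)) C)
    (H' : Hubs d' (Lx d' (100 * C)) C) (Tm : ℝ) (π : G →* G'),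
    Stage d 2000 n q A L → Alg H n q L Ax → 10 ^ 5 * q * L * C ≤ Ax →
    Rels H F n L1 Δ Tm → Cst2 2000 C Δ R n q L Ax L1 M1 Tm → R ≤ 10 ^ 6 * L1 →
    Quo H F R π d' → Fp d n L1 ⊆ F →
    Stage d' 2000 n q A L → Alg H' n q L Ax → Rels H' (Fp d' n L1) n L1 Δ Tm →
    Cst3 C Δ R n q L1 L2 km h M0 lam Θ M1 Tm →
    ∀ (S1 r1 S2 r2 : G) (a1 a2 : ℤ) (t1 t2 : G'), Pair H n L1 L2 km S1 r1 a1 →
      Pair H n L1 L2 km S2 r2 a2 →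
      (t1 * π (ww S1 r1 a1 h (fun k => M0 * lam ^ k)) * t1⁻¹ =
          t2 * π (ww S2 r2 a2 h (fun k => M0 * lam ^ k)) * t2⁻¹ →
        ∃ z : G, (r1 = z * r2 * z⁻¹ ∧ a1 = a2 ∨ r1 = z * r2⁻¹ * z⁻¹ ∧ a1 = -a2) ∧
          π (z * S2 * z⁻¹) = π S1) ∧
      t1 * π (ww S1 r1 a1 h (fun k => M0 * lam ^ k)) * t1⁻¹ ≠
        (t2 * π (ww S2 r2 a2 h (fun k => M0 * lam ^ k)) * t2⁻¹)⁻¹

/-- Policies: which triples `(S, r, a)` of a stage get their word killed. -/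
abbrev Pol (B : Type) [Group B] (C : ℕ) : Type 1 :=
  ℕ → (x : Bst B C) → x.G → x.G → ℤ → Prop

/-- Part T1: the free group is a stage. -/
def StZero2 : Prop :=
  ∀ ι : Type, ∃ d : FreeGroup ι → FreeGroup ι → ℕ,
    (∀ n q A L : ℕ, 1 ≤ n → 1 ≤ q → 1 ≤ L → 10 * L ≤ A → Stage d 2000 n q A L) ∧
    (∀ x : ι, d 1 (FreeGroup.of x) = 1) ∧ ∀ n : ℕ, 1 ≤ n → ∀ g : FreeGroup ι, g ^ n = 1 → g = 1

/-- Part T2: towers exist for every policy, deterministically. -/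
def StEX : Prop :=
  ∃ M1 : ℕ, ∀ C : ℕ, 100 * 2000 ≤ C → M1 ≤ C →
    (∀ (G : Type) [Group G] (d : G → G → ℕ), HypG d 2000 →
      Nonempty (Hubs d (Lx d (100 * C)) C)) →
    ∃ T0 : ℕ, ∀ P : Par2, P.C = C → P.L = 1000 * C → P.Ok M1 T0 → ∀ ι : Type,
    ∃ tw : Pol (FreeGroup ι) P.C → ℕ → Bst (FreeGroup ι) P.C,
      (∀ Q : Pol (FreeGroup ι) P.C,
        (∃ π : ∀ i, (tw Q i).G →* (tw Q (i + 1)).G,
          TGood P (tw Q) (fun i => Q i (tw Q i)) π) ∧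
        Function.Injective (tw Q 0).p ∧
        ∀ j : ι, (tw Q 0).d 1 ((tw Q 0).p (FreeGroup.of j)) ≤ 1) ∧
      ∀ (Q Q' : Pol (FreeGroup ι) P.C) (s : ℕ), (∀ i < s, Q i = Q' i) → ∀ i ≤ s,
        tw Q i = tw Q' i

/-- The data of a pair `(S, g)` whose element `vv S g = r ^ a` is killed at the stage `x`. -/
structure BD {B : Type} [Group B] (P : Par2) (x : Bst B P.C) (S g r : x.G) (a : ℤ)
    (z : x.G) : Prop where
  tor : S ^ P.n = 1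
  ne : S ≠ 1
  a0 : a ≠ 0
  ak : |a| ≤ P.k1
  fp : r ^ P.n ∈ Fp x.d P.n P.L1
  cen : ∀ y, Commute y (r ^ P.n) ↔ y ∈ Subgroup.zpowers r
  ctr : ∀ j : ℤ, x.d z (S ^ j * z) ≤ P.C
  near : Nh x.d P.L2 (x.H.Z (r ^ P.n)) z
  dist : x.d z (g * z) ≤ 2 * P.Δ
  val : vv P.N2 S g = r ^ a

/-- Part T3: the life of a pair. -/
def StLP : Prop :=
  ∀ (B : Type) [Group B] (P : Par2) (M1 T0 : ℕ) (T : ℕ → Bst B P.C)
    (Q : ∀ i, (T i).G → (T i).G → ℤ → Prop) (π : ∀ i, (T i).G →* (T (i + 1)).G),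
    P.Ok M1 T0 → TGood P T Q π → ∀ (j : ℕ) (S g : (T j).G), S ^ P.n = 1 → S ≠ 1 →
      ¬ Commute g S → vv P.N2 S g ^ P.n ≠ 1 ∨
        ∃ i < j, ∃ u v : B, (T j).p u = S ∧ (T j).p v = g ∧
          ∃ (r : (T i).G) (a : ℤ) (z : (T i).G), BD P (T i) ((T i).p u) ((T i).p v) r a z

/-- Part T4: short elements are not killed. -/
def StSI : Prop :=
  ∀ (B : Type) [Group B] (P : Par2) (M1 T0 : ℕ) (T : ℕ → Bst B P.C)
    (Q : ∀ i, (T i).G → (T i).G → ℤ → Prop) (π : ∀ i, (T i).G →* (T (i + 1)).G)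
    (D : Type) [Group D] (ω : B →* D), P.Ok M1 T0 → TGood P T Q π → LimB T ω →
    ∀ (i : ℕ) (b : B) (z : (T i).G), 2 * ((T i).d z ((T i).p b * z) : ℝ) ≤ P.Tm → ω b = 1 →
      (T i).p b = 1

/-- Part T5: torsion and centralizers in the limit. -/
def StTC : Prop :=
  ∀ (B : Type) [Group B] (P : Par2) (M1 T0 : ℕ) (T : ℕ → Bst B P.C)
    (Q : ∀ i, (T i).G → (T i).G → ℤ → Prop) (π : ∀ i, (T i).G →* (T (i + 1)).G)
    (D : Type) [Group D] (ω : B →* D), P.Ok M1 T0 → TGood P T Q π → LimB T ω →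
    (∀ (i : ℕ) (bg bh z : B), (T i).p bg ^ P.n = 1 → (T i).p bh ^ P.n = 1 →
      ω bg = ω z * ω bh * (ω z)⁻¹ →
      ∃ bt : B, ω bt = ω z ∧ (T i).p bg = (T i).p bt * (T i).p bh * ((T i).p bt)⁻¹) ∧
    (∀ b : B, ∃ i, ∀ j, i ≤ j → (T j).p b ^ P.n = 1 ∧ (T j).d 1 ((T j).p b) ≤ 1) ∧
    (∀ x : D, x ^ P.n = 1) ∧
    (∀ S : D, S ≠ 1 → {y : D | Commute y S}.Finite)

/-- Part T6: a word which dies in the limit is aligned with a word of the policy. -/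
def StNK : Prop :=
  ∀ (B : Type) [Group B] (P : Par2) (M1 T0 : ℕ) (T : ℕ → Bst B P.C)
    (Q : ∀ i, (T i).G → (T i).G → ℤ → Prop) (π : ∀ i, (T i).G →* (T (i + 1)).G)
    (D : Type) [Group D] (ω : B →* D), P.Ok M1 T0 → TGood P T Q π → LimB T ω →
    ∀ (i : ℕ) (u w : B) (a : ℤ),
      Pair (T i).H P.n P.L1 P.L2 P.km ((T i).p u) ((T i).p w) a →
      ω (ww u w a P.h P.ex) = 1 →
      ∃ (S' r' z : (T i).G) (a' : ℤ), Pair (T i).H P.n P.L1 P.L2 P.km S' r' a' ∧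
        Q i S' r' a' ∧
        ((T i).p w = z * r' * z⁻¹ ∧ a = a' ∨ (T i).p w = z * r'⁻¹ * z⁻¹ ∧ a = -a') ∧
        π i (z * S' * z⁻¹) = π i ((T i).p u)

/-- Part T7: words of the policy die. -/
def StWK : Prop :=
  ∀ (B : Type) [Group B] (P : Par2) (M1 T0 : ℕ) (T : ℕ → Bst B P.C)
    (Q : ∀ i, (T i).G → (T i).G → ℤ → Prop) (π : ∀ i, (T i).G →* (T (i + 1)).G)
    (D : Type) [Group D] (ω : B →* D), P.Ok M1 T0 → TGood P T Q π → LimB T ω →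
    ∀ (i : ℕ) (u w : B) (a : ℤ),
      Pair (T i).H P.n P.L1 P.L2 P.km ((T i).p u) ((T i).p w) a →
      Q i ((T i).p u) ((T i).p w) a → ω (ww u w a P.h P.ex) = 1

/-- Part T8: every stage has an element of infinite order. -/
def StUB : Prop :=
  ∀ (ι : Type) (P : Par2) (M1 T0 : ℕ) (T : ℕ → Bst (FreeGroup ι) P.C)
    (Q : ∀ i, (T i).G → (T i).G → ℤ → Prop) (π : ∀ i, (T i).G →* (T (i + 1)).G) (i1 i2 : ι),
    i1 ≠ i2 → P.Ok M1 T0 → TGood P T Q π → Function.Injective (T 0).p →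
    (∀ j : ι, (T 0).d 1 ((T 0).p (FreeGroup.of j)) ≤ 1) →
    (∀ j, 1 ≤ j → ∃ c : (T j).G, c ^ P.n = 1 ∧ c ≠ 1) →
    (T 1).p (FreeGroup.of i2) ∉ Subgroup.zpowers ((T 1).p (FreeGroup.of i1)) →
    ∀ j, ∃ g : (T j).G, g ^ P.n ≠ 1

/-- Part T9: simplicity of the limit. -/
def StSim : Prop :=
  ∀ (B : Type) [Group B] (P : Par2) (M1 T0 : ℕ) (T : ℕ → Bst B P.C)
    (Q : ∀ i, (T i).G → (T i).G → ℤ → Prop) (π : ∀ i, (T i).G →* (T (i + 1)).G)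
    (D : Type) [Group D] (ω : B →* D) (s : ℕ), P.Ok M1 T0 → TGood P T Q π → LimB T ω →
    (∀ j, ∃ g : (T j).G, g ^ P.n ≠ 1) →
    (∀ i, s ≤ i → ∀ S r a, |a| ≤ (P.k1 : ℤ) → Q i S r a) →
    ∀ M : Subgroup D, M.Normal → M ≠ ⊥ → M = ⊤

/-- Part T10: pairs killed not later than `(u0, v0)` and conjugate to it in the limit are
conjugate at the stage `s + 1`. -/
def StSht : Prop :=
  ∀ (B : Type) [Group B] (P : Par2) (M1 T0 : ℕ) (T : ℕ → Bst B P.C)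
    (Q : ∀ i, (T i).G → (T i).G → ℤ → Prop) (π : ∀ i, (T i).G →* (T (i + 1)).G)
    (D : Type) [Group D] (ω : B →* D) (s i : ℕ), P.Ok M1 T0 → TGood P T Q π → LimB T ω →
    i ≤ s → ∀ (u0 v0 u v : B) (r0 z0 : (T s).G) (a0 : ℤ) (r z : (T i).G) (a : ℤ),
      BD P (T s) ((T s).p u0) ((T s).p v0) r0 a0 z0 →
      BD P (T i) ((T i).p u) ((T i).p v) r a z →
      (∃ x : D, x * ω u * x⁻¹ = ω u0 ∧ x * ω (vv P.N2 u v) * x⁻¹ = ω (vv P.N2 u0 v0)) →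
      ∃ t : (T (s + 1)).G, t * (T (s + 1)).p u * t⁻¹ = (T (s + 1)).p u0 ∧
        t * (T (s + 1)).p (vv P.N2 u v) * t⁻¹ = (T (s + 1)).p (vv P.N2 u0 v0)

/-- Part T11: the limit is infinite when all stages are unbounded. -/
def StInf : Prop :=
  ∀ (B : Type) [Group B] (P : Par2) (M1 T0 : ℕ) (T : ℕ → Bst B P.C)
    (Q : ∀ i, (T i).G → (T i).G → ℤ → Prop) (π : ∀ i, (T i).G →* (T (i + 1)).G)
    (D : Type) [Group D] (ω : B →* D), P.Ok M1 T0 → TGood P T Q π → LimB T ω →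
    (∀ j, ∃ g : (T j).G, g ^ P.n ≠ 1) → Infinite D

/-- The kernel of `FreeGroup ι → FB ι n`: the `n`-th powers. -/
def Vn (ι : Type) (n : ℕ) : Subgroup (FreeGroup ι) :=
  Subgroup.normalClosure (Set.range (fun x : FreeGroup ι => x ^ n))

/-- The free Burnside group. -/
abbrev FB (ι : Type) (n : ℕ) : Type := FreeGroup ι ⧸ Vn ι n

instance (ι : Type) (n : ℕ) : (Vn ι n).Normal := Subgroup.normalClosure_normal

/-- Part T12: stages without word relators are quotients by `n`-th powers. -/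
def StKer : Prop :=
  ∀ (ι : Type) (P : Par2) (M1 T0 : ℕ) (T : ℕ → Bst (FreeGroup ι) P.C)
    (Q : ∀ i, (T i).G → (T i).G → ℤ → Prop) (π : ∀ i, (T i).G →* (T (i + 1)).G) (s : ℕ),
    P.Ok M1 T0 → TGood P T Q π → Function.Injective (T 0).p →
    (∀ i < s, ∀ S r a, ¬ Q i S r a) → ∀ b, (T (s + 1)).p b = 1 → b ∈ Vn ι P.n

/-- Part T13: the generator has order `n` at the stage `1`, and the second generator is not
one of its powers. -/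
def StGen : Prop :=
  ∀ (ι : Type) (P : Par2) (M1 T0 : ℕ) (T : ℕ → Bst (FreeGroup ι) P.C)
    (Q : ∀ i, (T i).G → (T i).G → ℤ → Prop) (π : ∀ i, (T i).G →* (T (i + 1)).G) (i1 i2 : ι),
    i1 ≠ i2 → P.Ok M1 T0 → TGood P T Q π → Function.Injective (T 0).p →
    (∀ j : ι, (T 0).d 1 ((T 0).p (FreeGroup.of j)) ≤ 1) →
    (∀ j : ℕ, (T 1).p (FreeGroup.of i1) ^ j = 1 ↔ P.n ∣ j) ∧
    (T 1).p (FreeGroup.of i2) ∉ Subgroup.zpowers ((T 1).p (FreeGroup.of i1))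

/-- Part T: the output of the tower part. -/
def StTower : Prop :=
  ∃ n0 : ℕ, ∀ n : ℕ, n0 ≤ n → Odd n → ∃ N2 : ℕ, Nat.Coprime N2 n ∧
    ∀ (ι : Type) (i1 i2 : ι), i1 ≠ i2 →
      Rig (FB ι n) n N2 (QuotientGroup.mk (FreeGroup.of i1) : FB ι n)

end Pool.Agent.Helper17.SPL
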