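import Mathlib

/-!
MP_7246d9_al: from index types in `Type` to index types in `Type u`.
-/

set_option autoImplicit false

namespace Pool.Agent.Helper17.SPL

universe u

/-- The normal subgroup generated by the `n`-th powers. -/
def VnU (ι : Type u) (n : ℕ) : Subgroup (FreeGroup ι) :=
  Subgroup.normalClosure (Set.range (fun x : FreeGroup ι => x ^ n))

instance VnU_normal (ι : Type u) (n : ℕ) : (VnU ι n).Normal := Subgroup.normalClosure_normal

/-- The free Burnside group `B(ι, n)`. -/
abbrev FBU (ι : Type u) (n : ℕ) : Type u := FreeGroup ι ⧸ VnU ι n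

/-- Every automorphism of `B(ι, n)` with `φ ^ n = 1` and trivial norm is inner. -/
def SplInner (ι : Type u) (n : ℕ) : Prop :=
  ∀ φ : MulAut (FBU ι n), φ ^ n = 1 →
    (∀ b, ((List.range n).map (fun i => (φ ^ (i + 1)) b)).prod = 1) →
    ∃ g : FBU ι n, ∀ b, φ b = g⁻¹ * b * g

/-- `B(ι, n)` is infinite and centralizers of non-trivial elements are finite. -/
def FinCen (ι : Type u) (n : ℕ) : Prop :=
  Infinite (FBU ι n) ∧ ∀ x : FBU ι n, x ≠ 1 → {y : FBU ι n | Commute y x}.Finite

/-- Part U: the reduction to countable index sets. -/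
def StU : Prop :=
  ∀ n : ℕ, (∀ ι : Type, Nontrivial ι → SplInner ι n ∧ FinCen ι n) →
    ∀ ι : Type u, Nontrivial ι → SplInner ι n

end Pool.Agent.Helper17.SPL
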