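import Mathlib
import Pool.Agent.Helper17.SPL.UDefs

/-!
MP_7246d9_al: from index types in `Type` to index types in `Type u` (Part U).
-/

set_option autoImplicit false

namespace Pool.Agent.Helper17.SPL

universe u v

section

variable {ι : Type u} {n : ℕ}

/-- A letter. -/
def ltrU (n : ℕ) (a : ι) : FBU ι n := QuotientGroup.mk (FreeGroup.of a)

theorem fbu_pow (x : FBU ι n) : x ^ n = 1 := by
  induction x using QuotientGroup.induction_on with
  | H z =>
    rw [← QuotientGroup.mk_pow, QuotientGroup.eq_one_iff]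
    exact Subgroup.subset_normalClosure ⟨z, rfl⟩

theorem vnU_le {G : Type v} [Group G] (f : FreeGroup ι →* G) (hG : ∀ g : G, g ^ n = 1) :
    ∀ x ∈ VnU ι n, f x = 1 := by
  intro x hx
  have h1 : VnU ι n ≤ f.ker := by
    refine Subgroup.normalClosure_le_normal ?_
    rintro _ ⟨z, rfl⟩
    rw [SetLike.mem_coe, MonoidHom.mem_ker]
    simp only [map_pow, hG]
  exact h1 hx

/-- The universal property. -/
def liftU {G : Type v} [Group G] (hG : ∀ g : G, g ^ n = 1) (f : ι → G) : FBU ι n →* G :=
  QuotientGroup.lift (VnU ι n) (FreeGroup.lift f) (vnU_le _ hG)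

theorem liftU_ltr {G : Type v} [Group G] (hG : ∀ g : G, g ^ n = 1) (f : ι → G) (a : ι) :
    liftU hG f (ltrU n a) = f a := by
  unfold liftU ltrU
  rw [QuotientGroup.lift_mk, FreeGroup.lift_apply_of]

theorem closure_ltrU : Subgroup.closure (Set.range (ltrU n : ι → FBU ι n)) = ⊤ := by
  have h1 := FreeGroup.closure_range_of ι
  have h2 := congrArg (Subgroup.map (QuotientGroup.mk' (VnU ι n))) h1
  rw [MonoidHom.map_closure, ← Set.range_comp,
    Subgroup.map_top_of_surjective _ (QuotientGroup.mk'_surjective _)] at h2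
  exact h2

theorem homU_eq {G : Type v} [Group G] (f g : FBU ι n →* G)
    (h : ∀ a, f (ltrU n a) = g (ltrU n a)) : f = g := by
  refine MonoidHom.eq_of_eqOn_dense closure_ltrU ?_
  rintro _ ⟨a, rfl⟩
  exact h a

/-- The subgroup generated by the letters in `J`. -/
def BsU (n : ℕ) (J : Set ι) : Subgroup (FBU ι n) := Subgroup.closure (ltrU n '' J)

theorem bsU_mono {J K : Set ι} (h : J ⊆ K) : BsU n J ≤ BsU n K :=
  Subgroup.closure_mono (Set.image_mono h)

theorem ltr_memU {J : Set ι} {a : ι} (h : a ∈ J) : ltrU n a ∈ BsU n J :=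
  Subgroup.subset_closure ⟨a, h, rfl⟩

theorem suppU (x : FBU ι n) : ∃ s : Set ι, s.Finite ∧ x ∈ BsU n s := by
  have hx : x ∈ Subgroup.closure (Set.range (ltrU n : ι → FBU ι n)) := by
    rw [closure_ltrU]
    exact Subgroup.mem_top x
  induction hx using Subgroup.closure_induction with
  | mem y hy =>
    obtain ⟨a, rfl⟩ := hy
    exact ⟨{a}, Set.finite_singleton a, ltr_memU (Set.mem_singleton a)⟩
  | one => exact ⟨∅, Set.finite_empty, Subgroup.one_mem _⟩
  | mul y z _ _ hy hz =>
    obtain ⟨s, hs, hy⟩ := hy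
    obtain ⟨t, ht, hz⟩ := hz
    exact ⟨s ∪ t, hs.union ht, Subgroup.mul_mem _ (bsU_mono Set.subset_union_left hy)
      (bsU_mono Set.subset_union_right hz)⟩
  | inv y _ hy =>
    obtain ⟨s, hs, hy⟩ := hy
    exact ⟨s, hs, Subgroup.inv_mem _ hy⟩

/-- A countable set of letters can be enlarged to a countable invariant one. -/
theorem closeU (φ : MulAut (FBU ι n)) (J0 : Set ι) (h0 : J0.Countable) :
    ∃ J : Set ι, J0 ⊆ J ∧ J.Countable ∧ (∀ y ∈ BsU n J, φ y ∈ BsU n J) ∧
      ∀ y ∈ BsU n J, φ.symm y ∈ BsU n J := by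
  choose s hs1 hs2 using (suppU : ∀ x : FBU ι n, _)
  obtain ⟨K, hK0, hK1⟩ : ∃ K : ℕ → Set ι, K 0 = J0 ∧ ∀ k, K (k + 1) =
      K k ∪ ⋃ j ∈ K k, (s (φ (ltrU n j)) ∪ s (φ.symm (ltrU n j))) :=
    ⟨fun k => Nat.rec J0 (fun _ A => A ∪ ⋃ j ∈ A, (s (φ (ltrU n j)) ∪ s (φ.symm (ltrU n j)))) k,
      rfl, fun _ => rfl⟩
  have hc : ∀ k, (K k).Countable := by
    intro k
    induction k with
    | zero => rw [hK0]; exact h0
    | succ k ih =>
      rw [hK1]
      exact ih.union (ih.biUnion fun j _ => ((hs1 _).countable.union (hs1 _).countable))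
  refine ⟨⋃ k, K k, ?_, Set.countable_iUnion hc, ?_, ?_⟩
  · rw [← hK0]
    exact Set.subset_iUnion K 0
  · intro y hy
    unfold BsU at hy
    induction hy using Subgroup.closure_induction with
    | mem z hz =>
      obtain ⟨a, ha, rfl⟩ := hz
      obtain ⟨k, hk⟩ := Set.mem_iUnion.1 ha
      have h1 : s (φ (ltrU n a)) ⊆ ⋃ k, K k := by
        refine subset_trans ?_ (Set.subset_iUnion K (k + 1))
        rw [hK1]
        refine subset_trans ?_ Set.subset_union_right
        exact subset_trans Set.subset_union_left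
          (Set.subset_biUnion_of_mem (u := fun j => s (φ (ltrU n j)) ∪ s (φ.symm (ltrU n j))) hk)
      exact bsU_mono h1 (hs2 _)
    | one => rw [map_one]; exact Subgroup.one_mem _
    | mul y z _ _ hy hz => rw [map_mul]; exact Subgroup.mul_mem _ hy hz
    | inv y _ hy => rw [map_inv]; exact Subgroup.inv_mem _ hy
  · intro y hy
    unfold BsU at hy
    induction hy using Subgroup.closure_induction with
    | mem z hz =>
      obtain ⟨a, ha, rfl⟩ := hz
      obtain ⟨k, hk⟩ := Set.mem_iUnion.1 ha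
      have h1 : s (φ.symm (ltrU n a)) ⊆ ⋃ k, K k := by
        refine subset_trans ?_ (Set.subset_iUnion K (k + 1))
        rw [hK1]
        refine subset_trans ?_ Set.subset_union_right
        exact subset_trans Set.subset_union_right
          (Set.subset_biUnion_of_mem (u := fun j => s (φ (ltrU n j)) ∪ s (φ.symm (ltrU n j))) hk)
      exact bsU_mono h1 (hs2 _)
    | one => rw [map_one]; exact Subgroup.one_mem _
    | mul y z _ _ hy hz => rw [map_mul]; exact Subgroup.mul_mem _ hy hz
    | inv y _ hy => rw [map_inv]; exact Subgroup.inv_mem _ hy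

/-- An injection of index types embeds the free Burnside group as a retract. -/
theorem embU {α : Type v} (n : ℕ) (e : α → ι) (he : Function.Injective e) :
    ∃ (m : FBU α n →* FBU ι n) (r : FBU ι n →* FBU α n), (∀ x, r (m x) = x) ∧
      (∀ x, m x ∈ BsU n (Set.range e)) ∧ ∀ y ∈ BsU n (Set.range e), m (r y) = y := by
  classical
  let m : FBU α n →* FBU ι n := liftU fbu_pow (fun a => ltrU n (e a))
  let r : FBU ι n →* FBU α n :=
    liftU fbu_pow (fun i => if h : ∃ a, e a = i then ltrU n h.choose else 1)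
  have hm : ∀ a, m (ltrU n a) = ltrU n (e a) := fun a => liftU_ltr _ _ a
  have hr : ∀ a, r (ltrU n (e a)) = ltrU n a := by
    intro a
    have h1 : ∃ b, e b = e a := ⟨a, rfl⟩
    have h2 : r (ltrU n (e a)) =
        if h : ∃ b, e b = e a then ltrU n h.choose else 1 := liftU_ltr _ _ _
    rw [h2, dif_pos h1]
    exact congrArg (ltrU n) (he h1.choose_spec)
  have h1 : ∀ x, r (m x) = x := by
    have h2 : r.comp m = MonoidHom.id _ := by
      refine homU_eq _ _ ?_
      intro a
      rw [MonoidHom.comp_apply, hm, hr, MonoidHom.id_apply]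
    intro x
    exact DFunLike.congr_fun h2 x
  have h3 : m.range = BsU n (Set.range e) := by
    rw [MonoidHom.range_eq_map, ← closure_ltrU, MonoidHom.map_closure, ← Set.range_comp]
    unfold BsU
    rw [← Set.range_comp]
    congr 2
  refine ⟨m, r, h1, ?_, ?_⟩
  · intro x
    rw [← h3]
    exact ⟨x, rfl⟩
  · intro y hy
    rw [← h3] at hy
    obtain ⟨x, rfl⟩ := hy
    rw [h1]

/-- Restriction of an automorphism to an invariant subgroup generated by letters. -/
theorem restrU {α : Type v} (hs : SplInner α n) (e : α → ι) (he : Function.Injective e)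
    (φ : MulAut (FBU ι n)) (hφ : φ ^ n = 1)
    (hN : ∀ b, ((List.range n).map (fun i => (φ ^ (i + 1)) b)).prod = 1)
    (h1 : ∀ y ∈ BsU n (Set.range e), φ y ∈ BsU n (Set.range e))
    (h2 : ∀ y ∈ BsU n (Set.range e), φ.symm y ∈ BsU n (Set.range e)) :
    ∃ g ∈ BsU n (Set.range e), ∀ y ∈ BsU n (Set.range e), φ y = g⁻¹ * y * g := by
  obtain ⟨m, r, hrm, hm, hmr⟩ := embU n e he
  have hinj : Function.Injective m := fun x y h => by
    have := congrArg r h
    rwa [hrm, hrm] at this
  let ψ : MulAut (FBU α n) :=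
    { toFun := fun x => r (φ (m x))
      invFun := fun x => r (φ.symm (m x))
      left_inv := by
        intro x
        change r (φ.symm (m (r (φ (m x))))) = x
        rw [hmr _ (h1 _ (hm x)), MulEquiv.symm_apply_apply, hrm]
      right_inv := by
        intro x
        change r (φ (m (r (φ.symm (m x))))) = x
        rw [hmr _ (h2 _ (hm x)), MulEquiv.apply_symm_apply, hrm]
      map_mul' := by
        intro x y
        simp only [map_mul] }
  have hψ : ∀ x, m (ψ x) = φ (m x) := by
    intro x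
    change m (r (φ (m x))) = φ (m x)
    exact hmr _ (h1 _ (hm x))
  have hk : ∀ (k : ℕ) (x : FBU α n), m ((ψ ^ k) x) = (φ ^ k) (m x) := by
    intro k
    induction k with
    | zero => intro x; rfl
    | succ k ih =>
      intro x
      rw [pow_succ', pow_succ', MulAut.mul_apply, MulAut.mul_apply, hψ, ih]
  have hψn : ψ ^ n = 1 := by
    refine MulEquiv.ext ?_
    intro x
    apply hinj
    rw [hk, hφ]
    rfl
  have hψN : ∀ b, ((List.range n).map (fun i => (ψ ^ (i + 1)) b)).prod = 1 := by
    intro b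
    apply hinj
    rw [map_list_prod, List.map_map, map_one, ← hN (m b)]
    congr 1
    refine List.map_congr_left ?_
    intro k _
    exact hk (k + 1) b
  obtain ⟨g, hg⟩ := hs ψ hψn hψN
  refine ⟨m g, hm g, ?_⟩
  intro y hy
  rw [← hmr y hy, ← hψ, hg, map_mul, map_mul, map_inv]

end

/-- Part U: the reduction to countable index sets. -/
theorem stU : StU.{u} := by
  intro n hT ι hι φ hφ hN
  -- the types in `Type` for countable sets
  have key : ∀ J : Set ι, J.Countable → J.Nontrivial →
      ∃ (α : Type) (e : α → ι), Nontrivial α ∧ Function.Injective e ∧ Set.range e = J := by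
    intro J hJ hn
    have : Countable J := hJ.to_subtype
    obtain ⟨a, ha, b, hb, hab⟩ := hn
    have E : J ≃ Shrink.{0} J := equivShrink.{0} J
    refine ⟨Shrink.{0} J, fun x => (E.symm x : ι), ?_, ?_, ?_⟩
    · refine ⟨E ⟨a, ha⟩, E ⟨b, hb⟩, ?_⟩
      intro h
      have h1 := E.injective h
      exact hab (congrArg Subtype.val h1)
    · exact Subtype.val_injective.comp E.symm.injective
    · ext i
      constructor
      · rintro ⟨x, rfl⟩
        exact (E.symm x).2
      · intro hi
        refine ⟨E ⟨i, hi⟩, ?_⟩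
        simp only [Equiv.symm_apply_apply]
  obtain ⟨a, b, hab⟩ := hι
  obtain ⟨J, hJ0, hJc, hJ1, hJ2⟩ := closeU φ {a, b}
    ((Set.finite_singleton b).insert a).countable
  have hJn : J.Nontrivial :=
    ⟨a, hJ0 (Set.mem_insert _ _), b, hJ0 (Set.mem_insert_of_mem _ rfl), hab⟩
  obtain ⟨α, e, hα, he, hr⟩ := key J hJc hJn
  rw [← hr] at hJ1 hJ2
  obtain ⟨g, hgJ, hg⟩ := restrU (hT α hα).1 e he φ hφ hN hJ1 hJ2
  refine ⟨g, ?_⟩
  obtain ⟨m, r, hrm, hm, hmr⟩ := embU n e he
  have hinj : Function.Injective m := fun x y h => by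
    have := congrArg r h
    rwa [hrm, hrm] at this
  -- agreement on letters
  have hl : ∀ x : ι, φ (ltrU n x) = g⁻¹ * ltrU n x * g := by
    intro x
    obtain ⟨J', hJ0', hJc', hJ1', hJ2'⟩ := closeU φ (insert x J) (hJc.insert x)
    have hJJ : J ⊆ J' := subset_trans (Set.subset_insert x J) hJ0'
    obtain ⟨α', e', hα', he', hr'⟩ := key J' hJc' (hJn.mono hJJ)
    rw [← hr'] at hJ1' hJ2'
    obtain ⟨g', hgJ', hg'⟩ := restrU (hT α' hα').1 e' he' φ hφ hN hJ1' hJ2'
    obtain ⟨m', r', hrm', hm', hmr'⟩ := embU n e' he'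
    have hle : BsU n (Set.range e) ≤ BsU n (Set.range e') := by
      rw [hr, hr']
      exact bsU_mono hJJ
    have hz : g' * g⁻¹ = 1 := by
      by_contra hne
      have hzJ : g' * g⁻¹ ∈ BsU n (Set.range e') :=
        Subgroup.mul_mem _ hgJ' (Subgroup.inv_mem _ (hle hgJ))
      have hne' : r' (g' * g⁻¹) ≠ 1 := by
        intro h
        apply hne
        rw [← hmr' _ hzJ, h, map_one]
      have hfin := (hT α' hα').2.2 _ hne'
      have hinf : Infinite (FBU α n) := (hT α hα).2.1
      refine Set.infinite_range_of_injective (f := fun y : FBU α n => r' (m y)) ?_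
        (hfin.subset ?_)
      · intro y z hyz
        have h1 := congrArg m' hyz
        simp only at h1
        rw [hmr' _ (hle (hm y)), hmr' _ (hle (hm z))] at h1
        exact hinj h1
      · rintro _ ⟨y, rfl⟩
        change Commute (r' (m y)) (r' (g' * g⁻¹))
        refine Commute.map ?_ r'
        have h1 := hg (m y) (hm y)
        rw [hg' (m y) (hle (hm y))] at h1
        -- g'⁻¹ y g' = g⁻¹ y g
        have h2 : m y * (g' * g⁻¹) = g' * (g'⁻¹ * m y * g') * g⁻¹ := by group
        have h3 : g' * g⁻¹ * m y = g' * (g⁻¹ * m y * g) * g⁻¹ := by group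
        change m y * (g' * g⁻¹) = g' * g⁻¹ * m y
        rw [h2, h3, h1]
    have hgg : g' = g := mul_inv_eq_one.1 hz
    rw [← hgg]
    refine hg' _ ?_
    rw [hr']
    exact ltr_memU (hJ0' (Set.mem_insert _ _))
  have hfin : (φ : FBU ι n →* FBU ι n) = (MulAut.conj g⁻¹ : FBU ι n →* FBU ι n) := by
    refine homU_eq _ _ ?_
    intro x
    change φ (ltrU n x) = MulAut.conj g⁻¹ (ltrU n x)
    rw [hl, MulAut.conj_apply, inv_inv]
  intro y
  have h1 := DFunLike.congr_fun hfin y
  change φ y = MulAut.conj g⁻¹ y at h1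
  rw [h1, MulAut.conj_apply, inv_inv]

end Pool.Agent.Helper17.SPL
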